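import Mathlib
import Pool.Agent.MP_9e8696_an.H8.Moment
import Pool.Agent.MP_9e8696_an.H8.Greedy

/-!
Definitions and the statements of the steps for the quasi-polynomial bound on the total influence.
-/

namespace Pool.Agent.MP_9e8696_an.H30

open Finset hiding inf
open H67 H8
open scoped BigOperators

section defs

variable {ι : Type*} [Fintype ι] [DecidableEq ι]

/-- Bounded by one on the box of radius `√(1 + s)`. -/
def Box (s : ℝ) (a : Finset ι → ℝ) : Prop :=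
  ∀ w : ι → ℝ, (∀ i, |w i| ≤ Real.sqrt (1 + s)) → |F a w| ≤ 1

/-- Total influence. -/
def tot (a : Finset ι → ℝ) : ℝ := ∑ j, inf a j

/-- Sum of the squares of the influences. -/
def psi (a : Finset ι → ℝ) : ℝ := ∑ j, inf a j ^ 2

/-- Damping of the coefficients. -/
def dmp (θ : ℝ) (a : Finset ι → ℝ) (S : Finset ι) : ℝ := θ ^ S.card * a S

/-- Relative influence. -/
noncomputable def io (e : Finset ι → ℝ) (i : ι) : ℝ := inf e i / nrm e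

/-- Energy of the pair `(j, i)`. -/
noncomputable def en (s : ℝ) (a : Finset ι → ℝ) (j i : ι) : ℝ :=
  dl (sh {j} a) i ^ 2 + s ^ 2 * io (sh {j} a) i ^ 2

/-- The damping factor of one step. -/
noncomputable def th (s n : ℝ) : ℝ := 1 / Real.sqrt (1 + s / n)

/-- Average of `Φ` over one step of the process. -/
noncomputable def avgS (s n : ℝ) (Φ : (Finset ι → ℝ) → ℝ) (a : Finset ι → ℝ) : ℝ :=
  (∑ i, (Φ (dmp (th s n) (res i (Real.sqrt (1 + s)) a)) +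
      Φ (dmp (th s n) (res i (-Real.sqrt (1 + s)) a))) / 2) / n +
    (1 - (Fintype.card ι : ℝ) / n) * Φ (dmp (th s n) a)

/-- Coefficients after fixing the coordinates in `B` to the values `ζ`. -/
def rp (B : Finset ι) (ζ : ι → ℝ) (e : Finset ι → ℝ) : Finset ι → ℝ :=
  del B (tc e fun i => if i ∈ B then ζ i else 0)

/-- The term of order `k` of the Taylor expansion in the direction `b`. -/
def uk (k : ℕ) (b : ι → ℝ) (e : Finset ι → ℝ) (T : Finset ι) : ℝ := F (lev k (sh T e)) b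

/-- The derivative in the direction `b`. -/
def dir (b : ι → ℝ) (e : Finset ι → ℝ) (T : Finset ι) : ℝ := ∑ i, b i * sh {i} e T

/-- Uniform bound for the combinations of a family of polynomials. -/
def Fam (J : Finset ι) (g : ι → Finset ι → ℝ) (r ρ K : ℝ) : Prop :=
  ∀ σ w : ι → ℝ, (∀ j, |σ j| ≤ r) → (∀ i, |w i| ≤ ρ) → |∑ j ∈ J, σ j * F (g j) w| ≤ K

end defs

/-- The three spin values. -/
noncomputable def zv (s : ℝ) : Fin 3 → ℝ := ![Real.sqrt (1 + s), -Real.sqrt (1 + s), 0]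

/-- The law of a spin: mean zero and variance one. -/
noncomputable def pv (s : ℝ) : Fin 3 → ℝ := ![1 / (2 * (1 + s)), 1 / (2 * (1 + s)), s / (1 + s)]

/-- The bound for the total influence in the class `Box s`. -/
def Bound (d : ℕ) (s q : ℝ) : Prop :=
  ∀ (ι : Type) [Fintype ι] [DecidableEq ι] (a : Finset ι → ℝ), DegLe a d → Box s a →
    ∀ H : ℝ, (∀ j, inf a j ≤ H) → tot a ≤ q * Real.sqrt H

/-- Small total weight of the coordinates with large energy. -/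
def Kill (d : ℕ) (s q l R ε : ℝ) : Prop :=
  ∀ (ι : Type) [Fintype ι] [DecidableEq ι] (a : Finset ι → ℝ), DegLe a d → Box s a →
    ∀ H : ℝ, 0 < H → (∀ j, inf a j ≤ H) → ∀ J : Finset ι,
      (∀ j ∈ J, H ≤ R * inf a j) → (∀ j ∈ J, 2 * l + 1 ≤ ∑ i, en s a j i) →
      ∑ j ∈ J, inf a j ≤ ε * q * Real.sqrt H

/-- First moments of the influences in one step. -/
def Step1 : Prop :=
  ∀ (ι : Type) [Fintype ι] [DecidableEq ι] (d : ℕ) (s n : ℝ) (a : Finset ι → ℝ), 1 ≤ d →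
    0 ≤ s → s ≤ 1 → (Fintype.card ι : ℝ) ≤ n → 100 * (d : ℝ) ^ 2 ≤ n → DegLe a d → ∀ j : ι,
      (1 - 3 / n) * inf a j ≤ avgS s n (fun c => inf c j) a ∧
        avgS s n (fun c => inf c j) a ≤ inf a j

/-- Second moments of the influences in one step. -/
def Step2 : Prop :=
  ∀ (ι : Type) [Fintype ι] [DecidableEq ι] (d : ℕ) (s n : ℝ) (a : Finset ι → ℝ), 1 ≤ d →
    0 ≤ s → s ≤ 1 → (Fintype.card ι : ℝ) ≤ n → 100 * (d : ℝ) ^ 2 ≤ n → DegLe a d → ∀ j : ι,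
      avgS s n (fun c => (inf c j - inf a j) ^ 2) a ≤
        inf a j ^ 2 * (4 * ∑ i, en s a j i + 4) / n

/-- One phase of the process. -/
def Phase : Prop :=
  ∀ (d : ℕ) (s q q' l R ε X : ℝ), 1 ≤ d → 0 ≤ s → s ≤ 1 / 2 → 0 ≤ q → 0 ≤ q' → 0 ≤ l → 1 ≤ R →
    0 ≤ ε → Real.exp ((8 * l + 8) / 10 ^ 6) ≤ X → Bound d s q →
    Bound d (s * (1 + 1 / 10 ^ 6)) q' → (∀ σ, s ≤ σ → σ ≤ 1 → Kill d σ q l R ε) →
    Bound d s (2 * Real.sqrt R * q' +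
      2 * d * X * (1 / R + d * (ε * Real.sqrt R + 1 / Real.sqrt R)) * q)

/-- The bound applied to the polynomial `∑ j, e j * g j`. -/
def SumG : Prop :=
  ∀ (d : ℕ) (s q : ℝ), 1 ≤ d → 0 ≤ s → 0 ≤ q → Bound d s q →
    ∀ (ι : Type) [Fintype ι] [DecidableEq ι] (J : Finset ι) (g : ι → Finset ι → ℝ) (K τ : ℝ),
      0 < K → 0 < τ → (∀ j ∈ J, DegLe (g j) (d - 1)) →
      Fam J g (Real.sqrt (1 + s)) (Real.sqrt (1 + s)) K → (∀ j ∈ J, nrm (g j) ≤ τ) →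
      ∑ j ∈ J, nrm (g j) ≤ K * q * Real.sqrt τ +
        ∑ i, if τ < ∑ j ∈ J, inf (g j) i then ∑ j ∈ J, inf (g j) i else 0

/-- Planting on disjoint blocks. -/
def Plant : Prop :=
  ∀ (ι : Type) [Fintype ι] [DecidableEq ι] (d : ℕ) (s : ℝ) (a : Finset ι → ℝ), 1 ≤ d → 0 ≤ s →
    DegLe a d → Box s a → ∀ (J : Finset ι) (B : ι → Finset ι) (ζ : ι → ι → ℝ),
      (∀ j ∈ J, j ∈ B j) → (∀ j ∈ J, ∀ k ∈ J, j ≠ k → Disjoint (B j) (B k)) →
      (∀ j i, |ζ j i| ≤ Real.sqrt (1 + s)) →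
      Fam J (fun j => rp (B j) (ζ j) (sh {j} a)) (Real.sqrt (1 + s)) (Real.sqrt (1 + s))
        (2 * (d : ℝ) ^ 2)

/-- The norm is a martingale when a block is fixed to random spins. -/
def MargA : Prop :=
  ∀ (ι : Type) [Fintype ι] [DecidableEq ι] (s : ℝ) (B : Finset ι) (e : Finset ι → ℝ), 0 ≤ s →
    Ep (fun _ : ι => pv s) (fun x => nrm (rp B (fun i => zv s (x i)) e)) = nrm e

/-- The one-coordinate marginals of the size-biased law. -/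
def MargB : Prop :=
  ∀ (ι : Type) [Fintype ι] [DecidableEq ι] (s : ℝ) (B : Finset ι) (e : Finset ι → ℝ), 0 ≤ s →
    ∀ i ∈ B, ∀ φ : Fin 3 → ℝ,
      Ep (fun _ : ι => pv s) (fun x => φ (x i) * nrm (rp B (fun i => zv s (x i)) e)) =
        ∑ k, pv s k * φ k * nrm (res i (zv s k) e)

/-- Large energy on a block gives a large gain with polynomial size-biased probability. -/
def Gain : Prop :=
  ∀ (ι : Type) [Fintype ι] [DecidableEq ι] (s l p : ℝ) (B : Finset ι) (e : Finset ι → ℝ),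
    0 ≤ s → s ≤ 1 → 64 ≤ l → 1 ≤ p → (B.card : ℝ) ≤ p →
    l ≤ ∑ i ∈ B, (dl e i ^ 2 + s ^ 2 * io e i ^ 2) →
    nrm e / (2 * p) ≤ Ep (fun _ : ι => pv s) (fun x =>
      if Real.exp (l / 64) / (2 * p) * nrm e ≤ nrm (rp B (fun i => zv s (x i)) e)
        then nrm (rp B (fun i => zv s (x i)) e) else 0)

/-- Choice of one outcome for each index, at least as good as independent random choices. -/
def Sel : Prop :=
  ∀ (ι Ω : Type) [Fintype ι] [DecidableEq ι] [Fintype Ω] (J : Finset ι) (ν A : ι → Ω → ℝ)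
    (c : ι → Ω → ι → ℝ) (κ : ℝ), 0 ≤ κ → (∀ j x, 0 ≤ ν j x) → (∀ j, ∑ x, ν j x = 1) →
    (∀ j x i, 0 ≤ c j x i) →
    ∃ ω : ι → Ω, ∑ j ∈ J, ∑ x, ν j x * A j x - κ * ∑ i, (∑ j ∈ J, ∑ x, ν j x * c j x i) ^ 2 ≤
      ∑ j ∈ J, A j (ω j) -
        κ * ∑ i, ((∑ j ∈ J, c j (ω j) i) ^ 2 - ∑ j ∈ J, c j (ω j) i ^ 2)

/-- Disjoint blocks with large energy carry little weight. -/
def Big1 : Prop :=
  ∀ (d : ℕ) (s q l p : ℝ), 1 ≤ d → 0 ≤ s → s ≤ 1 → 0 ≤ q → 64 ≤ l → 1 ≤ p → Bound d s q →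
    ∀ (ι : Type) [Fintype ι] [DecidableEq ι] (a : Finset ι → ℝ), DegLe a d → Box s a →
    ∀ H : ℝ, 0 < H → (∀ j, inf a j ≤ H) → ∀ (J : Finset ι) (B : ι → Finset ι),
      (∀ j ∈ J, j ∈ B j) → (∀ j ∈ J, ∀ k ∈ J, j ≠ k → Disjoint (B j) (B k)) →
      (∀ j ∈ J, ((B j).card : ℝ) ≤ p) → (∀ j ∈ J, l ≤ ∑ i ∈ B j, en s a j i) →
      ∑ j ∈ J, inf a j ≤ 64 * (d : ℝ) ^ 3 * p ^ 2 * Real.exp (-(l / 128)) * q * Real.sqrt H

/-- A maximal selection with bounded column loads. -/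
def SelS : Prop :=
  ∀ (ι : Type) [Fintype ι] [DecidableEq ι] (J : Finset ι) (m : ι → ℝ) (x : ι → ι → ℝ)
    (h g l E C : ℝ), 0 < h → 0 < g → 0 < l → 0 ≤ C → (∀ j ∈ J, h ≤ m j) → (∀ j i, 0 ≤ x j i) →
    (∀ j ∈ J, ∀ i, x j i ≤ g) → (∀ j ∈ J, l ≤ ∑ i, x j i) → (∀ j ∈ J, ∑ i, x j i ≤ E) →
    (∀ i, ∑ j ∈ J, m j * x j i ≤ C) →
    ∃ J₁ ⊆ J, ∃ I : ι → Finset ι, (∀ j ∈ J₁, l / 2 ≤ ∑ i ∈ I j, x j i) ∧
      (∀ i, ∑ j ∈ J₁, (if i ∈ I j then x j i else 0) ≤ 2 * g) ∧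
      ∑ j ∈ J, m j ≤ (1 + 2 * C * E / (l * g * h)) * ∑ j ∈ J₁, m j

/-- One directional derivative with a direction that depends on the member of the family. -/
def DirStep : Prop :=
  ∀ (ι : Type) [Fintype ι] [DecidableEq ι] (d : ℕ) (J : Finset ι) (g : ι → Finset ι → ℝ)
    (b : ι → ι → ℝ) (r ρ η γ K : ℝ), 0 < η → 0 < γ → 0 < K → (∀ j ∈ J, DegLe (g j) d) →
    (∀ i, ∑ j ∈ J, b j i ^ 2 ≤ γ ^ 2) → Fam J g r (ρ + η) K →
    Fam J (fun j => dir (b j) (g j)) r ρ (K * (4 * (d : ℝ) ^ 2 * γ / η))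

/-- Recursion, norm bound and commutation for the Taylor terms. -/
def UkFacts : Prop :=
  ∀ (ι : Type) [Fintype ι] [DecidableEq ι] (b : ι → ℝ) (e : Finset ι → ℝ),
    uk 0 b e = e ∧
    (∀ k : ℕ, dir b (uk k b e) = fun T => ((k : ℝ) + 1) * uk (k + 1) b e T) ∧
    (∀ (k : ℕ) (i : ι), sh {i} (uk k b e) = uk k b (sh {i} e)) ∧
    (∀ d : ℕ, DegLe e d → ∀ k : ℕ, DegLe (uk k b e) d) ∧
    (∀ d : ℕ, DegLe e d → ∑ i, b i ^ 2 ≤ d → ∀ k : ℕ,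
      nrm (uk k b e) ≤ ((d : ℝ) ^ 2) ^ k * nrm e) ∧
    (∀ d : ℕ, DegLe e d → tc e b = fun T => ∑ k ∈ range (d + 1), uk k b e T)

/-- Large energy forces weight on the Taylor terms of order at least three. -/
def Jensen3 : Prop :=
  ∀ (ι : Type) [Fintype ι] [DecidableEq ι] (d : ℕ) (l : ℝ) (e : Finset ι → ℝ) (I : Finset ι),
    1 ≤ d → DegLe e d → 8 * (d : ℝ) ^ 5 ≤ Real.exp (l / 16) → l / 2 ≤ ∑ i ∈ I, dl e i ^ 2 →
    nrm e ≤ ∑ k ∈ Icc 3 d, nrm (uk k (fun i => if i ∈ I then dl e i / 4 else 0) e)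

/-- Small tilts with small column loads carry little weight. -/
def Small1 : Prop :=
  ∀ (d : ℕ) (s q l γ : ℝ), 1 ≤ d → 0 ≤ s → 0 ≤ q → 8 * (d : ℝ) ^ 5 ≤ Real.exp (l / 16) →
    0 < γ → 16 * (d : ℝ) ^ 5 * γ ≤ 1 → Bound d s q →
    ∀ (ι : Type) [Fintype ι] [DecidableEq ι] (a : Finset ι → ℝ), DegLe a d → Box s a →
    ∀ H : ℝ, 0 < H → (∀ j, inf a j ≤ H) → ∀ (J : Finset ι) (I : ι → Finset ι),
      (∀ j ∈ J, l / 2 ≤ ∑ i ∈ I j, dl (sh {j} a) i ^ 2) →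
      (∀ i, ∑ j ∈ J, (if i ∈ I j then dl (sh {j} a) i ^ 2 else 0) ≤ 2 * γ ^ 2) →
      ∑ j ∈ J, inf a j ≤ 32 * (d : ℝ) ^ 5 * (16 * (d : ℝ) ^ 5 * γ) ^ 3 * q * Real.sqrt H

/-- The two previous bounds combined. -/
def KillAll : Prop :=
  ∀ (d : ℕ) (s q l R γ : ℝ), 1 ≤ d → 0 ≤ s → s ≤ 1 → 0 ≤ q → 64 ≤ l →
    8 * (d : ℝ) ^ 5 ≤ Real.exp (l / 16) → 1 ≤ R → 0 < γ → 16 * (d : ℝ) ^ 5 * γ ≤ 1 →
    Bound d s q →
    Kill d s q l R (2 ^ 17 * (d : ℝ) ^ 7 * R / γ ^ 8 * Real.exp (-(l / 128)) +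
      2 ^ 18 * (d : ℝ) ^ 22 * R * γ)

/-- The low levels. -/
def Low : Prop :=
  ∀ (ι : Type) [Fintype ι] [DecidableEq ι] (d k : ℕ) (a : Finset ι → ℝ), 1 ≤ d → DegLe a d →
    Bdd a → ∀ H : ℝ, (∀ j, inf a j ≤ H) →
    ∑ S : Finset ι, (if S.card ≤ k then (S.card : ℝ) * a S ^ 2 else 0) ≤
      k * (64 * (d : ℝ) ^ 3) ^ k * Real.sqrt H

/-- Bilinear form of the bound, by greedy deletion on `m` scales. -/
def Bilin : Prop :=
  ∀ (d : ℕ) (s q : ℝ), 0 ≤ s → 0 ≤ q → Bound d s q →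
    ∀ (ι : Type) [Fintype ι] [DecidableEq ι] (m : ℕ) (b c : Finset ι → ℝ) (H : ℝ), 0 < H →
      DegLe b d → Box s b → (∀ S, |c S| ≤ |b S|) → (∀ j, inf c j ≤ H) →
      (∀ j, inf b j ≤ 4 ^ m * H) →
      ∑ S : Finset ι, (if S = ∅ then 0 else |c S| * |b S|) ≤ (2 * m + 1) * q * Real.sqrt H

/-- The end of the chain of phases. -/
def EndG : Prop :=
  ∀ (d k : ℕ) (q : ℝ), 1 ≤ d → 0 ≤ q → Bound d (1 / 4) q →
    Bound d (1 / 2) (k * (64 * (d : ℝ) ^ 3) ^ k + d * (2 * d + 1) * (11 / 12) ^ k * q)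

/-- One phase with the parameters chosen and the error absorbed. -/
def Phase2 : Prop :=
  ∀ (d : ℕ) (s q' : ℝ), 1 ≤ d → 0 ≤ s → s ≤ 1 / 2 → 0 ≤ q' →
    Bound d (s * (1 + 1 / 10 ^ 6)) q' → Bound d s ((2 * (d : ℝ)) ^ 7 * q')

/-- The final bound in coefficient form. -/
def Final : Prop :=
  ∃ C : ℝ, 0 < C ∧ ∀ d : ℕ, 1 ≤ d → Bound d 0 ((2 * (d : ℝ)) ^ (C * Real.log (2 * d)))

end Pool.Agent.MP_9e8696_an.H30
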