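import Mathlib
import Pool.Agent.MP_9e8696_an.H30.Spec

/-!
Basic tools: damping, deletion, restriction of a block, energies.
-/

set_option linter.unusedSectionVars false

namespace Pool.Agent.MP_9e8696_an.H30

open Finset hiding inf
open H67 H8
open scoped BigOperators

variable {ι : Type*} [Fintype ι] [DecidableEq ι]

lemma F_dmp (θ : ℝ) (a : Finset ι → ℝ) (w : ι → ℝ) :
    F (dmp θ a) w = F a fun i => θ * w i := by
  unfold F dmp
  refine sum_congr rfl fun S _ => ?_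
  rw [prod_mul_distrib, prod_const]; ring

lemma degLe_dmp {a : Finset ι → ℝ} {d : ℕ} (ha : DegLe a d) (θ : ℝ) : DegLe (dmp θ a) d := by
  intro S hS
  simp [dmp, ha S hS]

lemma sh_dmp (θ : ℝ) (a : Finset ι → ℝ) (j : ι) :
    sh {j} (dmp θ a) = fun T => θ * dmp θ (sh {j} a) T := by
  funext T
  unfold sh dmp
  by_cases h : Disjoint T {j}
  · simp only [h, if_true, card_union_of_disjoint h, card_singleton]; ring
  · simp [h]

lemma nrm_smul (t : ℝ) (e : Finset ι → ℝ) : nrm (fun T => t * e T) = t ^ 2 * nrm e := by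
  unfold nrm
  rw [mul_sum]
  exact sum_congr rfl fun S _ => by ring

lemma F_smul (t : ℝ) (e : Finset ι → ℝ) (w : ι → ℝ) : F (fun T => t * e T) w = t * F e w := by
  unfold F
  rw [mul_sum]
  exact sum_congr rfl fun S _ => by ring

lemma sh_smul (t : ℝ) (e : Finset ι → ℝ) (U : Finset ι) :
    sh U (fun T => t * e T) = fun T => t * sh U e T := by
  funext T
  unfold sh
  split_ifs <;> simp

lemma inf_smul (t : ℝ) (e : Finset ι → ℝ) (i : ι) :
    inf (fun T => t * e T) i = t ^ 2 * inf e i := by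
  unfold inf
  rw [sh_smul, nrm_smul]

lemma degLe_smul {e : Finset ι → ℝ} {d : ℕ} (he : DegLe e d) (t : ℝ) :
    DegLe (fun T => t * e T) d := fun S hS => by simp [he S hS]

lemma dmp_sq_le (θ : ℝ) (hθ : |θ| ≤ 1) (e : Finset ι → ℝ) (S : Finset ι) :
    dmp θ e S ^ 2 ≤ e S ^ 2 := by
  unfold dmp
  rw [mul_pow]
  refine mul_le_of_le_one_left (sq_nonneg _) ?_
  rw [sq_le_one_iff_abs_le_one, abs_pow]
  exact pow_le_one₀ (abs_nonneg _) hθ

lemma dmp_sq_ge (θ : ℝ) (h0 : 0 ≤ θ) (h1 : θ ≤ 1) {e : Finset ι → ℝ} {d : ℕ} (he : DegLe e d)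
    (S : Finset ι) : θ ^ (2 * d) * e S ^ 2 ≤ dmp θ e S ^ 2 := by
  by_cases hS : d < S.card
  · simp [he S hS, sq_nonneg]
  · unfold dmp
    rw [mul_pow, ← pow_mul]
    exact mul_le_mul_of_nonneg_right (pow_le_pow_of_le_one h0 h1 (by omega)) (sq_nonneg _)

lemma nrm_dmp_le (θ : ℝ) (hθ : |θ| ≤ 1) (e : Finset ι → ℝ) : nrm (dmp θ e) ≤ nrm e :=
  sum_le_sum fun S _ => dmp_sq_le θ hθ e S

lemma nrm_dmp_ge (θ : ℝ) (h0 : 0 ≤ θ) (h1 : θ ≤ 1) {e : Finset ι → ℝ} {d : ℕ} (he : DegLe e d) :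
    θ ^ (2 * d) * nrm e ≤ nrm (dmp θ e) := by
  unfold nrm
  rw [mul_sum]
  exact sum_le_sum fun S _ => dmp_sq_ge θ h0 h1 he S

lemma inf_dmp_le (θ : ℝ) (hθ : |θ| ≤ 1) (e : Finset ι → ℝ) (j : ι) :
    inf (dmp θ e) j ≤ inf e j := by
  rw [inf_eq, inf_eq]
  refine sum_le_sum fun S _ => ?_
  split_ifs
  · exact dmp_sq_le θ hθ e S
  · exact le_rfl

lemma inf_dmp_ge (θ : ℝ) (h0 : 0 ≤ θ) (h1 : θ ≤ 1) {e : Finset ι → ℝ} {d : ℕ} (he : DegLe e d)
    (j : ι) : θ ^ (2 * d) * inf e j ≤ inf (dmp θ e) j := by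
  rw [inf_eq, inf_eq, mul_sum]
  refine sum_le_sum fun S _ => ?_
  split_ifs
  · exact dmp_sq_ge θ h0 h1 he S
  · simp

lemma one_le_rad {s : ℝ} (hs : 0 ≤ s) : 1 ≤ Real.sqrt (1 + s) :=
  Real.one_le_sqrt.2 (by linarith)

lemma rad_sq {s : ℝ} (hs : 0 ≤ s) : Real.sqrt (1 + s) ^ 2 = 1 + s :=
  Real.sq_sqrt (by linarith)

lemma Box.mono {s s' : ℝ} (h : s ≤ s') {a : Finset ι → ℝ} (ha : Box s' a) : Box s a :=
  fun w hw => ha w fun i => (hw i).trans (Real.sqrt_le_sqrt (by linarith))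

lemma Box.bdd {s : ℝ} (hs : 0 ≤ s) {a : Finset ι → ℝ} (ha : Box s a) : Bdd a :=
  fun w hw => ha w fun i => (hw i).trans (one_le_rad hs)

lemma box_zero {a : Finset ι → ℝ} (ha : Bdd a) : Box 0 a :=
  fun w hw => ha w fun i => by simpa using hw i

lemma Bound.mono {d : ℕ} {s s' q q' : ℝ} (h : Bound d s q) (hs : s ≤ s') (hq : q ≤ q') :
    Bound d s' q' := fun ι _ _ a ha hb H hH =>
  (h ι a ha (hb.mono hs) H hH).trans (mul_le_mul_of_nonneg_right hq (Real.sqrt_nonneg _))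

lemma F_del (Q : Finset ι) (a : Finset ι → ℝ) (w : ι → ℝ) :
    F (del Q a) w = F a fun i => if i ∈ Q then 0 else w i := by
  unfold F del
  refine sum_congr rfl fun S _ => ?_
  by_cases h : Disjoint S Q
  · rw [if_pos h]
    congr 1
    refine prod_congr rfl fun i hi => ?_
    simp [disjoint_left.1 h hi]
  · rw [if_neg h, zero_mul]
    obtain ⟨i, hi, hiQ⟩ := not_disjoint_iff.1 h
    rw [prod_eq_zero hi (by simp [hiQ]), mul_zero]

lemma Box.del {s : ℝ} {a : Finset ι → ℝ} (ha : Box s a) (Q : Finset ι) : Box s (del Q a) := by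
  intro w hw
  rw [F_del]
  refine ha _ fun i => ?_
  split_ifs
  · simp
  · exact hw i

lemma inf_del_mem (a : Finset ι → ℝ) {Q : Finset ι} {j : ι} (hj : j ∈ Q) :
    inf (del Q a) j = 0 := by
  unfold inf
  rw [sh_del, if_pos hj]
  simp [nrm]

lemma del_sq_le (Q : Finset ι) (a : Finset ι → ℝ) (S : Finset ι) : del Q a S ^ 2 ≤ a S ^ 2 := by
  unfold del
  split_ifs
  · exact le_rfl
  · simpa using sq_nonneg (a S)

lemma nrm_del_le (Q : Finset ι) (a : Finset ι → ℝ) : nrm (del Q a) ≤ nrm a :=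
  sum_le_sum fun S _ => del_sq_le Q a S

lemma inf_del_le (a : Finset ι → ℝ) (Q : Finset ι) (j : ι) : inf (del Q a) j ≤ inf a j := by
  rw [inf_eq, inf_eq]
  refine sum_le_sum fun S _ => ?_
  split_ifs
  · exact del_sq_le Q a S
  · exact le_rfl

lemma out_le' (a : Finset ι → ℝ) (Q : Finset ι) :
    ∑ S, (if Disjoint S Q then 0 else a S ^ 2) ≤ ∑ i ∈ Q, inf a i := by
  have h := out_le a Qᶜ
  have h1 : (∑ j, if j ∈ Qᶜ then 0 else inf a j) = ∑ i ∈ Q, inf a i := by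
    simp only [mem_compl, ite_not]
    rw [← sum_filter]; simp
  rw [h1] at h
  simpa only [subset_compl_iff_disjoint_right] using h

lemma nrm_del_ge (a : Finset ι → ℝ) (Q : Finset ι) :
    nrm a ≤ nrm (del Q a) + ∑ i ∈ Q, inf a i := by
  refine le_trans ?_ (add_le_add le_rfl (out_le' a Q))
  unfold nrm
  rw [← sum_add_distrib]
  refine sum_le_sum fun S _ => ?_
  unfold del
  split_ifs <;> simp

lemma tot_eq (a : Finset ι → ℝ) : tot a = ∑ S, (S.card : ℝ) * a S ^ 2 := sum_inf a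

lemma tot_nonneg (a : Finset ι → ℝ) : 0 ≤ tot a := sum_nonneg fun j _ => inf_nonneg a j

lemma psi_nonneg (a : Finset ι → ℝ) : 0 ≤ psi a := sum_nonneg fun _ _ => sq_nonneg _

lemma tot_del {a : Finset ι → ℝ} {d : ℕ} (ha : DegLe a d) (Q : Finset ι) :
    tot a ≤ tot (del Q a) + d * ∑ i ∈ Q, inf a i := by
  refine le_trans ?_
    (add_le_add le_rfl (mul_le_mul_of_nonneg_left (out_le' a Q) (Nat.cast_nonneg d)))
  rw [tot_eq, tot_eq, mul_sum, ← sum_add_distrib]
  refine sum_le_sum fun S _ => ?_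
  unfold del
  by_cases hS : d < S.card
  · simp [ha S hS]
  · have e2 : (S.card : ℝ) ≤ d := by exact_mod_cast not_lt.1 hS
    split_ifs
    · simp
    · simpa using mul_le_mul_of_nonneg_right e2 (sq_nonneg (a S))

lemma tot_eq_zero {a : Finset ι → ℝ} {H : ℝ} (hH : H ≤ 0) (h : ∀ j, inf a j ≤ H) : tot a = 0 :=
  sum_eq_zero fun j _ => le_antisymm ((h j).trans hH) (inf_nonneg a j)

lemma var_le_tot (a : Finset ι → ℝ) : var a ≤ tot a := by
  rw [tot_eq]
  refine sum_le_sum fun S _ => ?_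
  split_ifs with h
  · positivity
  · have : (1 : ℝ) ≤ S.card := by exact_mod_cast card_pos.2 (nonempty_iff_ne_empty.2 h)
    nlinarith [sq_nonneg (a S)]

lemma degLe_sh_pred {a : Finset ι → ℝ} {d : ℕ} (ha : DegLe a d) (j : ι) :
    DegLe (sh {j} a) (d - 1) := by
  intro S hS
  unfold sh
  split_ifs with h
  · apply ha
    rw [card_union_of_disjoint h, card_singleton]
    omega
  · rfl

lemma nrm_res' (i : ι) (z : ℝ) (e : Finset ι → ℝ) :
    nrm (res i z e) = nrm e + z * gam e i + (z ^ 2 - 1) * inf e i := by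
  rw [nrm_split i e]
  unfold H67.inf nrm gam res
  simp only [mul_sum, ← sum_add_distrib]
  exact sum_congr rfl fun T _ => by ring

lemma io_nonneg (e : Finset ι → ℝ) (i : ι) : 0 ≤ io e i :=
  div_nonneg (inf_nonneg e i) (nrm_nonneg e)

lemma io_le_one (e : Finset ι → ℝ) (i : ι) : io e i ≤ 1 :=
  div_le_one_of_le₀ (inf_le_nrm e i) (nrm_nonneg e)

lemma nrm_mul_io (e : Finset ι → ℝ) (i : ι) : nrm e * io e i = inf e i := by
  unfold io
  rcases (nrm_nonneg e).eq_or_lt with h | h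
  · have := inf_le_nrm e i
    rw [← h] at this ⊢
    rw [le_antisymm this (inf_nonneg e i)]
    simp
  · field_simp

lemma nrm_res_ratio (i : ι) (z : ℝ) (e : Finset ι → ℝ) :
    nrm (res i z e) = nrm e * (1 + z * dl e i + (z ^ 2 - 1) * io e i) := by
  rw [nrm_res', ← nrm_mul_dl, ← nrm_mul_io]; ring

lemma sum_io_le {e : Finset ι → ℝ} {d : ℕ} (he : DegLe e d) : ∑ i, io e i ≤ d := by
  unfold io
  rw [← sum_div]
  rcases (nrm_nonneg e).eq_or_lt with h | h
  · rw [← h]; simp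
  · rw [div_le_iff₀ h]; exact sum_inf_le e d he

lemma sum_dl_sq_le {e : Finset ι → ℝ} {d : ℕ} (he : DegLe e d) : ∑ i, dl e i ^ 2 ≤ 4 * d := by
  rcases (nrm_nonneg e).eq_or_lt with h | h
  · have : ∀ i, dl e i = 0 := fun i => by unfold dl; rw [← h]; simp
    simp only [this]
    simp
  · refine le_of_mul_le_mul_left ?_ h
    rw [mul_sum]
    refine (sum_le_sum fun i _ => dl_sq_le e i).trans ?_
    rw [← mul_sum]
    have := sum_inf_le _ d he
    nlinarith

lemma inf_sh_comm (a : Finset ι → ℝ) (i j : ι) : inf (sh {j} a) i = inf (sh {i} a) j := by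
  rw [inf_sh, inf_sh]
  by_cases hij : i = j
  · subst hij; rfl
  · have h3 : ¬ j = i := fun h => hij h.symm
    simp only [mem_singleton, hij, h3, if_false]
    congr 1
    ext k; simp only [mem_insert, mem_singleton]; tauto

lemma col_inf {a : Finset ι → ℝ} {d : ℕ} (ha : DegLe a d) (i : ι) :
    ∑ j, inf (sh {j} a) i ≤ d * inf a i := by
  simp only [fun j => inf_sh_comm a i j]
  exact sum_inf_le _ d (ha.sh {i})

lemma en_nonneg (s : ℝ) (a : Finset ι → ℝ) (j i : ι) : 0 ≤ en s a j i := by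
  unfold en; positivity

lemma sq_io_le {s : ℝ} (h0 : 0 ≤ s) (h1 : s ≤ 1) (e : Finset ι → ℝ) (i : ι) :
    s ^ 2 * io e i ^ 2 ≤ io e i := by
  have a0 := io_nonneg e i
  have a1 := io_le_one e i
  have h2 : s ^ 2 ≤ 1 := pow_le_one₀ h0 h1
  have h3 : io e i ^ 2 ≤ io e i := by nlinarith
  nlinarith [sq_nonneg (io e i)]

lemma en_row {s : ℝ} (h0 : 0 ≤ s) (h1 : s ≤ 1) {a : Finset ι → ℝ} {d : ℕ} (ha : DegLe a d)
    (j : ι) : ∑ i, en s a j i ≤ 5 * d := by
  unfold en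
  rw [sum_add_distrib]
  have e1 := row_bound ha j
  have e2 := sum_io_le (ha.sh {j})
  have e3 : ∑ i, s ^ 2 * io (sh {j} a) i ^ 2 ≤ ∑ i, io (sh {j} a) i :=
    sum_le_sum fun i _ => sq_io_le h0 h1 _ i
  linarith

lemma en_col {s : ℝ} (h0 : 0 ≤ s) (h1 : s ≤ 1) {a : Finset ι → ℝ} {d : ℕ} (ha : DegLe a d)
    (i : ι) : ∑ j, inf a j * en s a j i ≤ 5 * d * inf a i := by
  have e1 := col_bound ha i
  have e2 := col_inf ha i
  have e3 : ∑ j, inf a j * en s a j i ≤
      ∑ j, (inf a j * dl (sh {j} a) i ^ 2 + inf (sh {j} a) i) := by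
    refine sum_le_sum fun j _ => ?_
    unfold en
    rw [mul_add, ← nrm_mul_io (sh {j} a) i]
    exact add_le_add le_rfl
      (mul_le_mul_of_nonneg_left (sq_io_le h0 h1 _ i) (inf_nonneg a j))
  rw [sum_add_distrib] at e3
  linarith

lemma F_rp (B : Finset ι) (ζ : ι → ℝ) (e : Finset ι → ℝ) (w : ι → ℝ) :
    F (rp B ζ e) w = F e fun i => if i ∈ B then ζ i else w i := by
  unfold rp
  rw [F_del, ← taylor]
  congr 1
  funext i
  split_ifs <;> simp

lemma degLe_rp {e : Finset ι → ℝ} {d : ℕ} (he : DegLe e d) (B : Finset ι) (ζ : ι → ℝ) :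
    DegLe (rp B ζ e) d := (he.tc _).del B

lemma sh_rp (B : Finset ι) (ζ : ι → ℝ) (e : Finset ι → ℝ) (i : ι) :
    sh {i} (rp B ζ e) = if i ∈ B then 0 else rp B ζ (sh {i} e) := by
  unfold rp
  rw [sh_del, tc_sh_singleton]

lemma tc_zero (a : Finset ι → ℝ) : tc a (fun _ => 0) = a := by
  funext T
  unfold tc F
  rw [sum_eq_single ∅]
  · simp [sh]
  · intro S _ hS
    obtain ⟨i, hi⟩ := nonempty_iff_ne_empty.2 hS
    rw [prod_eq_zero hi rfl, mul_zero]
  · simp

/-- Coefficients are determined by the polynomial function. -/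
lemma coeff_eq_expect (c : Finset ι → ℝ) (S : Finset ι) :
    c S = 𝔼 x : ι → Bool, F c (fun i => sg (x i)) * chi S x := by
  simp only [F_sg, sum_mul, expect_sum_comm, mul_assoc, ← mul_expect, expect_chi_mul]
  simp

lemma ext_F {c c' : Finset ι → ℝ} (h : ∀ w, F c w = F c' w) : c = c' := by
  funext S
  rw [coeff_eq_expect c, coeff_eq_expect c']
  simp only [h]

lemma pv_nonneg {s : ℝ} (hs : 0 ≤ s) (k : Fin 3) : 0 ≤ pv s k := by
  fin_cases k <;> simp only [pv] <;> simp <;> positivity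

lemma pv_sum {s : ℝ} (hs : 0 ≤ s) : ∑ k, pv s k = 1 := by
  have : (1 + s) ≠ 0 := by linarith
  simp only [Fin.sum_univ_three, pv, Matrix.cons_val_zero, Matrix.cons_val_one, Matrix.cons_val]
  field_simp; ring

lemma abs_zv_le (s : ℝ) (k : Fin 3) : |zv s k| ≤ Real.sqrt (1 + s) := by
  fin_cases k <;> simp [zv, abs_of_nonneg (Real.sqrt_nonneg (1 + s))]

lemma sum_pv (s : ℝ) (φ : ℝ → ℝ) : ∑ k, pv s k * φ (zv s k) =
    (φ (Real.sqrt (1 + s)) + φ (-Real.sqrt (1 + s))) / (2 * (1 + s)) + s / (1 + s) * φ 0 := by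
  simp only [Fin.sum_univ_three, pv, zv, Matrix.cons_val_zero, Matrix.cons_val_one,
    Matrix.cons_val]
  ring

end Pool.Agent.MP_9e8696_an.H30
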