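import Mathlib
import Pool.Agent.MP_9e8696_an.H30.Basic

/-!
Disjoint blocks with large energy carry little weight.
-/

set_option linter.unusedSectionVars false

namespace Pool.Agent.MP_9e8696_an.H30

open Finset hiding inf
open H67 H8
open scoped BigOperators

section blocks

variable {ι : Type} [Fintype ι] [DecidableEq ι]

/-- The product law of the spins. -/
noncomputable def b1mu (s : ℝ) (x : ι → Fin 3) : ℝ := ∏ i, pv s (x i)

/-- The planted polynomial. -/
noncomputable def b1R (s : ℝ) (B : Finset ι) (e : Finset ι → ℝ) (x : ι → Fin 3) : Finset ι → ℝ :=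
  rp B (fun i => zv s (x i)) e

/-- The normalising weight. -/
noncomputable def b1w (s r : ℝ) (B : Finset ι) (e : Finset ι → ℝ) (x : ι → Fin 3) : ℝ :=
  if r * nrm e ≤ nrm (b1R s B e x) then Real.sqrt (r * nrm e / nrm (b1R s B e x)) else 0

/-- The normalised planted polynomial. -/
noncomputable def b1G (s r : ℝ) (B : Finset ι) (e : Finset ι → ℝ) (x : ι → Fin 3) :
    Finset ι → ℝ := fun T => b1w s r B e x * b1R s B e x T

lemma b1mu_nonneg {s : ℝ} (hs : 0 ≤ s) (x : ι → Fin 3) : 0 ≤ b1mu s x :=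
  prod_nonneg fun i _ => pv_nonneg hs (x i)

lemma b1mu_sum {s : ℝ} (hs : 0 ≤ s) : ∑ x : ι → Fin 3, b1mu s x = 1 := by
  have h := Ep_prod (fun _ : ι => pv s) (fun _ _ => (1 : ℝ))
  simpa [pv_sum hs, b1mu] using h

lemma b1w_abs {s r : ℝ} (B : Finset ι) (e : Finset ι → ℝ) (x : ι → Fin 3) :
    |b1w s r B e x| ≤ 1 := by
  unfold b1w
  split_ifs with h
  · rw [abs_of_nonneg (Real.sqrt_nonneg _)]
    exact Real.sqrt_le_one.2 (div_le_one_of_le₀ h (nrm_nonneg _))
  · simp

lemma b1w_sq {s r : ℝ} (hr : 0 < r) (B : Finset ι) {e : Finset ι → ℝ} (he : 0 < nrm e)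
    (x : ι → Fin 3) : b1w s r B e x ^ 2 * nrm (b1R s B e x) =
      if r * nrm e ≤ nrm (b1R s B e x) then r * nrm e else 0 := by
  unfold b1w
  split_ifs with h
  · have h0 : 0 < nrm (b1R s B e x) := lt_of_lt_of_le (mul_pos hr he) h
    rw [Real.sq_sqrt (by positivity)]
    field_simp
  · simp

lemma b1G_nrm {s r : ℝ} (hr : 0 < r) (B : Finset ι) {e : Finset ι → ℝ} (he : 0 < nrm e)
    (x : ι → Fin 3) : nrm (b1G s r B e x) =
      if r * nrm e ≤ nrm (b1R s B e x) then r * nrm e else 0 := by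
  unfold b1G
  rw [nrm_smul, b1w_sq hr B he]

lemma b1G_nrm_le {s r : ℝ} (hr : 0 < r) (B : Finset ι) {e : Finset ι → ℝ} (he : 0 < nrm e)
    (x : ι → Fin 3) : nrm (b1G s r B e x) ≤ r * nrm e := by
  rw [b1G_nrm hr B he]
  split_ifs
  · exact le_rfl
  · positivity

lemma b1_lev {s r : ℝ} (hr : 0 < r) (B : Finset ι) {e : Finset ι → ℝ} (he : 0 < nrm e) :
    ∑ x, b1mu s x * (nrm (b1R s B e x) / nrm e) * nrm (b1G s r B e x) =
      r * Ep (fun _ : ι => pv s) (fun x =>
        if r * nrm e ≤ nrm (rp B (fun i => zv s (x i)) e)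
          then nrm (rp B (fun i => zv s (x i)) e) else 0) := by
  unfold Ep
  rw [mul_sum]
  refine sum_congr rfl fun x _ => ?_
  rw [b1G_nrm hr B he]
  unfold b1R b1mu
  by_cases h : r * nrm e ≤ nrm (rp B (fun i => zv s (x i)) e)
  · simp only [h, if_true]
    field_simp
  · simp [h]

lemma b1_col (hA : MargA) {s r : ℝ} (hs : 0 ≤ s) (hr : 0 < r) (B : Finset ι) {e : Finset ι → ℝ}
    (he : 0 < nrm e) (i : ι) :
    ∑ x, b1mu s x * (nrm (b1R s B e x) / nrm e) * inf (b1G s r B e x) i ≤ r * inf e i := by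
  have h1 : ∀ x, b1mu s x * (nrm (b1R s B e x) / nrm e) * inf (b1G s r B e x) i ≤
      r * (b1mu s x * nrm (b1R s B (sh {i} e) x)) := by
    intro x
    have h2 : inf (b1R s B e x) i ≤ nrm (b1R s B (sh {i} e) x) := by
      unfold H67.inf b1R
      rw [sh_rp]
      split_ifs
      · simpa [nrm] using nrm_nonneg (rp B (fun i => zv s (x i)) (sh {i} e))
      · exact le_rfl
    have h3 : b1w s r B e x ^ 2 * nrm (b1R s B e x) / nrm e ≤ r := by
      rw [b1w_sq hr B he, div_le_iff₀ he]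
      split_ifs
      · exact le_rfl
      · positivity
    unfold b1G
    rw [inf_smul]
    have h4 := mul_le_mul h3 h2 (inf_nonneg _ _) hr.le
    have h5 := mul_le_mul_of_nonneg_left h4 (b1mu_nonneg hs x)
    refine le_trans (le_of_eq ?_) (h5.trans (le_of_eq ?_)) <;> ring
  refine (sum_le_sum fun x _ => h1 x).trans (le_of_eq ?_)
  rw [← mul_sum]
  congr 1
  exact hA ι s B (sh {i} e) hs

end blocks

theorem big1 (hS : SumG) (hP : Plant) (hA : MargA) (hG : Gain) (hL : Sel) : Big1 := by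
  intro d s q l p hd hs hs1 hq hl hp hB ι _ _ a ha hb H hH hi J B hjB hdis hcard hen
  have hd' : (1 : ℝ) ≤ d := by exact_mod_cast hd
  have hp0 : 0 < p := by linarith
  set E := Real.exp (l / 128) with hE
  have hE0 : 0 < E := Real.exp_pos _
  have hE2 : Real.exp (l / 64) = E ^ 2 := by
    rw [hE, ← Real.exp_nat_mul]; congr 1; push_cast; ring
  set r := Real.exp (l / 64) / (2 * p) with hr
  have hr0 : 0 < r := by positivity
  set τ := (2 * d * E) ^ 2 * H with hτ
  have hτ0 : 0 < τ := by positivity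
  have hτr : τ = 8 * d ^ 2 * p * (r * H) := by rw [hτ, hr, hE2]; field_simp; ring
  have hm : ∀ j ∈ J, 0 < nrm (sh {j} a) := by
    intro j hj
    rcases (nrm_nonneg (sh {j} a)).eq_or_lt with h | h
    · have h1 := hen j hj
      have h2 : ∑ i ∈ B j, en s a j i = 0 := sum_eq_zero fun i _ => by
        unfold en dl io; rw [← h]; simp
      linarith
    · exact h
  set ν : ι → (ι → Fin 3) → ℝ := fun j x =>
    if j ∈ J then b1mu s x * (nrm (b1R s (B j) (sh {j} a) x) / nrm (sh {j} a)) else b1mu s x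
    with hν
  obtain ⟨ω, hω⟩ := hL ι (ι → Fin 3) J ν (fun j x => nrm (b1G s r (B j) (sh {j} a) x))
    (fun j x i => inf (b1G s r (B j) (sh {j} a) x) i) (2 / τ) (by positivity)
    (fun j x => by
      simp only [hν]
      split_ifs
      · exact mul_nonneg (b1mu_nonneg hs x) (div_nonneg (nrm_nonneg _) (nrm_nonneg _))
      · exact b1mu_nonneg hs x)
    (fun j => by
      simp only [hν]
      split_ifs with hj
      · simp only [← mul_div_assoc]
        rw [← sum_div, div_eq_one_iff_eq (hm j hj).ne']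
        exact hA ι s (B j) (sh {j} a) hs
      · exact b1mu_sum hs)
    (fun j x i => inf_nonneg _ _)
  set g : ι → Finset ι → ℝ := fun j => b1G s r (B j) (sh {j} a) (ω j) with hg
  set M := ∑ j ∈ J, inf a j with hM
  have hM0 : 0 ≤ M := sum_nonneg fun j _ => inf_nonneg a j
  have hgd : ∀ j, DegLe (g j) (d - 1) := fun j =>
    degLe_smul (degLe_rp (degLe_sh_pred ha j) _ _) _
  have hgn : ∀ j ∈ J, nrm (g j) ≤ r * H := fun j hj =>
    (b1G_nrm_le hr0 _ (hm j hj) _).trans (mul_le_mul_of_nonneg_left (hi j) hr0.le)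
  have hrH : 0 < r * H := by positivity
  have hrτ : 2 * d * (r * H) ≤ τ := by
    rw [hτr]
    refine mul_le_mul_of_nonneg_right ?_ hrH.le
    nlinarith [mul_le_mul hd' hp zero_le_one (by linarith)]
  have hF : Fam J g (Real.sqrt (1 + s)) (Real.sqrt (1 + s)) (2 * (d : ℝ) ^ 2) := by
    intro σ w hσ hw
    have h1 := hP ι d s a hd hs ha hb J B (fun j i => zv s (ω j i)) hjB hdis
      (fun j i => abs_zv_le s _) (fun j => σ j * b1w s r (B j) (sh {j} a) (ω j)) w
      (fun j => by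
        rw [abs_mul]
        exact (mul_le_of_le_one_right (abs_nonneg _) (b1w_abs _ _ _)).trans (hσ j)) hw
    refine le_trans (le_of_eq ?_) h1
    congr 1
    refine sum_congr rfl fun j _ => ?_
    simp only [hg]
    unfold b1G
    rw [F_smul, mul_assoc]
    rfl
  have h1 := hS d s q hd hs hq hB ι J g (2 * (d : ℝ) ^ 2) τ (by positivity) hτ0
    (fun j _ => hgd j) hF (fun j hj => (hgn j hj).trans (by nlinarith))
  have h2 : (∑ i, if τ < ∑ j ∈ J, inf (g j) i then ∑ j ∈ J, inf (g j) i else 0) ≤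
      (∑ i, (∑ j ∈ J, inf (g j) i) ^ 2) / τ := by
    rw [sum_div]
    refine sum_le_sum fun i _ => ?_
    split_ifs with h
    · rw [le_div_iff₀ hτ0]; nlinarith
    · positivity
  have h3 : ∑ i, ∑ j ∈ J, inf (g j) i ^ 2 ≤ τ / 2 * ∑ j ∈ J, nrm (g j) := by
    rw [sum_comm, mul_sum]
    refine sum_le_sum fun j hj => ?_
    have e1 : ∑ i, inf (g j) i ^ 2 ≤ ∑ i, r * H * inf (g j) i := sum_le_sum fun i _ => by
      have := (inf_le_nrm (g j) i).trans (hgn j hj)
      nlinarith [inf_nonneg (g j) i]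
    rw [← mul_sum] at e1
    have e2 := sum_inf_le (g j) d ((hgd j).mono (Nat.sub_le d 1))
    have e3 := mul_le_mul_of_nonneg_left e2 hrH.le
    have e4 := mul_le_mul_of_nonneg_right hrτ (nrm_nonneg (g j))
    nlinarith
  have h4 : r * M / (2 * p) ≤
      ∑ j ∈ J, ∑ x, ν j x * nrm (b1G s r (B j) (sh {j} a) x) := by
    rw [hM, mul_sum, sum_div]
    refine sum_le_sum fun j hj => ?_
    simp only [hν, hj, if_true]
    rw [b1_lev hr0 _ (hm j hj), mul_div_assoc]
    exact mul_le_mul_of_nonneg_left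
      (hG ι s l p (B j) (sh {j} a) hs hs1 hl hp (hcard j hj) (hen j hj)) hr0.le
  have h5 : ∑ i, (∑ j ∈ J, ∑ x, ν j x * inf (b1G s r (B j) (sh {j} a) x) i) ^ 2 ≤
      r ^ 2 * (d * H) * (d * M) := by
    have e1 : ∀ i, (∑ j ∈ J, ∑ x, ν j x * inf (b1G s r (B j) (sh {j} a) x) i) ^ 2 ≤
        r ^ 2 * (d * H) * ∑ j ∈ J, inf (sh {j} a) i := by
      intro i
      have f1 : ∑ j ∈ J, ∑ x, ν j x * inf (b1G s r (B j) (sh {j} a) x) i ≤
          r * ∑ j ∈ J, inf (sh {j} a) i := by
        rw [mul_sum]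
        refine sum_le_sum fun j hj => ?_
        simp only [hν, hj, if_true]
        exact b1_col hA hs hr0 _ (hm j hj) i
      have f0 : 0 ≤ ∑ j ∈ J, ∑ x, ν j x * inf (b1G s r (B j) (sh {j} a) x) i := by
        refine sum_nonneg fun j hj => sum_nonneg fun x _ => mul_nonneg ?_ (inf_nonneg _ _)
        simp only [hν, hj, if_true]
        exact mul_nonneg (b1mu_nonneg hs x) (div_nonneg (nrm_nonneg _) (nrm_nonneg _))
      have f2 : ∑ j ∈ J, inf (sh {j} a) i ≤ d * H :=
        (sum_le_sum_of_subset_of_nonneg (subset_univ J) fun j _ _ => inf_nonneg _ _).trans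
          ((col_inf ha i).trans (mul_le_mul_of_nonneg_left (hi i) (by linarith)))
      have f3 : 0 ≤ ∑ j ∈ J, inf (sh {j} a) i := sum_nonneg fun j _ => inf_nonneg _ _
      refine (pow_le_pow_left₀ f0 f1 2).trans ?_
      rw [mul_pow, mul_assoc, sq (∑ j ∈ J, inf (sh {j} a) i)]
      exact mul_le_mul_of_nonneg_left (mul_le_mul_of_nonneg_right f2 f3) (sq_nonneg r)
    refine (sum_le_sum fun i _ => e1 i).trans ?_
    rw [← mul_sum, sum_comm, hM, mul_sum J _ (d : ℝ)]
    exact mul_le_mul_of_nonneg_left (sum_le_sum fun j _ => sum_inf_le _ d (ha.sh {j}))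
      (by positivity)
  have h6 : 2 / τ * (r ^ 2 * (d * H) * (d * M)) = r * M / (4 * p) := by
    rw [hτr]; field_simp; ring
  have h7 := mul_le_mul_of_nonneg_left h5 (by positivity : 0 ≤ 2 / τ)
  rw [h6] at h7
  rw [sum_sub_distrib] at hω
  have h8 := mul_le_mul_of_nonneg_left h3 (by positivity : 0 ≤ 2 / τ)
  have h9 : 2 / τ * (τ / 2 * ∑ j ∈ J, nrm (g j)) = ∑ j ∈ J, nrm (g j) := by field_simp
  rw [h9] at h8
  have h10 : 2 / τ * ∑ i, (∑ j ∈ J, inf (g j) i) ^ 2 =
      2 * ((∑ i, (∑ j ∈ J, inf (g j) i) ^ 2) / τ) := by ring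
  have h11 : r * M / (2 * p) = 2 * (r * M / (4 * p)) := by field_simp; ring
  have h12 : r * M / (4 * p) ≤ 4 * (d : ℝ) ^ 2 * q * Real.sqrt τ := by
    rw [mul_sub, h10] at hω
    simp only [hg] at h1 h2 h8 hω
    linarith
  have h13 : Real.sqrt τ = 2 * d * E * Real.sqrt H := by
    rw [hτ, Real.sqrt_mul (sq_nonneg _), Real.sqrt_sq (by positivity)]
  rw [h13, hr, hE2, div_le_iff₀ (by positivity)] at h12
  rw [Real.exp_neg, ← hE]
  have h14 : M = (E ^ 2 / (2 * p) * M) * (2 * p / E ^ 2) := by field_simp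
  rw [h14]
  refine (mul_le_mul_of_nonneg_right h12 (by positivity)).trans (le_of_eq ?_)
  field_simp
  ring

end Pool.Agent.MP_9e8696_an.H30
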