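import Pool.Agent.MP_9e8696_an.H30.Basic

/-! The bilinear form of the bound. -/

namespace Pool.Agent.MP_9e8696_an.H30

open Finset hiding inf
open H67 H8
open scoped BigOperators

namespace BilinA

variable {ι : Type} [Fintype ι] [DecidableEq ι]

lemma pick (b c : Finset ι → ℝ) {l H : ℝ} (hl : 0 < l) (hc : ∀ j, inf c j ≤ H) :
    ∃ Q : Finset ι, (∀ j, l ^ 2 * inf (del Q b) j ≤ H) ∧
      ∑ S, (if Disjoint S Q then 0 else |c S| * |b S|) ≤ l * var b := by
  obtain ⟨Q, -, hQ⟩ := exists_max_image univ (fun Q : Finset ι =>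
    ∑ S, if Disjoint S Q then 0 else l * b S ^ 2 - |c S| * |b S|) univ_nonempty
  refine ⟨Q, fun j => ?_, ?_⟩
  · have h := mul_le_mul_of_nonneg_left (hQ (insert j Q) (mem_univ _)) (mul_pos two_pos hl).le
    have k : l ^ 2 * inf (del Q b) j + 2 * l * ∑ S, (if Disjoint S Q then 0 else
        l * b S ^ 2 - |c S| * |b S|) ≤ inf c j + 2 * l * ∑ S, (if Disjoint S (insert j Q) then 0
          else l * b S ^ 2 - |c S| * |b S|) := by
      rw [inf_eq, inf_eq, mul_sum, mul_sum, mul_sum, ← sum_add_distrib, ← sum_add_distrib]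
      refine sum_le_sum fun S _ => ?_
      by_cases h1 : j ∈ S <;> by_cases h2 : Disjoint S Q <;>
        simp only [del, disjoint_insert_right, h1, h2, if_true, if_false, not_true, not_false_iff,
          false_and, true_and] <;>
        nlinarith [sq_nonneg (|c S| - l * |b S|), sq_abs (c S), sq_abs (b S), sq_nonneg (c S)]
    linarith [hc j]
  · have h := hQ ∅ (mem_univ _)
    simp only [disjoint_empty_right, if_true, sum_const_zero] at h
    refine le_trans (le_add_of_nonneg_right h) ?_
    rw [var, mul_sum, ← sum_add_distrib]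
    refine sum_le_sum fun S _ => ?_
    by_cases h1 : S = ∅
    · simp [h1]
    · rw [if_neg h1]
      split_ifs
      · rw [add_zero]
        positivity
      · linarith

end BilinA

open BilinA in
theorem bilin : Bilin := by
  intro d s q _ hq hB ι _ _ m
  induction m with
  | zero =>
    intro b c H _ hd hb hc _ h2
    simp only [pow_zero, one_mul, Nat.cast_zero, mul_zero, zero_add] at h2 ⊢
    refine le_trans (sum_le_sum fun S _ => ?_) ((var_le_tot b).trans (hB ι b hd hb H h2))
    split_ifs
    · exact le_rfl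
    · rw [← sq_abs, sq]
      exact mul_le_mul_of_nonneg_right (hc S) (abs_nonneg _)
  | succ m ih =>
    intro b c H h0 hd hb hc h1 h2
    have p : (0 : ℝ) < 2 ^ m := by positivity
    have e : ∀ k : ℕ, (4 : ℝ) ^ k = (2 ^ k) ^ 2 := fun k => by
      rw [← pow_mul, mul_comm, pow_mul]
      norm_num
    obtain ⟨Q, q1, q2⟩ := pick b c (inv_pos.2 p) h1
    have k1 := ih (del Q b) (del Q c) H h0 (hd.del Q) (hb.del Q)
      (fun S => by
        unfold del
        split_ifs
        exacts [hc S, le_rfl])
      (fun j => (inf_del_le c Q j).trans (h1 j))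
      fun j => by rw [e, ← inv_mul_le_iff₀ (by positivity), ← inv_pow]; exact q1 j
    have k2 := q2.trans (mul_le_mul_of_nonneg_left
      ((var_le_tot b).trans (hB ι b hd hb _ h2)) (inv_pos.2 p).le)
    rw [e, Real.sqrt_mul (sq_nonneg _), Real.sqrt_sq (by positivity),
      show (2 ^ m)⁻¹ * (q * (2 ^ (m + 1) * √H)) = 2 * q * √H by field_simp; ring] at k2
    refine le_trans ?_ ((add_le_add k1 k2).trans_eq (by push_cast; ring))
    rw [← sum_add_distrib]
    refine sum_le_sum fun S _ => ?_
    unfold del
    by_cases h : S = ∅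
    · simp [h]
    · split_ifs <;> simp

end Pool.Agent.MP_9e8696_an.H30
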