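import Mathlib
import Pool.Agent.MP_9e8696_an.H30.Basic

/-!
From the coefficient form to functions on the cube.
-/

namespace Pool.Agent.MP_9e8696_an.H30

open Finset hiding inf
open H67 H8
open scoped BigOperators

lemma cube_of_bound {d : ℕ} {Q : ℝ} (hQ : 0 ≤ Q) (hB : Bound d 0 Q) {ι : Type} [Fintype ι]
    [DecidableEq ι] [Nonempty ι] (f : (ι → Bool) → ℝ) (M : ℝ) (hf : ∀ x, |f x| ≤ M)
    (hdeg : DegLe (fc f) d) : ∃ j, var (fc f) ≤ M * Q * Real.sqrt (inf (fc f) j) := by
  obtain ⟨j, -, hj⟩ := exists_max_image univ (fun j => inf (fc f) j) univ_nonempty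
  refine ⟨j, (var_le_tot _).trans ?_⟩
  have hM0 : 0 ≤ M := (abs_nonneg _).trans (hf fun _ => false)
  rcases hM0.eq_or_lt with h0 | hM
  · have hz : fc f = fun T => 0 * fc f T := by
      funext S
      have : ∀ x, f x = 0 := fun x => abs_nonpos_iff.1 (h0 ▸ hf x)
      simp [fc, this]
    have : tot (fc f) = 0 := by
      refine sum_eq_zero fun i _ => ?_
      rw [hz, inf_smul]; simp
    rw [this]; positivity
  · have e : fc (fun x => f x / M) = fun T => 1 / M * fc f T := by
      funext S
      unfold fc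
      rw [mul_expect]
      exact expect_congr rfl fun x _ => by ring
    have hb : Bdd (fc fun x => f x / M) := bdd_fc _ fun x => by
      rw [abs_div, abs_of_pos hM, div_le_one hM]; exact hf x
    rw [e] at hb
    have h := hB ι _ (degLe_smul hdeg (1 / M)) (box_zero hb) ((1 / M) ^ 2 * inf (fc f) j)
      fun i => by
        rw [inf_smul]
        exact mul_le_mul_of_nonneg_left (hj i (mem_univ i)) (sq_nonneg _)
    have e2 : tot (fun T => 1 / M * fc f T) = (1 / M) ^ 2 * tot (fc f) := by
      unfold tot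
      simp only [inf_smul]
      rw [mul_sum]
    rw [e2, Real.sqrt_mul (sq_nonneg _), Real.sqrt_sq (by positivity)] at h
    have h2 := mul_le_mul_of_nonneg_left h (sq_nonneg M)
    refine le_trans (le_of_eq ?_) (h2.trans (le_of_eq ?_)) <;> field_simp

end Pool.Agent.MP_9e8696_an.H30
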