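import Mathlib
import Pool.Agent.MP_9e8696_an.H30.Basic

/-!
One directional derivative with a direction that depends on the member of the family.
-/

namespace Pool.Agent.MP_9e8696_an.H30

open Finset hiding inf
open H67 H8
open scoped BigOperators

variable {ι : Type*} [Fintype ι] [DecidableEq ι]

/-- The Riesz product. -/
noncomputable def riesz (J : Finset ι) (c : ι → ℝ) (x : ι → Bool) : ℂ :=
  ∏ m ∈ J, (1 + Complex.I * ((c m * sg (x m) : ℝ) : ℂ))

omit [Fintype ι] [DecidableEq ι] in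
lemma riesz_norm (J : Finset ι) (c : ι → ℝ) (hc : ∑ m ∈ J, c m ^ 2 ≤ 1) (x : ι → Bool) :
    ‖riesz J c x‖ ≤ 2 := by
  unfold riesz
  have h1 : ∀ m ∈ J, ‖(1 + Complex.I * ((c m * sg (x m) : ℝ) : ℂ))‖ ≤ Real.exp (c m ^ 2 / 2) := by
    intro m _
    have hs : sg (x m) ^ 2 = 1 := by rw [← sq_abs, abs_sg]; norm_num
    have h2 : ‖(1 + Complex.I * ((c m * sg (x m) : ℝ) : ℂ))‖ ^ 2 = 1 + c m ^ 2 := by
      rw [Complex.sq_norm, Complex.normSq_apply]
      simp only [Complex.add_re, Complex.one_re, Complex.mul_re, Complex.I_re, Complex.ofReal_re,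
        Complex.I_im, Complex.ofReal_im, Complex.add_im, Complex.one_im, Complex.mul_im]
      nlinarith [hs]
    have h3 : Real.exp (c m ^ 2 / 2) ^ 2 = Real.exp (c m ^ 2) := by
      rw [← Real.exp_nat_mul]; congr 1; push_cast; ring
    refine abs_le_of_sq_le_sq' ?_ (Real.exp_pos _).le |>.2
    rw [h2, h3]
    linarith [Real.add_one_le_exp (c m ^ 2)]
  calc ‖∏ m ∈ J, (1 + Complex.I * ((c m * sg (x m) : ℝ) : ℂ))‖
      = ∏ m ∈ J, ‖(1 + Complex.I * ((c m * sg (x m) : ℝ) : ℂ))‖ := norm_prod _ _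
    _ ≤ ∏ m ∈ J, Real.exp (c m ^ 2 / 2) := prod_le_prod (fun _ _ => norm_nonneg _) h1
    _ = Real.exp (∑ m ∈ J, c m ^ 2 / 2) := (Real.exp_sum _ _).symm
    _ ≤ Real.exp (1 / 2) := by
        refine Real.exp_le_exp.2 ?_
        rw [← sum_div]; linarith
    _ ≤ 2 := by
        have h4 : Real.exp (1 / 2) ^ 2 = Real.exp 1 := by
          rw [← Real.exp_nat_mul]; norm_num
        refine (abs_le_of_sq_le_sq' ?_ (by norm_num)).2
        rw [h4]
        linarith [Real.exp_one_lt_d9]

lemma riesz_sum (J : Finset ι) (c : ι → ℝ) {j : ι} (hj : j ∈ J) :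
    ∑ x : ι → Bool, sg (x j) * (riesz J c x).im = 2 ^ Fintype.card ι * c j := by
  set f : ι → Bool → ℂ := fun m β => (if m = j then ((sg β : ℝ) : ℂ) else 1) *
    (if m ∈ J then 1 + Complex.I * ((c m * sg β : ℝ) : ℂ) else 1) with hf
  have h1 : ∀ x : ι → Bool, ((sg (x j) : ℝ) : ℂ) * riesz J c x = ∏ m, f m (x m) := by
    intro x
    simp only [hf, prod_mul_distrib, prod_ite_eq', mem_univ, if_true]
    congr 1
    unfold riesz
    rw [← prod_filter, filter_mem_eq_inter, univ_inter]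
  have h2 : ∀ m, ∑ β, f m β = 2 * (if m = j then Complex.I * (c j : ℂ) else 1) := by
    intro m
    by_cases hm : m = j
    · subst hm
      simp [hf, hj, sg]
      ring
    · by_cases hJ : m ∈ J
      · simp [hf, hm, hJ, sg]
        ring
      · simp [hf, hm, hJ]
  have h3 : ∑ x : ι → Bool, ((sg (x j) : ℝ) : ℂ) * riesz J c x =
      2 ^ Fintype.card ι * (Complex.I * (c j : ℂ)) := by
    simp only [h1]
    rw [← Fintype.piFinset_univ, ← prod_univ_sum]
    simp only [h2, prod_mul_distrib, prod_const, card_univ, prod_ite_eq', mem_univ, if_true]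
  have h4 := congrArg Complex.im h3
  rw [Complex.im_sum] at h4
  simp only [Complex.im_ofReal_mul] at h4
  rw [h4]
  have h5 : ((2 : ℂ) ^ Fintype.card ι) = (((2 : ℝ) ^ Fintype.card ι : ℝ) : ℂ) := by push_cast; rfl
  rw [h5, Complex.im_ofReal_mul]
  simp

theorem dirStep : DirStep := by
  intro ι _ _ d J g b r ρ η γ K hη hγ hK hg hcol hF σ w hσ hw
  set Y : ι → (ι → Bool) → ℝ := fun i x => (riesz J (fun m => b m i / γ) x).im with hY
  have hY2 : ∀ i x, |Y i x| ≤ 2 := by
    intro i x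
    refine (Complex.abs_im_le_norm _).trans (riesz_norm J _ ?_ x)
    simp only [div_pow]
    rw [← sum_div, div_le_one (by positivity)]
    exact hcol i
  have hYs : ∀ i, ∀ j ∈ J, ∑ x : ι → Bool, sg (x j) * Y i x = 2 ^ Fintype.card ι * (b j i / γ) :=
    fun i j hj => riesz_sum J (fun m => b m i / γ) hj
  have key : ∀ x : ι → Bool,
      |∑ i, (∑ j ∈ J, σ j * sg (x j) * tc (g j) w {i}) * (η / 2 * Y i x)| ≤
        K * (2 * (d : ℝ) ^ 2) := by
    intro x
    set τ : ι → ℝ := fun j => if j ∈ J then σ j * sg (x j) else 0 with hτ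
    have hsum : ∀ φ : ι → ℝ, ∑ j, τ j * φ j = ∑ j ∈ J, σ j * sg (x j) * φ j := by
      intro φ
      simp only [hτ, ite_mul, zero_mul]
      rw [← sum_filter, filter_mem_eq_inter, univ_inter]
    set e : Finset ι → ℝ := fun R => ∑ j, τ j * g j R with he
    have hde : DegLe e d := by
      intro S hS
      simp only [he, hsum]
      exact sum_eq_zero fun j hj => by rw [hg j hj S hS, mul_zero]
    have h1 := extract (tc e w) d (hde.tc w) (fun i => η / 2 * Y i x) K hK (by
      intro u hu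
      rw [← taylor, he, F_sum, hsum]
      refine hF _ _ (fun j => ?_) (fun i => ?_)
      · rw [abs_mul, abs_sg, mul_one]; exact hσ j
      · refine (abs_add_le _ _).trans (add_le_add (hw i) ?_)
        rw [abs_mul, abs_mul, abs_of_nonneg hu.1, abs_of_pos (by positivity : 0 < η / 2)]
        have := hY2 i x
        have h3 : η / 2 * |Y i x| ≤ η := by nlinarith
        have h4 : 0 ≤ η / 2 * |Y i x| := by positivity
        nlinarith [hu.2]) 1
    rw [sum_card_one (fun S => tc e w S * ∏ i ∈ S, (η / 2 * Y i x)), pow_one] at h1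
    have h8 : ∀ i, tc e w {i} = ∑ j ∈ J, σ j * sg (x j) * tc (g j) w {i} := by
      intro i
      rw [he, tc_sum, hsum]
    simp only [prod_singleton, h8] at h1
    exact h1
  have hN : (0 : ℝ) < 2 ^ Fintype.card ι := by positivity
  have h2 : ∑ x : ι → Bool, ∑ i, (∑ j ∈ J, σ j * sg (x j) * tc (g j) w {i}) * (η / 2 * Y i x) =
      2 ^ Fintype.card ι * (η / (2 * γ) * ∑ j ∈ J, σ j * F (dir (b j) (g j)) w) := by
    have h3 : ∀ j, F (dir (b j) (g j)) w = ∑ i, b j i * tc (g j) w {i} := fun j =>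
      F_sum (b j) (fun i => sh {i} (g j)) w
    simp only [h3, sum_mul, mul_sum]
    rw [sum_comm]
    conv_rhs => rw [sum_comm]
    refine sum_congr rfl fun i _ => ?_
    rw [sum_comm]
    refine sum_congr rfl fun j hj => ?_
    have h4 : ∀ x : ι → Bool, σ j * sg (x j) * tc (g j) w {i} * (η / 2 * Y i x) =
        σ j * tc (g j) w {i} * (η / 2) * (sg (x j) * Y i x) := fun x => by ring
    simp only [h4]
    rw [← mul_sum, hYs i j hj]
    field_simp
  have h5 : |∑ x : ι → Bool, ∑ i, (∑ j ∈ J, σ j * sg (x j) * tc (g j) w {i}) * (η / 2 * Y i x)| ≤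
      2 ^ Fintype.card ι * (K * (2 * (d : ℝ) ^ 2)) := by
    refine (abs_sum_le_sum_abs _ _).trans ((sum_le_sum fun x _ => key x).trans ?_)
    simp
  rw [h2, abs_mul, abs_of_pos hN, abs_mul, abs_of_pos (by positivity : 0 < η / (2 * γ))] at h5
  have h6 := le_of_mul_le_mul_left h5 hN
  have h7 : K * (4 * (d : ℝ) ^ 2 * γ / η) = K * (2 * (d : ℝ) ^ 2) / (η / (2 * γ)) := by
    field_simp
    ring
  rw [h7, le_div_iff₀ (by positivity), mul_comm]
  exact h6

end Pool.Agent.MP_9e8696_an.H30
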