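import Pool.Agent.MP_9e8696_an.H30.Basic

/-!
The low levels, the a priori bound and the end of the chain of phases.
-/

namespace Pool.Agent.MP_9e8696_an.H30

open Finset hiding inf
open H67 H8
open scoped BigOperators

theorem low : Low := by
  intro ι _ _ d k a hd ha hb H hH
  have hd' : (1 : ℝ) ≤ d := by exact_mod_cast hd
  have hA : (1 : ℝ) ≤ 64 * (d : ℝ) ^ 3 := by
    have := one_le_pow₀ (n := 3) hd'
    linarith
  have h1 : ∀ S : Finset ι, (if S.card ≤ k then (S.card : ℝ) * a S ^ 2 else 0) ≤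
      ∑ r ∈ range k, (S.card : ℝ) * lev (r + 1) a S ^ 2 := by
    intro S
    have hn : ∀ r ∈ range k, 0 ≤ (S.card : ℝ) * lev (r + 1) a S ^ 2 := fun r _ => by positivity
    split_ifs with h
    · rcases Nat.eq_zero_or_pos S.card with h0 | h0
      · rw [h0]
        simp
      · have hm : S.card - 1 ∈ range k := mem_range.2 (by omega)
        refine le_trans (le_of_eq ?_) (single_le_sum hn hm)
        have e : S.card = S.card - 1 + 1 := by omega
        unfold lev
        rw [if_pos e]
    · exact sum_nonneg hn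
  have h2 : ∀ r ∈ range k, ∑ S : Finset ι, (S.card : ℝ) * lev (r + 1) a S ^ 2 ≤
      (64 * (d : ℝ) ^ 3) ^ k * Real.sqrt H := by
    intro r hr
    rw [← sum_inf]
    have h3 : ∀ j, inf (lev (r + 1) a) j ≤
        Real.sqrt (inf (lev (r + 1) a) j) * Real.sqrt H := by
      intro j
      have h4 : inf (lev (r + 1) a) j ≤ inf a j := by
        rw [inf_eq, inf_eq]
        refine sum_le_sum fun S _ => ?_
        unfold lev
        split_ifs
        · exact le_rfl
        · simpa using sq_nonneg (a S)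
        · exact le_rfl
      calc inf (lev (r + 1) a) j
          = Real.sqrt (inf (lev (r + 1) a) j) * Real.sqrt (inf (lev (r + 1) a) j) :=
            (Real.mul_self_sqrt (inf_nonneg _ j)).symm
        _ ≤ _ := mul_le_mul_of_nonneg_left (Real.sqrt_le_sqrt (h4.trans (hH j)))
            (Real.sqrt_nonneg _)
    refine (sum_le_sum fun j _ => h3 j).trans ?_
    rw [← sum_mul]
    refine mul_le_mul_of_nonneg_right ?_ (Real.sqrt_nonneg _)
    have h5 := littlewood hd ha hb (fun _ => 0) (fun _ => by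
      have : 1 / (2 * (d : ℝ)) ≤ 1 := by
        rw [div_le_one (by linarith)]
        linarith
      rw [abs_zero]
      linarith) r
    rw [tc_zero] at h5
    exact h5.trans (pow_le_pow_right₀ hA (by have := mem_range.1 hr; omega))
  refine (sum_le_sum fun S _ => h1 S).trans ?_
  rw [sum_comm]
  refine (sum_le_sum h2).trans (le_of_eq ?_)
  rw [sum_const, card_range, nsmul_eq_mul, mul_assoc]

theorem prior (d : ℕ) (s : ℝ) (hd : 1 ≤ d) (hs : 0 ≤ s) :
    Bound d s (d * (64 * (d : ℝ) ^ 3) ^ d) := by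
  intro ι _ _ a ha hb H hH
  refine le_trans (le_of_eq ?_) (low ι d d a hd ha (hb.bdd hs) H hH)
  rw [tot_eq]
  refine sum_congr rfl fun S _ => ?_
  split_ifs with h
  · rfl
  · simp [ha S (not_le.1 h)]

theorem endG (hB : Bilin) : EndG := by
  intro d k q hd hq hbd ι _ _ a ha hb H hH
  rcases le_or_gt H 0 with h0 | h0
  · rw [tot_eq_zero h0 hH]
    positivity
  obtain ⟨θ, hθ0, hθ2⟩ : ∃ θ : ℝ, 0 < θ ∧ θ ^ 2 = 5 / 6 :=
    ⟨Real.sqrt (5 / 6), Real.sqrt_pos.2 (by norm_num), Real.sq_sqrt (by norm_num)⟩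
  have hθ1 : θ ≤ 11 / 12 := by nlinarith
  have hθ1' : θ ≤ 1 := by linarith
  obtain ⟨b, hbdef⟩ : ∃ b : Finset ι → ℝ, b = dmp θ⁻¹ a := ⟨_, rfl⟩
  have hab : dmp θ b = a := by
    funext S
    rw [hbdef]
    unfold dmp
    rw [← mul_assoc, ← mul_pow, mul_inv_cancel₀ hθ0.ne', one_pow, one_mul]
  have hbD : DegLe b d := by
    rw [hbdef]
    exact degLe_dmp ha _
  have hbB : Box (1 / 4) b := by
    intro w hw
    rw [hbdef, F_dmp]
    refine hb _ fun i => ?_
    have e : Real.sqrt (1 + 1 / 4) = θ * Real.sqrt (1 + 1 / 2) := by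
      rw [Real.sqrt_eq_iff_mul_self_eq (by norm_num) (by positivity)]
      have := rad_sq (s := 1 / 2) (by norm_num)
      nlinarith
    have h1 := hw i
    rw [e] at h1
    rw [abs_mul, abs_of_pos (inv_pos.2 hθ0), inv_mul_le_iff₀ hθ0]
    exact h1
  have habs : ∀ S, |a S| = θ ^ S.card * |b S| := by
    intro S
    rw [← hab]
    unfold dmp
    rw [abs_mul, abs_of_pos (pow_pos hθ0 _)]
  have hle : ∀ S, |a S| ≤ |b S| := by
    intro S
    rw [habs]
    exact mul_le_of_le_one_left (abs_nonneg _) (pow_le_one₀ hθ0.le hθ1')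
  have hinf : ∀ j, inf b j ≤ 4 ^ d * H := by
    intro j
    have h1 := inf_dmp_ge θ hθ0.le hθ1' hbD j
    rw [hab, pow_mul, hθ2] at h1
    have h2 : (1 : ℝ) ≤ 4 ^ d * (5 / 6) ^ d := by
      rw [← mul_pow]
      exact one_le_pow₀ (by norm_num)
    have h3 := inf_nonneg b j
    have h4 : (0 : ℝ) ≤ 4 ^ d := by positivity
    calc inf b j ≤ 4 ^ d * (5 / 6) ^ d * inf b j := le_mul_of_one_le_left h3 h2
      _ = 4 ^ d * ((5 / 6) ^ d * inf b j) := by ring
      _ ≤ 4 ^ d * H := mul_le_mul_of_nonneg_left (h1.trans (hH j)) h4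
  have h1 := hB d (1 / 4) q (by norm_num) hq hbd ι d b a H h0 hbD hbB hle hH hinf
  have h2 := low ι d k a hd ha (hb.bdd (by norm_num)) H hH
  have h3 : ∀ S : Finset ι, (S.card : ℝ) * a S ^ 2 ≤
      (if S.card ≤ k then (S.card : ℝ) * a S ^ 2 else 0) +
        d * (11 / 12) ^ k * (if S = ∅ then 0 else |a S| * |b S|) := by
    intro S
    have hp : 0 ≤ (d : ℝ) * (11 / 12) ^ k * (if S = ∅ then 0 else |a S| * |b S|) := by
      split_ifs <;> positivity
    by_cases h : S.card ≤ k
    · rw [if_pos h]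
      linarith
    · rw [if_neg h, zero_add]
      by_cases hS : d < S.card
      · rw [ha S hS]
        simp
      · have hne : S ≠ ∅ := by
          intro e
          rw [e] at h
          simp at h
        rw [if_neg hne]
        have e1 : (S.card : ℝ) ≤ d := by exact_mod_cast not_lt.1 hS
        have e2 : θ ^ S.card ≤ (11 / 12) ^ k :=
          (pow_le_pow_of_le_one hθ0.le hθ1' (by omega)).trans (pow_le_pow_left₀ hθ0.le hθ1 k)
        have e3 : a S ^ 2 = θ ^ S.card * (|a S| * |b S|) := by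
          rw [← sq_abs, sq]
          nth_rewrite 2 [habs S]
          ring
        rw [e3, ← mul_assoc]
        refine mul_le_mul_of_nonneg_right ?_ (by positivity)
        exact mul_le_mul e1 e2 (by positivity) (by positivity)
  rw [tot_eq]
  refine (sum_le_sum fun S _ => h3 S).trans ?_
  rw [sum_add_distrib, ← mul_sum]
  have h4 : (0 : ℝ) ≤ d * (11 / 12) ^ k := by positivity
  have h5 := mul_le_mul_of_nonneg_left h1 h4
  refine (add_le_add h2 h5).trans (le_of_eq ?_)
  ring

end Pool.Agent.MP_9e8696_an.H30
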