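import Mathlib
import Pool.Agent.MP_9e8696_an.H30.Basic

/-!
The chain of phases and the final bound.
-/

set_option linter.unusedSectionVars false

namespace Pool.Agent.MP_9e8696_an.H30

open Finset hiding inf
open H67 H8
open scoped BigOperators

namespace FinalA

variable {d : ℕ}

lemma two_le (hd : 1 ≤ d) : (2 : ℝ) ≤ 2 * d := by
  have : (1 : ℝ) ≤ d := by exact_mod_cast hd
  linarith

lemma chain (hP : Phase2) (hd : 1 ≤ d) {q : ℝ} (hq : 0 ≤ q) (h : Bound d (1 / 2) q) (k : ℕ) :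
    ∀ s : ℝ, 0 ≤ s → 1 / 2 ≤ s * (1 + 1 / 10 ^ 6) ^ k →
      Bound d s (((2 * (d : ℝ)) ^ 7) ^ k * q) := by
  have hA : (1 : ℝ) ≤ (2 * (d : ℝ)) ^ 7 := one_le_pow₀ (by linarith [two_le hd])
  induction k with
  | zero => exact fun s _ hs => h.mono (by simpa using hs) (by simp)
  | succ k ih =>
    intro s h0 hs
    by_cases h1 : 1 / 2 ≤ s
    · exact h.mono h1 (le_mul_of_one_le_left hq (one_le_pow₀ hA))
    · rw [pow_succ', mul_assoc]
      exact hP d s _ hd h0 (not_le.1 h1).le (by positivity)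
        (ih _ (by positivity) (by rwa [mul_assoc, ← pow_succ']))

lemma two_le_pow {N : ℕ} (hN : (N : ℝ) = 10 ^ 6) : (2 : ℝ) ≤ (1 + 1 / 10 ^ 6) ^ N := by
  refine le_trans (le_of_eq ?_) (one_add_mul_le_pow (by norm_num) N)
  rw [hN]
  norm_num

lemma log_ge (hd : 1 ≤ d) : 1 / 2 ≤ Real.log 2 ∧ Real.log 2 ≤ Real.log (2 * d) :=
  ⟨by linarith [Real.log_two_gt_d9], Real.log_le_log two_pos (two_le hd)⟩

lemma pow_eq (hd : 1 ≤ d) (k : ℕ) : (2 * (d : ℝ)) ^ k = Real.exp (k * Real.log (2 * d)) := by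
  rw [Real.exp_nat_mul, Real.exp_log (by linarith [two_le hd])]

lemma small (hd : 1 ≤ d) {N k : ℕ} (hN : (N : ℝ) = 10 ^ 6) (hk : 10 ^ 8 * Real.log (2 * d) ≤ k) :
    (d : ℝ) * (2 * d + 1) * (11 / 12) ^ k * ((2 * (d : ℝ)) ^ 7) ^ N ≤ 1 / 2 := by
  obtain ⟨l1, l2⟩ := log_ge hd
  have h2 := two_le hd
  have e1 : (d : ℝ) * (2 * d + 1) ≤ (2 * d) ^ 2 := by nlinarith
  have e2 : ((11 : ℝ) / 12) ^ k ≤ Real.exp (k * (-1 / 12)) := by
    rw [Real.exp_nat_mul]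
    exact pow_le_pow_left₀ (by norm_num) (by linarith [Real.add_one_le_exp (-1 / 12 : ℝ)]) k
  calc (d : ℝ) * (2 * d + 1) * (11 / 12) ^ k * ((2 * (d : ℝ)) ^ 7) ^ N
      ≤ (2 * d) ^ 2 * Real.exp (k * (-1 / 12)) * ((2 * (d : ℝ)) ^ 7) ^ N := by gcongr
    _ = Real.exp (2 * Real.log (2 * d) + k * (-1 / 12) + 7 * N * Real.log (2 * d)) := by
      rw [← pow_mul, pow_eq hd, pow_eq hd, ← Real.exp_add, ← Real.exp_add]
      push_cast
      rfl
    _ ≤ Real.exp (-Real.log 2) := Real.exp_le_exp.2 (by rw [hN]; linarith)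
    _ = 1 / 2 := by rw [Real.exp_neg, Real.exp_log two_pos, one_div]

lemma half (hP : Phase2) (hE : EndG) (hd : 1 ≤ d) {q : ℝ} (hq : 0 ≤ q) (h : Bound d (1 / 2) q)
    {k : ℕ} (hk : 10 ^ 8 * Real.log (2 * d) ≤ k) :
    Bound d (1 / 2) (2 * (k * (64 * (d : ℝ) ^ 3) ^ k) + 1) := by
  obtain ⟨N, hN⟩ : ∃ N : ℕ, (N : ℝ) = 10 ^ 6 := ⟨10 ^ 6, by norm_num⟩
  have step : ∀ r : ℝ, 0 ≤ r → Bound d (1 / 2) r →
      Bound d (1 / 2) (k * (64 * (d : ℝ) ^ 3) ^ k + r / 2) := fun r hr hb => by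
    refine (hE d k _ hd (by positivity) (chain hP hd hr hb N (1 / 4) (by norm_num)
      (by linarith [two_le_pow hN]))).mono le_rfl (add_le_add_right ?_ _)
    rw [← mul_assoc]
    exact (mul_le_mul_of_nonneg_right (small hd hN hk) hr).trans_eq (by ring)
  have it : ∀ m : ℕ, Bound d (1 / 2) (2 * (k * (64 * (d : ℝ) ^ 3) ^ k) + q / 2 ^ m) := fun m => by
    induction m with
    | zero => exact h.mono le_rfl (by simp; positivity)
    | succ m ih => exact (step _ (by positivity) ih).mono le_rfl (le_of_eq (by ring))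
  obtain ⟨m, hm⟩ := pow_unbounded_of_one_lt q (one_lt_two (α := ℝ))
  exact (it m).mono le_rfl (add_le_add_right ((div_le_one (by positivity)).2 hm.le) _)

lemma start (hd : 1 ≤ d) {q : ℝ} (h : Bound d (1 / (2 * d)) q) : Bound d 0 (2 * q) := by
  intro ι _ _ a ha hb H hH
  have h2 := two_le hd
  have ht : (0 : ℝ) ≤ 1 / (2 * d) := by positivity
  have ht1 : (1 : ℝ) / (2 * d) ≤ 1 := (div_le_one (by linarith)).2 (by linarith)
  have hr := one_le_rad ht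
  obtain ⟨θ, hθ⟩ : ∃ θ, θ = 1 / Real.sqrt (1 + 1 / (2 * d)) := ⟨_, rfl⟩
  have t0 : 0 ≤ θ := by rw [hθ]; positivity
  have t1 : θ ≤ 1 := hθ ▸ (div_le_one (by positivity)).2 hr
  have t2 : 1 / 2 ≤ θ ^ (2 * d) := by
    have e : 1 + -(1 / (2 * (d : ℝ))) ≤ θ ^ 2 := by
      rw [hθ, div_pow, rad_sq ht, one_pow, le_div_iff₀ (by positivity)]
      nlinarith [mul_nonneg ht ht]
    rw [pow_mul]
    refine le_trans ?_ (pow_le_pow_left₀ (by linarith) e d)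
    refine le_trans (le_of_eq ?_) (one_add_mul_le_pow (by linarith) d)
    have : (d : ℝ) ≠ 0 := by linarith
    field_simp
    norm_num
  have h1 := h ι (dmp θ a) (degLe_dmp ha θ) (fun w hw => by
    rw [F_dmp]
    refine hb _ fun i => ?_
    rw [add_zero, Real.sqrt_one, abs_mul, abs_of_nonneg t0, hθ, one_div, inv_mul_le_iff₀
      (by positivity), mul_one]
    exact hw i) H fun j => (inf_dmp_le θ (by rwa [abs_of_nonneg t0]) a j).trans (hH j)
  have h3 : 1 / 2 * tot a ≤ tot (dmp θ a) := by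
    rw [tot, mul_sum]
    exact sum_le_sum fun j _ => (mul_le_mul_of_nonneg_right t2 (inf_nonneg a j)).trans
      (inf_dmp_ge θ t0 t1 ha j)
  linarith

lemma size (hd : 1 ≤ d) (k : ℕ) :
    2 * (k * (64 * (d : ℝ) ^ 3) ^ k) + 1 ≤ (2 * (d : ℝ)) ^ (7 * k + 2) := by
  have h2 := two_le hd
  have e1 : (k : ℝ) ≤ (2 * d) ^ k :=
    le_trans (by exact_mod_cast k.lt_two_pow_self.le) (pow_le_pow_left₀ zero_le_two h2 k)
  have e2 : 64 * (d : ℝ) ^ 3 ≤ (2 * d) ^ 6 := by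
    have : (d : ℝ) ^ 3 ≤ d ^ 6 := pow_le_pow_right₀ (by linarith) (by norm_num)
    linarith [mul_pow 2 (d : ℝ) 6]
  have e3 : k * (64 * (d : ℝ) ^ 3) ^ k ≤ (2 * d) ^ (7 * k) :=
    (mul_le_mul e1 (pow_le_pow_left₀ (by positivity) e2 k) (by positivity) (by positivity)).trans_eq
      (by rw [← pow_mul, ← pow_add]; congr 1; ring)
  have e4 : (1 : ℝ) ≤ (2 * d) ^ (7 * k) := one_le_pow₀ (by linarith)
  have e5 : (4 : ℝ) ≤ (2 * d) ^ 2 := by nlinarith
  rw [pow_add]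
  nlinarith

end FinalA

open FinalA in
theorem final30 (hP : Phase2) (hE : EndG) (h0 : ∀ (d : ℕ) (s : ℝ), 1 ≤ d → 0 ≤ s →
    Bound d s (d * (64 * (d : ℝ) ^ 3) ^ d)) : Final := by
  refine ⟨10 ^ 10, by norm_num, fun d hd => ?_⟩
  obtain ⟨N, hN⟩ : ∃ N : ℕ, (N : ℝ) = 10 ^ 6 := ⟨10 ^ 6, by norm_num⟩
  obtain ⟨l1, l2⟩ := log_ge hd
  have h2 := two_le hd
  have hL : 0 ≤ Real.log (2 * d) := by linarith
  obtain ⟨k, k1, k2⟩ : ∃ k : ℕ, 10 ^ 8 * Real.log (2 * d) ≤ k ∧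
      (k : ℝ) ≤ 10 ^ 8 * Real.log (2 * d) + 1 :=
    ⟨_, Nat.le_ceil _, (Nat.ceil_lt_add_one (by positivity)).le⟩
  obtain ⟨m, m1, m2⟩ : ∃ m : ℕ, 2 * Real.log (2 * d) ≤ m ∧ (m : ℝ) ≤ 2 * Real.log (2 * d) + 1 :=
    ⟨_, Nat.le_ceil _, (Nat.ceil_lt_add_one (by positivity)).le⟩
  have hm : 2 * (d : ℝ) ≤ 2 ^ m := by
    rw [← Real.exp_log (show (0 : ℝ) < 2 * d by linarith), ← Real.exp_log two_pos,
      ← Real.exp_nat_mul, Real.exp_log two_pos]
    exact Real.exp_le_exp.2 (by nlinarith)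
  have b1 := (half hP hE hd (by positivity) (h0 d _ hd (by norm_num)) k1).mono le_rfl (size hd k)
  have b2 := start hd (chain hP hd (by positivity) b1 (N * m) _ (by positivity) (by
    have := hm.trans (pow_le_pow_left₀ zero_le_two (two_le_pow hN) m)
    rw [pow_mul, one_div (2 * (d : ℝ)), le_inv_mul_iff₀ (by linarith)]
    linarith))
  refine b2.mono le_rfl ((mul_le_mul_of_nonneg_right h2 (by positivity)).trans ?_)
  rw [← pow_mul, ← pow_add, ← pow_succ', pow_eq hd, Real.rpow_def_of_pos (by linarith),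
    mul_comm (Real.log _)]
  refine Real.exp_le_exp.2 (mul_le_mul_of_nonneg_right ?_ hL)
  push_cast
  rw [hN]
  linarith

end Pool.Agent.MP_9e8696_an.H30
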