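import Pool.Agent.MP_9e8696_an.H30.Basic

/-! Large energy on a block gives a large gain with polynomial size-biased probability. -/

namespace Pool.Agent.MP_9e8696_an.H30

open Finset hiding inf
open H67 H8
open scoped BigOperators

namespace GainA

theorem abs_u {s z d o : ℝ} (h0 : 0 ≤ s) (h1 : s ≤ 1) (hz : |z| ≤ Real.sqrt (1 + s))
    (hd : |d| ≤ 1) (o0 : 0 ≤ o) (o1 : o ≤ 1) : |z * d + (z ^ 2 - 1) * o| ≤ 3 := by
  have z2 : z ^ 2 ≤ 2 := by
    rw [← sq_abs]
    exact (pow_le_pow_left₀ (abs_nonneg _) hz 2).trans (by rw [rad_sq h0]; linarith)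
  have z1 : |z| ≤ 2 := abs_le_of_sq_le_sq (by linarith) (by norm_num)
  have a : |z * d| ≤ 2 * 1 := by
    rw [abs_mul]
    exact mul_le_mul z1 hd (abs_nonneg _) zero_le_two
  have b : |(z ^ 2 - 1) * o| ≤ 1 * 1 := by
    rw [abs_mul]
    exact mul_le_mul (abs_le.2 ⟨by linarith [sq_nonneg z], by linarith⟩)
      (abs_le.2 ⟨by linarith, o1⟩) (abs_nonneg _) zero_le_one
  linarith [abs_add_le (z * d) ((z ^ 2 - 1) * o)]

theorem mom1 {s : ℝ} (h0 : 0 ≤ s) (d o : ℝ) :
    ∑ k, pv s k * (zv s k * d + (zv s k ^ 2 - 1) * o) = 0 := by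
  have : 1 + s ≠ 0 := by linarith
  rw [sum_pv s fun z => z * d + (z ^ 2 - 1) * o, neg_sq, rad_sq h0]
  field_simp
  ring

theorem mom2 {s : ℝ} (h0 : 0 ≤ s) (d o : ℝ) :
    ∑ k, pv s k * (zv s k * d + (zv s k ^ 2 - 1) * o) ^ 2 = d ^ 2 + s * o ^ 2 := by
  have : 1 + s ≠ 0 := by linarith
  have q := rad_sq h0
  rw [sum_pv s fun z => (z * d + (z ^ 2 - 1) * o) ^ 2, neg_sq, q]
  field_simp
  linear_combination 2 * d ^ 2 * q

theorem ptw {N X x p r : ℝ} (hN : 0 ≤ N) (hx : 0 ≤ x) (hp : 0 ≤ p) (hr : 0 ≤ r) (h : X ≤ p) :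
    X * N ≤ x * N + p * ((if r ≤ N then N else 0) + r * Real.exp (-x) * Real.exp X) := by
  have e : 0 ≤ r * Real.exp (-x) * Real.exp X := by positivity
  have i : 0 ≤ if r ≤ N then N else 0 := by split_ifs; exacts [hN, le_rfl]
  rcases le_total X x with k | k
  · linarith [mul_le_mul_of_nonneg_right k hN, mul_nonneg hp (add_nonneg i e)]
  · refine (mul_le_mul_of_nonneg_right h hN).trans ((mul_le_mul_of_nonneg_left ?_ hp).trans
      (le_add_of_nonneg_left (mul_nonneg hx hN)))
    split_ifs with j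
    · linarith
    · rw [zero_add, mul_assoc, ← Real.exp_add]
      exact (not_le.1 j).le.trans (le_mul_of_one_le_right hr (Real.one_le_exp (by linarith)))

end GainA

open GainA in
theorem gain (hA : MargA) (hB : MargB) : Gain := by
  intro ι _ _ s l p B e h0 h1 hl hp hc he
  set m := nrm e with hm
  have m0 : 0 ≤ m := nrm_nonneg e
  have p0 : 0 < p := by linarith
  set u : ι → Fin 3 → ℝ := fun i k => zv s k * dl e i + (zv s k ^ 2 - 1) * io e i with hu
  have ub : ∀ i k, |u i k| ≤ 3 := fun i k =>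
    abs_u h0 h1 (abs_zv_le s k) (abs_dl_le e i) (io_nonneg e i) (io_le_one e i)
  set v : ι → Fin 3 → ℝ := fun i k => u i k / 16 - 2 * (u i k / 16) ^ 2 with hv
  set N : (ι → Fin 3) → ℝ := fun x => nrm (rp B (fun i => zv s (x i)) e) with hN
  set w : (ι → Fin 3) → ℝ := fun x => ∏ i, pv s (x i) with hw
  have w0 : ∀ x, 0 ≤ w x := fun x => prod_nonneg fun i _ => pv_nonneg h0 _
  have e1 : ∑ x, w x * N x = m := hA ι s B e h0
  have e2 : ∑ x, w x * Real.exp (∑ i ∈ B, v i (x i)) ≤ 1 := by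
    have := Ep_prod (fun _ : ι => pv s) fun i k => if i ∈ B then 1 + u i k / 16 else 1
    rw [prod_eq_one (f := fun i => ∑ k, pv s k * if i ∈ B then 1 + u i k / 16 else 1)
      fun i _ => ?_] at this
    · refine le_trans (sum_le_sum fun x _ => mul_le_mul_of_nonneg_left ?_ (w0 x)) this.le
      rw [Real.exp_sum, prod_ite_mem, univ_inter]
      exact prod_le_prod (fun i _ => (Real.exp_pos _).le) fun i _ => exp_le_one_add _ (by
        rw [abs_div, abs_of_pos (by norm_num : (0 : ℝ) < 16)]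
        linarith [ub i (x i)])
    · split_ifs
      · simp only [mul_add, mul_one, ← mul_div_assoc, sum_add_distrib, ← sum_div, pv_sum h0]
        rw [mom1 h0, zero_div, add_zero]
      · simp only [mul_one, pv_sum h0]
  have e3 : l / 32 * m ≤ ∑ x, w x * ((∑ i ∈ B, v i (x i)) * N x) := by
    simp only [sum_mul, mul_sum]
    rw [sum_comm]
    refine le_trans (b := ∑ i ∈ B, (dl e i ^ 2 + s ^ 2 * io e i ^ 2) / 32 * m) ?_
      (sum_le_sum fun i hi => le_trans ?_ (hB ι s B e h0 i hi (v i)).ge)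
    · rw [← sum_mul, ← sum_div]
      gcongr
    · have k : ∑ k, pv s k * (u i k / 16 + u i k ^ 2 / 32) = (dl e i ^ 2 + s * io e i ^ 2) / 32 := by
        simp only [mul_add, ← mul_div_assoc, sum_add_distrib, ← sum_div]
        rw [mom1 h0, mom2 h0, zero_div, zero_add]
      refine le_trans (b := (∑ k, pv s k * (u i k / 16 + u i k ^ 2 / 32)) * m) ?_ ?_
      · rw [k]
        gcongr
        nlinarith
      · rw [sum_mul]
        refine sum_le_sum fun k _ => ?_
        rw [nrm_res_ratio, add_assoc, mul_assoc, mul_assoc]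
        refine mul_le_mul_of_nonneg_left ?_ (pv_nonneg h0 k)
        change _ ≤ (u i k / 16 - 2 * (u i k / 16) ^ 2) * (m * (1 + u i k))
        nlinarith [mul_nonneg m0 (mul_nonneg (sq_nonneg (u i k))
          (sub_nonneg.2 (abs_le.1 (ub i k)).2))]
  have e4 := sum_le_sum fun x (_ : x ∈ univ) => mul_le_mul_of_nonneg_left (ptw (N := N x)
    (X := ∑ i ∈ B, v i (x i)) (x := l / 64) (r := Real.exp (l / 64) / (2 * p) * m)
    (nrm_nonneg _) (by linarith) p0.le (by positivity) (le_trans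
      (sum_le_card_nsmul B _ 1 fun i _ => by
        change u i (x i) / 16 - _ ≤ _
        linarith [sq_nonneg (u i (x i) / 16), (abs_le.1 (ub i (x i))).2]) (by simpa using hc)))
    (w0 x)
  have e5 : p * (Real.exp (l / 64) / (2 * p) * m * Real.exp (-(l / 64))) = m / 2 := by
    rw [Real.exp_neg]
    field_simp
  simp only [mul_add, mul_left_comm (w _), sum_add_distrib, ← mul_sum, e1] at e4
  simp only [mul_left_comm (w _)] at e3
  rw [← mul_assoc p, e5] at e4
  have e6 := mul_le_mul_of_nonneg_left e2 (div_nonneg m0 zero_le_two)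
  have e7 := mul_le_mul_of_nonneg_right hl m0
  rw [div_le_iff₀ (by positivity)]
  change _ ≤ (∑ x, w x * if _ ≤ N x then N x else 0) * _
  linarith

end Pool.Agent.MP_9e8696_an.H30
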