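import Mathlib
import Pool.Agent.MP_9e8696_an.H30.Basic

/-!
Large energy forces weight on the Taylor terms of order at least three.
-/

namespace Pool.Agent.MP_9e8696_an.H30

open Finset hiding inf
open H67 H8
open scoped BigOperators

theorem jensen3 (hU : UkFacts) : Jensen3 := by
  intro ι _ _ d l e I hd he hl hI
  have hj := jensen_boost e I
  set b : ι → ℝ := fun i => if i ∈ I then dl e i / 4 else 0 with hb
  obtain ⟨-, -, -, -, u5, u6⟩ := hU ι b e
  have hd' : (1 : ℝ) ≤ d := by exact_mod_cast hd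
  have hm := nrm_nonneg e
  have b1 : ∀ i, b i ^ 2 ≤ dl e i ^ 2 / 16 := fun i => by
    simp only [hb]
    split_ifs
    · exact le_of_eq (by ring)
    · rw [zero_pow two_ne_zero]; positivity
  have b2 : ∀ i, b i ^ 2 ≤ 1 := fun i => by
    have := (sq_le_one_iff_abs_le_one _).2 (abs_dl_le e i)
    linarith [b1 i]
  have b3 : ∑ i, b i ^ 2 ≤ d := by
    refine (sum_le_sum fun i _ => b1 i).trans ?_
    rw [← sum_div]
    linarith [sum_dl_sq_le he]
  have h1 : Qb e b ≤ nrm (tc e b) :=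
    sum_le_sum fun T _ => mul_le_of_le_one_right (sq_nonneg _)
      (prod_le_one (fun i _ => by linarith [b2 i]) fun i _ => by linarith [sq_nonneg (b i)])
  have h2 : nrm (tc e b) ≤ (d + 1) * ∑ k ∈ range (d + 1), nrm (uk k b e) := by
    rw [u6 d he]
    unfold nrm
    rw [sum_comm, mul_sum]
    refine sum_le_sum fun T _ => ?_
    have := sq_sum_le_card_mul_sum_sq (s := range (d + 1)) (f := fun k => uk k b e T)
    rwa [card_range, Nat.cast_succ] at this
  have h3 : ∑ k ∈ range (d + 1), nrm (uk k b e) ≤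
      ∑ k ∈ range 3, nrm (uk k b e) + ∑ k ∈ Icc 3 d, nrm (uk k b e) := by
    rw [← sum_union (by simp only [disjoint_left, mem_range, mem_Icc]; omega)]
    refine sum_le_sum_of_subset_of_nonneg (fun k => ?_) fun k _ _ => nrm_nonneg _
    simp only [mem_union, mem_range, mem_Icc]
    omega
  have h4 : ∑ k ∈ range 3, nrm (uk k b e) ≤ 3 * ((d : ℝ) ^ 4 * nrm e) := by
    have : ∀ k ∈ range 3, nrm (uk k b e) ≤ (d : ℝ) ^ 4 * nrm e := fun k hk => by
      refine (u5 d he b3 k).trans (mul_le_mul_of_nonneg_right ?_ hm)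
      rw [← pow_mul]
      exact pow_le_pow_right₀ hd' (by have := mem_range.1 hk; omega)
    simpa using sum_le_card_nsmul _ _ _ this
  have h5 : nrm e * (8 * (d : ℝ) ^ 5) ≤ nrm e * Real.exp ((∑ i ∈ I, dl e i ^ 2) / 8) :=
    mul_le_mul_of_nonneg_left (hl.trans (Real.exp_le_exp.2 (by linarith))) hm
  have h6 : ((d : ℝ) + 1) * (3 * (d : ℝ) ^ 4 + 1) ≤ 8 * (d : ℝ) ^ 5 := by
    have := one_le_pow₀ (n := 4) hd'
    calc _ ≤ (2 * (d : ℝ)) * (4 * (d : ℝ) ^ 4) := by gcongr <;> linarith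
      _ = _ := by ring
  have h7 := mul_le_mul_of_nonneg_left h6 hm
  have h8 := mul_le_mul_of_nonneg_left (h3.trans (add_le_add h4 le_rfl))
    (by linarith : (0 : ℝ) ≤ d + 1)
  refine le_of_mul_le_mul_left ?_ (by linarith : (0 : ℝ) < d + 1)
  linarith

end Pool.Agent.MP_9e8696_an.H30
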