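import Pool.Agent.MP_9e8696_an.H30.Basic

/-!
The bounds for large and for small energies combined.
-/

namespace Pool.Agent.MP_9e8696_an.H30

open Finset hiding inf
open H67 H8
open scoped BigOperators

namespace KillAll

lemma card_le {ι : Type} [Fintype ι] (T : Finset ι) (x : ι → ℝ) (c M : ℝ) (hc : 0 < c)
    (h0 : ∀ i, 0 ≤ x i) (h : ∀ i ∈ T, c ≤ x i) (hM : ∑ i, x i ≤ M) : (T.card : ℝ) ≤ M / c := by
  rw [le_div_iff₀ hc, ← nsmul_eq_mul]
  exact (card_nsmul_le_sum T x c h).trans
    ((sum_le_sum_of_subset_of_nonneg (subset_univ T) fun i _ _ => h0 i).trans hM)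

end KillAll

open KillAll in
theorem killAll (hB : Big1) (hS : Small1) (hL : SelS) : KillAll := by
  intro d s q l R γ hd hs hs1 hq hl hl' hR hγ hγ' hb ι _ _ a ha hx H hH hi J hJ hE
  have hD : (1 : ℝ) ≤ d := by exact_mod_cast hd
  have hγD : γ * d ≤ 1 := by
    have : (d : ℝ) ≤ d ^ 5 := le_self_pow₀ hD (by norm_num)
    nlinarith
  have hγ1 : γ ^ 2 ≤ 1 := by nlinarith
  have hg : 0 < γ ^ 2 := by positivity
  have hh : 0 < H / R := by positivity
  have hm : ∀ j ∈ J, H / R ≤ inf a j := fun j hj => by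
    rw [div_le_iff₀ (by positivity), mul_comm]
    exact hJ j hj
  have hsq := Real.sqrt_nonneg H
  let P : ι → Finset ι := fun j => univ.filter fun i => γ ^ 2 ≤ en s a j i
  have big : ∑ j ∈ J with l ≤ ∑ i ∈ P j, en s a j i, inf a j ≤
      2 ^ 17 * (d : ℝ) ^ 7 * R / γ ^ 8 * Real.exp (-(l / 128)) * q * Real.sqrt H := by
    have one : ∀ t : ℝ, 1 ≤ t → 5 * t / γ ^ 2 + 1 ≤ 6 * t / γ ^ 2 := fun t ht => by
      rw [div_add_one hg.ne']
      exact div_le_div_of_nonneg_right (by linarith) hg.le
    have hp : ∀ j, ((insert j (P j)).card : ℝ) ≤ 6 * d / γ ^ 2 := fun j => by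
      have h1 := card_le (P j) _ _ _ hg (en_nonneg s a j) (fun i h => (mem_filter.1 h).2)
        (en_row hs hs1 ha j)
      have h2 : ((insert j (P j)).card : ℝ) ≤ (P j).card + 1 := by
        exact_mod_cast card_insert_le j (P j)
      linarith [one d hD]
    obtain ⟨J', h1, h2, h3⟩ := greedy (fun j => insert j (P j)) (inf a) (inf_nonneg a)
      (6 * d / γ ^ 2) (6 * (d * R) / γ ^ 2) (J.filter fun j => l ≤ ∑ i ∈ P j, en s a j i)
      (fun j _ => mem_insert_self _ _) (fun j _ => hp j) fun i => by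
        have h1 := card_le (J.filter fun j => i ∈ P j) _ (H / R * γ ^ 2) (5 * d * H)
          (by positivity) (fun j => mul_nonneg (inf_nonneg a j) (en_nonneg s a j i))
          (fun j h => mul_le_mul (hm j (mem_filter.1 h).1) (mem_filter.1 (mem_filter.1 h).2).2
            hg.le (inf_nonneg a j))
          ((en_col hs hs1 ha i).trans (mul_le_mul_of_nonneg_left (hi i) (by positivity)))
        have h2 : 5 * d * H / (H / R * γ ^ 2) = 5 * (d * R) / γ ^ 2 := by field_simp
        have h3 : ((J.filter fun j => l ≤ ∑ i ∈ P j, en s a j i).filter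
            fun j => i ∈ insert j (P j)) ⊆ insert i (J.filter fun j => i ∈ P j) := fun j hj => by
          obtain ⟨h4, h5⟩ := mem_filter.1 hj
          rcases mem_insert.1 h5 with rfl | h5
          · exact mem_insert_self _ _
          · exact mem_insert_of_mem (mem_filter.2 ⟨(mem_filter.1 h4).1, h5⟩)
        have h4 := (Nat.cast_le (α := ℝ)).2 ((card_le_card h3).trans (card_insert_le _ _))
        push_cast at h4
        linarith [one (d * R) (by nlinarith)]
    have h4 := hB d s q l (6 * d / γ ^ 2) hd hs hs1 hq hl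
      (by rw [le_div_iff₀ hg]; linarith) hb ι a ha hx H hH hi J' _
      (fun j _ => mem_insert_self _ _) h2 (fun j _ => hp j) fun j hj =>
        (mem_filter.1 (h1 hj)).2.trans (sum_le_sum_of_subset_of_nonneg (subset_insert _ _)
          fun i _ _ => en_nonneg s a j i)
    refine h3.trans ((mul_le_mul_of_nonneg_left h4 (by positivity)).trans ?_)
    have h5 : 0 ≤ (d : ℝ) ^ 7 * R / γ ^ 8 * Real.exp (-(l / 128)) * q * Real.sqrt H := by
      positivity
    calc _ = 82944 * ((d : ℝ) ^ 7 * R / γ ^ 8 * Real.exp (-(l / 128)) * q * Real.sqrt H) := by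
          field_simp
          ring
      _ ≤ 2 ^ 17 * ((d : ℝ) ^ 7 * R / γ ^ 8 * Real.exp (-(l / 128)) * q * Real.sqrt H) :=
          mul_le_mul_of_nonneg_right (by norm_num) h5
      _ = _ := by ring
  have small : ∑ j ∈ J with ¬ l ≤ ∑ i ∈ P j, en s a j i, inf a j ≤
      2 ^ 18 * (d : ℝ) ^ 22 * R * γ * q * Real.sqrt H := by
    let x : ι → ι → ℝ := fun j i => if i ∈ P j then 0 else dl (sh {j} a) i ^ 2
    have x0 : ∀ j i, 0 ≤ x j i := fun j i => by
      simp only [x]
      split_ifs <;> positivity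
    have x1 : ∀ j i, x j i ≤ dl (sh {j} a) i ^ 2 := fun j i => by
      simp only [x]
      split_ifs
      · positivity
      · exact le_rfl
    have x2 : ∀ j i, x j i ≤ γ ^ 2 ∧ en s a j i ≤
        (if i ∈ P j then en s a j i else 0) + x j i + γ * io (sh {j} a) i := fun j i => by
      have h0 := io_nonneg (sh {j} a) i
      simp only [x]
      split_ifs with h
      · exact ⟨hg.le, by nlinarith⟩
      · have h1 : en s a j i < γ ^ 2 := not_le.1 fun h2 => h (mem_filter.2 ⟨mem_univ _, h2⟩)
        unfold en at h1 ⊢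
        have h2 := mul_nonneg hs h0
        have h3 : s * io (sh {j} a) i ≤ γ :=
          le_of_sq_le_sq (by nlinarith [sq_nonneg (dl (sh {j} a) i)]) hγ.le
        have h4 : s * io (sh {j} a) i ≤ io (sh {j} a) i := mul_le_of_le_one_left h0 hs1
        exact ⟨by nlinarith, by nlinarith [mul_le_mul h3 h4 h2 hγ.le]⟩
    obtain ⟨J₁, -, I, h1, h2, h3⟩ := hL ι (J.filter fun j => ¬ l ≤ ∑ i ∈ P j, en s a j i)
      (inf a) x (H / R) (γ ^ 2) l (4 * d) (4 * d * H) hh hg (by linarith) (by positivity)
      (fun j hj => hm j (mem_filter.1 hj).1) x0 (fun j _ i => (x2 j i).1)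
      (fun j hj => by
        have h1 := sum_le_sum (s := univ) fun i _ => (x2 j i).2
        rw [sum_add_distrib, sum_add_distrib, ← mul_sum, sum_ite_mem, univ_inter] at h1
        have h2 := mul_le_mul_of_nonneg_left (sum_io_le (ha.sh {j})) hγ.le
        linarith [hE j (mem_filter.1 hj).1, not_le.1 (mem_filter.1 hj).2])
      (fun j _ => (sum_le_sum fun i _ => x1 j i).trans (row_bound ha j))
      fun i => (sum_le_sum_of_subset_of_nonneg (subset_univ _) fun j _ _ =>
        mul_nonneg (inf_nonneg a j) (x0 j i)).trans ((sum_le_sum fun j _ =>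
          mul_le_mul_of_nonneg_left (x1 j i) (inf_nonneg a j)).trans ((col_bound ha i).trans
            (mul_le_mul_of_nonneg_left (hi i) (by positivity))))
    have x3 : ∀ j i, (if i ∈ I j \ P j then dl (sh {j} a) i ^ 2 else 0) =
        if i ∈ I j then x j i else 0 := fun j i => by
      by_cases h : i ∈ I j <;> by_cases h' : i ∈ P j <;> simp [x, h, h']
    have h4 := hS d s q l γ hd hs hq hl' hγ hγ' hb ι a ha hx H hH hi J₁ (fun j => I j \ P j)
      (fun j hj => by
        rw [← univ_inter (I j \ P j), ← sum_ite_mem]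
        simp only [x3]
        rw [sum_ite_mem, univ_inter]
        exact h1 j hj)
      fun i => by simpa only [x3] using h2 i
    have h5 : 1 + 2 * (4 * d * H) * (4 * d) / (l * γ ^ 2 * (H / R)) ≤ 2 * (d ^ 2 * R / γ ^ 2) := by
      have h6 : 1 ≤ d ^ 2 * R / γ ^ 2 := by
        rw [le_div_iff₀ hg]
        nlinarith [one_le_pow₀ (n := 2) hD]
      have h7 : 2 * (4 * d * H) * (4 * d) / (l * γ ^ 2 * (H / R)) =
          32 / l * (d ^ 2 * R / γ ^ 2) := by
        field_simp
        norm_num
      have h8 : 32 / l ≤ 1 := by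
        rw [div_le_one (by linarith)]
        linarith
      nlinarith
    refine h3.trans ((mul_le_mul h5 h4 (sum_nonneg fun j _ => inf_nonneg a j)
      (by positivity)).trans_eq ?_)
    field_simp
    norm_num
  rw [← sum_filter_add_sum_filter_not J fun j => l ≤ ∑ i ∈ P j, en s a j i]
  linarith

end Pool.Agent.MP_9e8696_an.H30
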