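import Mathlib
import Pool.Agent.MP_9e8696_an.H30.Basic

/-!
The norm after fixing a block of coordinates to random spins.
-/

set_option linter.unusedSectionVars false

namespace Pool.Agent.MP_9e8696_an.H30

open Finset hiding inf
open H67 H8
open scoped BigOperators

namespace MargX

variable {ι : Type*} [Fintype ι] [DecidableEq ι]

lemma Ep_const (π : ι → Fin 3 → ℝ) (h : ∀ i, ∑ k, π i k = 1) (c : ℝ) :
    Ep π (fun _ => c) = c := by
  have := Ep_prod π fun _ _ => 1
  simp only [prod_const_one, mul_one, h] at this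
  rw [Ep, ← sum_mul, this, one_mul]

/-- Conditioning on one coordinate. -/
lemma Ep_split (π : ι → Fin 3 → ℝ) (i : ι) (φ : Fin 3 → ℝ) (G : (ι → Fin 3) → ℝ)
    (G' : Fin 3 → (ι → Fin 3) → ℝ) (h : ∀ x, G x = G' (x i) x) :
    Ep π (fun x => φ (x i) * G x) =
      ∑ k, π i k * φ k * Ep (Function.update π i fun l => if l = k then 1 else 0) (G' k) := by
  simp only [Ep, mul_sum]
  rw [sum_comm]
  refine sum_congr rfl fun x _ => ?_
  have e : ∀ k, ∏ j, Function.update π i (fun l => if l = k then (1 : ℝ) else 0) j (x j) =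
      (if x i = k then 1 else 0) * ∏ j ∈ univ.erase i, π j (x j) := fun k => by
    rw [← mul_prod_erase univ _ (mem_univ i), Function.update_self]
    exact congrArg _ (prod_congr rfl fun j hj => by
      rw [Function.update_of_ne (ne_of_mem_erase hj)])
  simp only [e, ite_mul, mul_ite, zero_mul, mul_zero, sum_ite_eq, mem_univ, if_true]
  rw [← mul_prod_erase univ _ (mem_univ i), h]
  ring

lemma rp_empty (ζ : ι → ℝ) (e : Finset ι → ℝ) : rp ∅ ζ e = e :=
  ext_F fun w => by simp [F_rp]

lemma rp_erase {B : Finset ι} {i : ι} (hi : i ∈ B) (ζ : ι → ℝ) (e : Finset ι → ℝ) :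
    rp B ζ e = rp (B.erase i) ζ (res i (ζ i) e) := ext_F fun w => by
  rw [F_rp, F_rp, F_res]
  congr 1
  funext j
  by_cases h : j = i
  · subst h
    simp [hi]
  · simp [h]

lemma upd_sum {π : ι → Fin 3 → ℝ} (h : ∀ i, ∑ k, π i k = 1) (i : ι) (k : Fin 3) (j : ι) :
    ∑ l, Function.update π i (fun l => if l = k then (1 : ℝ) else 0) j l = 1 := by
  by_cases e : j = i
  · subst e
    simp
  · rw [Function.update_of_ne e, h]

lemma mean_res {s : ℝ} (hs : 0 ≤ s) (i : ι) (e : Finset ι → ℝ) :
    ∑ k, pv s k * nrm (res i (zv s k) e) = nrm e := by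
  have h : (1 + s) ≠ 0 := by linarith
  rw [sum_pv s fun z => nrm (res i z e)]
  simp only [nrm_res', neg_sq, rad_sq hs]
  field_simp
  ring

lemma gen {s : ℝ} (hs : 0 ≤ s) (B : Finset ι) : ∀ (π : ι → Fin 3 → ℝ) (e : Finset ι → ℝ),
    (∀ i, ∑ k, π i k = 1) → (∀ i ∈ B, π i = pv s) →
      Ep π (fun x => nrm (rp B (fun i => zv s (x i)) e)) = nrm e := by
  induction B using Finset.induction_on with
  | empty =>
    intro π e h _
    simp only [rp_empty]
    exact Ep_const π h _
  | insert i B hi ih =>
    intro π e h hB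
    have := Ep_split π i (fun _ => 1) (fun x => nrm (rp (insert i B) (fun i => zv s (x i)) e))
      (fun k x => nrm (rp B (fun i => zv s (x i)) (res i (zv s k) e))) fun x => by
        rw [rp_erase (mem_insert_self i B), erase_insert hi]
    simp only [one_mul, mul_one] at this
    rw [this, ← mean_res hs i e, hB i (mem_insert_self i B)]
    refine sum_congr rfl fun k _ => congrArg _ (ih _ _ (upd_sum h i k) fun j hj => ?_)
    rw [Function.update_of_ne (ne_of_mem_of_not_mem hj hi), hB j (mem_insert_of_mem hj)]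

end MargX

theorem margA : MargA := fun _ _ _ _ B e hs =>
  MargX.gen hs B _ e (fun _ => pv_sum hs) fun _ _ => rfl

theorem margB : MargB := by
  intro ι _ _ s B e hs i hi φ
  rw [MargX.Ep_split _ i φ _ (fun k x => nrm (rp (B.erase i) (fun i => zv s (x i))
    (res i (zv s k) e))) fun x => by rw [MargX.rp_erase hi]]
  refine sum_congr rfl fun k _ => congrArg _
    (MargX.gen hs _ _ _ (MargX.upd_sum (fun _ => pv_sum hs) i k) fun j hj => ?_)
  rw [Function.update_of_ne (ne_of_mem_erase hj)]

end Pool.Agent.MP_9e8696_an.H30
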