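import Mathlib
import Pool.Agent.MP_9e8696_an.H30.Basic

/-!
One phase of the restriction process.
-/

set_option linter.unusedSectionVars false

namespace Pool.Agent.MP_9e8696_an.H30

open Finset hiding inf
open H67 H8
open scoped BigOperators

variable {ι : Type*} [Fintype ι] [DecidableEq ι]

lemma th_mul_le {σ n : ℝ} (hσ : 0 ≤ σ) (hn : 0 < n) {x : ℝ}
    (hx : |x| ≤ Real.sqrt (1 + σ * (1 + 1 / n))) : |th σ n * x| ≤ Real.sqrt (1 + σ) := by
  have h0 : 0 < 1 + σ / n := by positivity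
  have h1 : 0 < Real.sqrt (1 + σ / n) := Real.sqrt_pos.2 h0
  unfold th
  rw [abs_mul, abs_of_pos (by positivity), one_div, inv_mul_le_iff₀ h1, ← Real.sqrt_mul h0.le]
  refine hx.trans (Real.sqrt_le_sqrt ?_)
  have h2 : 0 ≤ σ / n * σ := by positivity
  have h3 : σ * (1 + 1 / n) = σ + σ / n := by ring
  nlinarith

lemma box_none {σ n : ℝ} (hσ : 0 ≤ σ) (hn : 0 < n) {a : Finset ι → ℝ} (hb : Box σ a) :
    Box (σ * (1 + 1 / n)) (dmp (th σ n) a) := by
  intro w hw
  rw [F_dmp]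
  exact hb _ fun i => th_mul_le hσ hn (hw i)

lemma box_res {σ : ℝ} {a : Finset ι → ℝ} (hb : Box σ a) (i : ι) (z : ℝ)
    (hz : |z| ≤ Real.sqrt (1 + σ)) : Box σ (res i z a) := by
  intro w hw
  rw [F_res]
  refine hb _ fun k => ?_
  by_cases h : k = i
  · subst h; simpa using hz
  · simpa [h] using hw k

lemma avgS_mono {σ n : ℝ} (hσ : 0 ≤ σ) (hn : 0 < n) (hc : (Fintype.card ι : ℝ) ≤ n)
    {a : Finset ι → ℝ} {d : ℕ} (ha : DegLe a d) (hb : Box σ a) {Φ Ψ : (Finset ι → ℝ) → ℝ}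
    (h : ∀ c, DegLe c d → Box (σ * (1 + 1 / n)) c → Φ c ≤ Ψ c) :
    avgS σ n Φ a ≤ avgS σ n Ψ a := by
  unfold avgS
  have hr : |Real.sqrt (1 + σ)| ≤ Real.sqrt (1 + σ) := (abs_of_nonneg (Real.sqrt_nonneg _)).le
  refine add_le_add (div_le_div_of_nonneg_right (sum_le_sum fun i _ => ?_) hn.le)
    (mul_le_mul_of_nonneg_left (h _ (degLe_dmp ha _) (box_none hσ hn hb)) ?_)
  · have h1 := h _ (degLe_dmp (degLe_res ha i (Real.sqrt (1 + σ))) (th σ n))
      (box_none hσ hn (box_res hb i _ hr))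
    have h2 := h _ (degLe_dmp (degLe_res ha i (-Real.sqrt (1 + σ))) (th σ n))
      (box_none hσ hn (box_res hb i _ (by rwa [abs_neg])))
    linarith
  · rw [sub_nonneg, div_le_one hn]; exact hc

lemma avgS_affine {σ n : ℝ} (hn : 0 < n) (a : Finset ι → ℝ) (Φ : (Finset ι → ℝ) → ℝ)
    (u v : ℝ) : avgS σ n (fun c => u + v * Φ c) a = u + v * avgS σ n Φ a := by
  unfold avgS
  have h : ∀ x y : ℝ, (u + v * x + (u + v * y)) / 2 = u + v * ((x + y) / 2) := fun x y => by ring
  simp only [h, sum_add_distrib, ← mul_sum, sum_const, card_univ, nsmul_eq_mul]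
  field_simp
  ring

lemma avgS_add {σ n : ℝ} (a : Finset ι → ℝ) (Φ Ψ : (Finset ι → ℝ) → ℝ) :
    avgS σ n (fun c => Φ c + Ψ c) a = avgS σ n Φ a + avgS σ n Ψ a := by
  unfold avgS
  have h : ∀ x y x' y' : ℝ, (x + x' + (y + y')) / 2 = (x + y) / 2 + (x' + y') / 2 :=
    fun x y x' y' => by ring
  simp only [h, sum_add_distrib]
  ring

lemma avgS_sum {σ n : ℝ} (a : Finset ι → ℝ) (Φ : ι → (Finset ι → ℝ) → ℝ) :
    avgS σ n (fun c => ∑ j, Φ j c) a = ∑ j, avgS σ n (Φ j) a := by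
  unfold avgS
  rw [sum_add_distrib, ← mul_sum]
  congr 1
  rw [← sum_div univ _ n, sum_comm]
  congr 1
  refine sum_congr rfl fun i _ => ?_
  rw [← sum_div, sum_add_distrib]

lemma sum_ite_mem' (Q : Finset ι) (g : ι → ℝ) :
    ∑ j, (if j ∈ Q then g j else 0) = ∑ j ∈ Q, g j := by
  rw [← sum_filter]; simp

/-- Deleting the coordinates above the cap. -/
lemma cap_del {d : ℕ} {σ H U V : ℝ} (hH : 0 < H) (hV : (d : ℝ) ≤ V)
    (ih : ∀ c : Finset ι → ℝ, DegLe c d → Box σ c → (∀ j, inf c j ≤ H) →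
      tot c ≤ U + V * (psi c / H))
    (c : Finset ι → ℝ) (hc : DegLe c d) (hb : Box σ c) : tot c ≤ U + V * (psi c / H) := by
  set Q := univ.filter fun j => H < inf c j with hQ
  have h1 := tot_del hc Q
  have h2 := ih (del Q c) (hc.del Q) (hb.del Q) fun j => by
    by_cases hj : j ∈ Q
    · rw [inf_del_mem c hj]; exact hH.le
    · exact (inf_del_le c Q j).trans (by simpa [hQ] using hj)
  have h3 : psi (del Q c) + H * ∑ j ∈ Q, inf c j ≤ psi c := by
    unfold psi
    rw [mul_sum, ← sum_ite_mem' Q, ← sum_add_distrib]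
    refine sum_le_sum fun j _ => ?_
    by_cases hj : j ∈ Q
    · rw [inf_del_mem c hj, if_pos hj]
      have : H < inf c j := by simpa [hQ] using hj
      nlinarith
    · rw [if_neg hj, add_zero]
      exact pow_le_pow_left₀ (inf_nonneg _ _) (inf_del_le c Q j) 2
  have h4 : psi (del Q c) / H + ∑ j ∈ Q, inf c j ≤ psi c / H := by
    rw [le_div_iff₀ hH, add_mul, div_mul_cancel₀ _ hH.ne']
    linarith
  have h5 : 0 ≤ ∑ j ∈ Q, inf c j := sum_nonneg fun j _ => inf_nonneg c j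
  have hV0 : 0 ≤ V := (Nat.cast_nonneg d).trans hV
  nlinarith [mul_le_mul_of_nonneg_left h4 hV0, mul_le_mul_of_nonneg_right hV h5]

/-- Growth of the sum of squares in one step. -/
lemma psi_step (h1 : Step1) (h2 : Step2) {ι : Type} [Fintype ι] [DecidableEq ι] {d : ℕ}
    {σ n q l R ε H : ℝ} {a : Finset ι → ℝ} (hd : 1 ≤ d) (hσ : 0 ≤ σ) (hσ1 : σ ≤ 1)
    (hc : (Fintype.card ι : ℝ) ≤ n) (hn : 100 * (d : ℝ) ^ 2 ≤ n) (hl : 0 ≤ l) (hR : 1 ≤ R)
    (hH : 0 < H) (ha : DegLe a d) (hb : Box σ a) (hi : ∀ j, inf a j ≤ H)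
    (hB : Bound d σ q) (hK : Kill d σ q l R ε) :
    avgS σ n psi a ≤ (1 + (8 * l + 8) / n) * psi a +
      20 * d / n * (ε + 1 / R) * q * Real.sqrt H * H := by
  have hd' : (1 : ℝ) ≤ d := by exact_mod_cast hd
  have hn0 : 0 < n := by nlinarith
  have hR0 : 0 < R := by linarith
  have e1 : ∀ j, avgS σ n (fun c => inf c j ^ 2) a ≤
      inf a j ^ 2 * (1 + (4 * ∑ i, en σ a j i + 4) / n) := by
    intro j
    have e : (fun c : Finset ι → ℝ => inf c j ^ 2) = fun c =>
        (inf c j - inf a j) ^ 2 + (-inf a j ^ 2 + 2 * inf a j * inf c j) := by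
      funext c; ring
    rw [e, avgS_add, avgS_affine hn0]
    have f1 := (h1 ι d σ n a hd hσ hσ1 hc hn ha j).2
    have f2 := h2 ι d σ n a hd hσ hσ1 hc hn ha j
    have f3 := mul_le_mul_of_nonneg_left f1 (by linarith [inf_nonneg a j] : 0 ≤ 2 * inf a j)
    have f4 : inf a j ^ 2 * (1 + (4 * ∑ i, en σ a j i + 4) / n) =
        inf a j ^ 2 + inf a j ^ 2 * (4 * ∑ i, en σ a j i + 4) / n := by ring
    nlinarith
  set J := univ.filter fun j => H ≤ R * inf a j ∧ 2 * l + 1 ≤ ∑ i, en σ a j i with hJ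
  have e2 := hK ι a ha hb H hH hi J (fun j hj => (mem_filter.1 hj).2.1)
    (fun j hj => (mem_filter.1 hj).2.2)
  have e3 := hB ι a ha hb H hi
  have e4 : ∀ j, inf a j ^ 2 * (1 + (4 * ∑ i, en σ a j i + 4) / n) ≤
      (1 + (8 * l + 8) / n) * inf a j ^ 2 +
        20 * d / n * H * ((if j ∈ J then inf a j else 0) + 1 / R * inf a j) := by
    intro j
    have m0 := inf_nonneg a j
    have hrow := en_row hσ hσ1 ha j
    have hc0 : 0 ≤ 20 * d / n * H := by positivity
    by_cases hL : 2 * l + 1 ≤ ∑ i, en σ a j i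
    · have g1 : (4 * ∑ i, en σ a j i + 4) / n ≤ (8 * l + 8) / n + 20 * d / n := by
        rw [← add_div]
        exact div_le_div_of_nonneg_right (by linarith) hn0.le
      have g2 : inf a j ^ 2 ≤ H * ((if j ∈ J then inf a j else 0) + 1 / R * inf a j) := by
        have g3 : 0 ≤ 1 / R * inf a j := by positivity
        split_ifs with hj
        · nlinarith [hi j]
        · have g4 : R * inf a j ≤ H := by
            by_contra hlt
            exact hj (mem_filter.2 ⟨mem_univ _, (not_le.1 hlt).le, hL⟩)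
          have g5 : inf a j ≤ H * (1 / R) := by
            rw [mul_one_div, le_div_iff₀ hR0]; linarith
          nlinarith
      have g6 := mul_le_mul_of_nonneg_left g1 (sq_nonneg (inf a j))
      have g7 := mul_le_mul_of_nonneg_left g2 (by positivity : 0 ≤ 20 * (d : ℝ) / n)
      nlinarith
    · have g1 : (4 * ∑ i, en σ a j i + 4) / n ≤ (8 * l + 8) / n :=
        div_le_div_of_nonneg_right (by linarith [not_le.1 hL]) hn0.le
      have g6 := mul_le_mul_of_nonneg_left g1 (sq_nonneg (inf a j))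
      have g3 : 0 ≤ (if j ∈ J then inf a j else 0) + 1 / R * inf a j := by
        split_ifs <;> positivity
      nlinarith [mul_nonneg hc0 g3]
  have e5 : avgS σ n psi a = ∑ j, avgS σ n (fun c => inf c j ^ 2) a := by
    rw [← avgS_sum]; rfl
  rw [e5]
  refine (sum_le_sum fun j _ => (e1 j).trans (e4 j)).trans ?_
  rw [sum_add_distrib, ← mul_sum, ← mul_sum, sum_add_distrib, ← mul_sum, sum_ite_mem']
  have e6 : 1 / R * ∑ j, inf a j ≤ 1 / R * (q * Real.sqrt H) :=
    mul_le_mul_of_nonneg_left e3 (by positivity)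
  have e7 := mul_le_mul_of_nonneg_left (add_le_add e2 e6)
    (by positivity : 0 ≤ 20 * (d : ℝ) / n * H)
  unfold psi
  nlinarith

/-- The induction on the number of remaining steps. -/
lemma phase_ind (h1 : Step1) (h2 : Step2) {ι : Type} [Fintype ι] [DecidableEq ι] {d : ℕ}
    {s s' n q q' l R ε H : ℝ} (hd : 1 ≤ d) (hs : 0 ≤ s) (hq : 0 ≤ q)
    (hc : (Fintype.card ι : ℝ) ≤ n) (hn : 100 * (d : ℝ) ^ 2 ≤ n) (hl : 0 ≤ l) (hR : 1 ≤ R)
    (hε : 0 ≤ ε) (hH : 0 < H) (hB : Bound d s q) (hB' : Bound d s' q')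
    (hK : ∀ σ, s ≤ σ → σ ≤ 1 → Kill d σ q l R ε) (M : ℕ) :
    ∀ (σ : ℝ) (a : Finset ι → ℝ), s ≤ σ → σ * (1 + 1 / n) ^ M ≤ 1 → s' ≤ σ * (1 + 1 / n) ^ M →
      DegLe a d → Box σ a → (∀ j, inf a j ≤ H) →
      tot a ≤ (1 / (1 - 3 / n)) ^ M * (q' * Real.sqrt H + d * (1 + (8 * l + 8) / n) ^ M *
        (psi a / H + M * (20 * d / n * (ε + 1 / R) * q * Real.sqrt H))) := by
  have hd' : (1 : ℝ) ≤ d := by exact_mod_cast hd
  have hn100 : 100 ≤ n := by nlinarith
  have hn0 : 0 < n := by linarith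
  have h3 : 3 / n ≤ 3 / 100 := div_le_div_of_nonneg_left (by norm_num) (by norm_num) hn100
  have h3' : 0 < 3 / n := by positivity
  set α := 1 / (1 - 3 / n) with hα
  set β := 1 + (8 * l + 8) / n with hβ
  set c := 20 * d / n * (ε + 1 / R) * q * Real.sqrt H with hcdef
  have hα1 : 1 ≤ α := by rw [hα, le_div_iff₀ (by linarith)]; linarith
  have hβ1 : 1 ≤ β := by
    have : 0 ≤ (8 * l + 8) / n := by positivity
    linarith
  have hc0 : 0 ≤ c := by positivity
  induction M with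
  | zero =>
    intro σ a _ _ h5 ha hb hi
    have e1 := hB' ι a ha (hb.mono (by simpa using h5)) H hi
    have e2 : 0 ≤ (d : ℝ) * (psi a / H) := mul_nonneg (by linarith) (div_nonneg (psi_nonneg a) hH.le)
    simp only [pow_zero, one_mul, mul_one, Nat.cast_zero, zero_mul, add_zero]
    linarith
  | succ M ih =>
    intro σ a h4 h5 h6 ha hb hi
    have hσ : 0 ≤ σ := hs.trans h4
    have hn1 : 1 ≤ 1 + 1 / n := by
      have : 0 < 1 / n := by positivity
      linarith
    have hσ1 : σ ≤ 1 := le_trans (le_mul_of_one_le_right hσ (one_le_pow₀ hn1)) h5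
    have hαM : 1 ≤ α ^ M := one_le_pow₀ hα1
    have hβM : 1 ≤ β ^ M := one_le_pow₀ hβ1
    have e0 : σ * (1 + 1 / n) * (1 + 1 / n) ^ M = σ * (1 + 1 / n) ^ (M + 1) := by ring
    have e1 : ∀ c' : Finset ι → ℝ, DegLe c' d → Box (σ * (1 + 1 / n)) c' →
        tot c' ≤ α ^ M * (q' * Real.sqrt H + d * β ^ M * (M * c)) +
          α ^ M * (d * β ^ M) * (psi c' / H) := by
      refine cap_del hH ?_ fun c' hc' hb' hi' => ?_
      · have : (d : ℝ) ≤ d * β ^ M := le_mul_of_one_le_right (by linarith) hβM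
        exact this.trans (le_mul_of_one_le_left (by positivity) hαM)
      · have := ih (σ * (1 + 1 / n)) c' (h4.trans (le_mul_of_one_le_right hσ hn1))
          (by rw [e0]; exact h5) (by rw [e0]; exact h6) hc' hb' hi'
        refine this.trans (le_of_eq ?_)
        ring
    have e2 : avgS σ n tot a ≤ α ^ M * (q' * Real.sqrt H + d * β ^ M * (M * c)) +
        α ^ M * (d * β ^ M) / H * avgS σ n psi a := by
      rw [← avgS_affine hn0]
      refine avgS_mono hσ hn0 hc ha hb fun c' hc' hb' => (e1 c' hc' hb').trans (le_of_eq ?_)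
      ring
    have e3 := psi_step h1 h2 hd hσ hσ1 hc hn hl hR hH ha hb hi (hB.mono h4 le_rfl) (hK σ h4 hσ1)
    have e4 : (1 - 3 / n) * tot a ≤ avgS σ n tot a := by
      have : avgS σ n tot a = ∑ j, avgS σ n (fun c => inf c j) a := by
        rw [← avgS_sum]; rfl
      rw [this, tot, mul_sum]
      exact sum_le_sum fun j _ => (h1 ι d σ n a hd hσ hσ1 hc hn ha j).1
    have e5 : tot a ≤ α * avgS σ n tot a := by
      rw [hα, one_div, le_inv_mul_iff₀ (by linarith)]; exact e4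
    have hP : 0 ≤ psi a / H := div_nonneg (psi_nonneg a) hH.le
    have e6 : α ^ M * (d * β ^ M) / H * avgS σ n psi a ≤
        α ^ M * (d * β ^ M) * (β * (psi a / H) + c) := by
      refine (mul_le_mul_of_nonneg_left e3 (by positivity)).trans (le_of_eq ?_)
      rw [← hβ, ← hcdef]
      field_simp
    have e7 : d * β ^ M * (M * c) + d * β ^ M * (β * (psi a / H) + c) ≤
        d * β ^ (M + 1) * (psi a / H + ((M + 1 : ℕ) : ℝ) * c) := by
      have g1 : 0 ≤ (d : ℝ) * β ^ M * (((M : ℝ) + 1) * c) := by positivity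
      have g2 := mul_le_mul_of_nonneg_left hβ1 g1
      push_cast
      rw [pow_succ]
      nlinarith
    refine e5.trans ?_
    rw [pow_succ α M, mul_comm (α ^ M) α, mul_assoc α]
    refine mul_le_mul_of_nonneg_left ?_ (by linarith)
    have e8 := mul_le_mul_of_nonneg_left e7 (by positivity : 0 ≤ α ^ M)
    refine (e2.trans (add_le_add le_rfl e6)).trans ?_
    rw [mul_add (α ^ M)] at e8
    rw [mul_add (α ^ M), mul_add (α ^ M), add_assoc, mul_assoc (α ^ M) (d * β ^ M)]
    exact add_le_add le_rfl e8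

theorem phase (h1 : Step1) (h2 : Step2) : Phase := by
  intro d s q q' l R ε X hd hs hs2 hq hq' hl hR hε hX hB hB' hK ι _ _ a ha hb H hi
  have hd' : (1 : ℝ) ≤ d := by exact_mod_cast hd
  have hR0 : 0 < R := by linarith
  have hX0 : 0 ≤ X := (Real.exp_pos _).le.trans hX
  rcases le_or_gt H 0 with hH | hH
  · rw [tot_eq_zero hH hi]; positivity
  set N : ℕ := Fintype.card ι + 100 * d ^ 2 with hN
  have hN1 : (Fintype.card ι : ℝ) ≤ N := by rw [hN]; push_cast; nlinarith
  have hN2 : 100 * (d : ℝ) ^ 2 ≤ N := by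
    rw [hN]; push_cast; linarith [(Nat.cast_nonneg (Fintype.card ι) : (0 : ℝ) ≤ _)]
  have hN0 : (0 : ℝ) < N := by nlinarith
  set n : ℝ := 10 ^ 6 * N with hn
  have hn0 : 0 < n := by positivity
  have hNn : (N : ℝ) * (1 / n) = 1 / 10 ^ 6 := by rw [hn]; field_simp
  have hRH : 0 < R * H := by positivity
  have b1 : 1 + 1 / 10 ^ 6 ≤ (1 + 1 / n) ^ N := by
    have := one_add_mul_le_pow (a := 1 / n) (by linarith [one_div_pos.2 hn0]) N
    rwa [hNn] at this
  have hexp : ∀ t : ℝ, 0 ≤ t → (1 + t / n) ^ N ≤ Real.exp (t / 10 ^ 6) := by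
    intro t ht
    have e : t / 10 ^ 6 = N * (t / n) := by rw [hn]; field_simp
    rw [e, Real.exp_nat_mul]
    exact pow_le_pow_left₀ (by positivity) (by linarith [Real.add_one_le_exp (t / n)]) N
  have b2 : (1 + 1 / n) ^ N ≤ 2 := by
    refine (hexp 1 zero_le_one).trans ?_
    have := Real.exp_bound_div_one_sub_of_interval' (x := 1 / 10 ^ 6) (by norm_num) (by norm_num)
    refine this.le.trans (by norm_num)
  have b3 : (1 / (1 - 3 / n)) ^ N ≤ 2 := by
    have hn3 : 3 / n ≤ 1 / 2 := by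
      rw [div_le_iff₀ hn0]; nlinarith
    have g1 := one_add_mul_le_pow (a := -(3 / n)) (by linarith) N
    have g2 : (N : ℝ) * -(3 / n) = -(3 / 10 ^ 6) := by rw [hn]; field_simp
    rw [g2, ← sub_eq_add_neg, ← sub_eq_add_neg] at g1
    have g3 : 0 < (1 - 3 / n) ^ N := pow_pos (by linarith) N
    rw [div_pow, one_pow, div_le_iff₀ g3]
    linarith
  have b4 : (1 + (8 * l + 8) / n) ^ N ≤ X := (hexp _ (by linarith)).trans hX
  have hiR : ∀ j, inf a j ≤ R * H := fun j => (hi j).trans (le_mul_of_one_le_left hH.le hR)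
  have key := phase_ind h1 h2 (ι := ι) (n := n) (H := R * H) hd hs hq (by nlinarith)
    (by nlinarith) hl hR hε hRH hB hB' hK N s a le_rfl (by nlinarith)
    (mul_le_mul_of_nonneg_left b1 hs) ha hb hiR
  have hsq : Real.sqrt (R * H) = Real.sqrt R * Real.sqrt H := Real.sqrt_mul hR0.le H
  have hsR : 0 < Real.sqrt R := Real.sqrt_pos.2 hR0
  have hsH : 0 ≤ Real.sqrt H := Real.sqrt_nonneg H
  have p1 : psi a / (R * H) ≤ 1 / R * (q * Real.sqrt H) := by
    have g1 : psi a ≤ H * tot a := by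
      unfold psi tot
      rw [mul_sum]
      exact sum_le_sum fun j _ => by nlinarith [hi j, inf_nonneg a j]
    have g2 := hB ι a ha hb H hi
    rw [div_le_iff₀ hRH]
    have g3 : 1 / R * (q * Real.sqrt H) * (R * H) = H * (q * Real.sqrt H) := by field_simp
    rw [g3]
    exact g1.trans (mul_le_mul_of_nonneg_left g2 hH.le)
  have p2 : (N : ℝ) * (20 * d / n * (ε + 1 / R) * q * Real.sqrt (R * H)) ≤
      d * (ε * Real.sqrt R + 1 / Real.sqrt R) * (q * Real.sqrt H) := by
    have g1 : (ε + 1 / R) * Real.sqrt R = ε * Real.sqrt R + 1 / Real.sqrt R := by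
      have : R = Real.sqrt R * Real.sqrt R := (Real.mul_self_sqrt hR0.le).symm
      rw [add_mul]
      congr 1
      rw [div_mul_eq_mul_div, one_mul, div_eq_div_iff hR0.ne' hsR.ne', one_mul]
      exact this.symm
    have g2 : (N : ℝ) * (20 * d / n * (ε + 1 / R) * q * Real.sqrt (R * H)) =
        20 / 10 ^ 6 * (d * ((ε + 1 / R) * Real.sqrt R) * (q * Real.sqrt H)) := by
      rw [hsq, hn]; field_simp
    rw [g2, g1]
    have g3 : 0 ≤ d * (ε * Real.sqrt R + 1 / Real.sqrt R) * (q * Real.sqrt H) := by positivity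
    nlinarith
  have p3 : 0 ≤ psi a / (R * H) + N * (20 * d / n * (ε + 1 / R) * q * Real.sqrt (R * H)) := by
    have := div_nonneg (psi_nonneg a) hRH.le
    positivity
  have p4 : (d : ℝ) * (1 + (8 * l + 8) / n) ^ N *
      (psi a / (R * H) + N * (20 * d / n * (ε + 1 / R) * q * Real.sqrt (R * H))) ≤
      d * X * (1 / R * (q * Real.sqrt H) +
        d * (ε * Real.sqrt R + 1 / Real.sqrt R) * (q * Real.sqrt H)) :=
    mul_le_mul (mul_le_mul_of_nonneg_left b4 (by linarith)) (add_le_add p1 p2) p3 (by positivity)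
  refine key.trans ?_
  refine (mul_le_mul b3 (add_le_add le_rfl p4) (by positivity) (by norm_num)).trans (le_of_eq ?_)
  rw [hsq]
  ring

end Pool.Agent.MP_9e8696_an.H30
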