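import Pool.Agent.MP_9e8696_an.H30.Basic

/-!
One phase with the parameters chosen and the error absorbed.
-/

namespace Pool.Agent.MP_9e8696_an.H30

open Finset hiding inf
open H67 H8
open scoped BigOperators

namespace Ph2

lemma kill_mono {d : ℕ} {s q l R ε ε' : ℝ} (h : Kill d s q l R ε) (hq : 0 ≤ q) (he : ε ≤ ε') :
    Kill d s q l R ε' := fun ι _ _ a ha hb H hH h1 J h2 h3 =>
  (h ι a ha hb H hH h1 J h2 h3).trans
    (mul_le_mul_of_nonneg_right (mul_le_mul_of_nonneg_right he hq) (Real.sqrt_nonneg _))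

lemma exp_mul_log {D : ℝ} (hD : 0 < D) (n : ℕ) : Real.exp (n * Real.log D) = D ^ n := by
  rw [Real.exp_nat_mul, Real.exp_log hD]

lemma log_ge {D : ℝ} (hD : 2 ≤ D) : 0.69 ≤ Real.log D :=
  (by linarith [Real.log_two_gt_d9] : (0.69 : ℝ) ≤ Real.log 2).trans
    (Real.log_le_log two_pos hD)

lemma eps_le {D : ℝ} (hD : 2 ≤ D) :
    2 ^ 17 * (D / 2) ^ 7 * D ^ 10 / (1 / D ^ 42) ^ 8 * Real.exp (-(48000 * Real.log D / 128)) +
      2 ^ 18 * (D / 2) ^ 22 * D ^ 10 * (1 / D ^ 42) ≤ 1 / D ^ 10 := by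
  have h0 : 0 < D := by linarith
  have e : Real.exp (-(48000 * Real.log D / 128)) = 1 / D ^ 375 := by
    rw [Real.exp_neg, one_div, ← exp_mul_log h0]
    congr 2
    push_cast
    ring
  have h1 : 2 ^ 17 * (D / 2) ^ 7 * D ^ 10 / (1 / D ^ 42) ^ 8 * (1 / D ^ 375) =
      2 ^ 10 / D ^ 12 * (1 / D ^ 10) := by
    field_simp
  have h2 : 2 ^ 18 * (D / 2) ^ 22 * D ^ 10 * (1 / D ^ 42) = 1 / 16 * (1 / D ^ 10) := by
    field_simp
    norm_num
  have h3 : (2 : ℝ) ^ 10 / D ^ 12 ≤ 1 / 4 := by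
    rw [div_le_iff₀ (by positivity)]
    have := pow_le_pow_left₀ (by norm_num : (0 : ℝ) ≤ 2) hD 12
    linarith
  have h4 : (0 : ℝ) ≤ 1 / D ^ 10 := by positivity
  rw [e, h1, h2]
  nlinarith

lemma fac_le {D : ℝ} (hD : 2 ≤ D) :
    D * D * (1 / D ^ 10 + D / 2 * (1 / D ^ 10 * D ^ 5 + 1 / D ^ 5)) ≤ 1 / 2 := by
  have h0 : 0 < D := by linarith
  have e : D * D * (1 / D ^ 10 + D / 2 * (1 / D ^ 10 * D ^ 5 + 1 / D ^ 5)) =
      1 / D ^ 8 + 1 / D ^ 2 := by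
    field_simp
    ring
  have h1 : 1 / D ^ 8 ≤ 1 / 2 ^ 8 :=
    one_div_le_one_div_of_le (by norm_num) (pow_le_pow_left₀ (by norm_num) hD 8)
  have h2 : 1 / D ^ 2 ≤ 1 / 2 ^ 2 :=
    one_div_le_one_div_of_le (by norm_num) (pow_le_pow_left₀ (by norm_num) hD 2)
  rw [e]
  linarith

lemma step (hP : Phase) (hK : KillAll) {d : ℕ} {s q q' : ℝ} (hd : 1 ≤ d) (hs : 0 ≤ s)
    (hs' : s ≤ 1 / 2) (hq : 0 ≤ q) (hq' : 0 ≤ q') (h1 : Bound d s q)
    (h2 : Bound d (s * (1 + 1 / 10 ^ 6)) q') :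
    Bound d s (2 * (2 * (d : ℝ)) ^ 5 * q' + q / 2) := by
  obtain ⟨D, hD⟩ : ∃ D : ℝ, D = 2 * d := ⟨_, rfl⟩
  have d1 : (1 : ℝ) ≤ d := by exact_mod_cast hd
  have D2 : 2 ≤ D := by linarith
  have D0 : 0 < D := by linarith
  have D1 : 1 ≤ D := by linarith
  have ed : (d : ℝ) = D / 2 := by linarith
  have hl := log_ge D2
  have sq : Real.sqrt (D ^ 10) = D ^ 5 := by
    rw [show D ^ 10 = (D ^ 5) ^ 2 by ring, Real.sqrt_sq (by positivity)]
  have hX : Real.exp ((8 * (48000 * Real.log D) + 8) / 10 ^ 6) ≤ D := by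
    refine le_of_le_of_eq (Real.exp_le_exp.2 ?_) (Real.exp_log D0)
    linarith
  have k1 : 8 * (d : ℝ) ^ 5 ≤ Real.exp (48000 * Real.log D / 16) := by
    have e : Real.exp (48000 * Real.log D / 16) = D ^ 3000 := by
      rw [← exp_mul_log D0]
      congr 1
      push_cast
      ring
    have := pow_le_pow_right₀ D1 (by norm_num : 5 ≤ 3000)
    have h5 : 0 ≤ D ^ 5 := by positivity
    rw [e, ed]
    generalize D ^ 3000 = T at this ⊢
    linarith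
  have k2 : 16 * (d : ℝ) ^ 5 * (1 / D ^ 42) ≤ 1 := by
    have := pow_le_pow_right₀ D1 (by norm_num : 5 ≤ 42)
    have h5 : 0 ≤ D ^ 5 := by positivity
    rw [mul_one_div, div_le_one (by positivity), ed]
    linarith
  have R1 : 1 ≤ D ^ 10 := one_le_pow₀ D1
  have kill : ∀ σ, s ≤ σ → σ ≤ 1 → Kill d σ q (48000 * Real.log D) (D ^ 10) (1 / D ^ 10) := by
    intro σ a1 a2
    refine kill_mono (hK d σ q _ _ (1 / D ^ 42) hd (hs.trans a1) a2 hq (by linarith) k1 R1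
      (by positivity) k2 (h1.mono a1 le_rfl)) hq ?_
    rw [ed]
    exact eps_le D2
  have := hP d s q q' _ _ _ D hd hs hs' hq hq' (by linarith) R1 (by positivity) hX h1 h2 kill
  refine this.mono le_rfl ?_
  rw [sq, ← hD, ed]
  have f := mul_le_mul_of_nonneg_right (fac_le D2) hq
  linarith

end Ph2

theorem phase2 (hP : Phase) (hK : KillAll)
    (h0 : ∀ (d : ℕ) (s : ℝ), 1 ≤ d → 0 ≤ s → Bound d s (d * (64 * (d : ℝ) ^ 3) ^ d)) : Phase2 := by
  intro d s q' hd hs hs' hq' h2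
  obtain ⟨q₀, e₀⟩ : ∃ q₀ : ℝ, q₀ = d * (64 * (d : ℝ) ^ 3) ^ d := ⟨_, rfl⟩
  obtain ⟨c, ec⟩ : ∃ c : ℝ, c = (2 * (d : ℝ)) ^ 5 * q' := ⟨_, rfl⟩
  have q0 : 0 ≤ q₀ := by rw [e₀]; positivity
  have c0 : 0 ≤ c := by rw [ec]; positivity
  have it : ∀ k : ℕ, Bound d s (4 * c + q₀ * (1 / 2) ^ k) := by
    intro k
    induction k with
    | zero => exact (h0 d s hd hs).mono le_rfl (by rw [← e₀]; linarith [pow_zero (1 / 2 : ℝ)])
    | succ k ih =>
      refine (Ph2.step hP hK hd hs hs' (by positivity) hq' ih h2).mono le_rfl (le_of_eq ?_)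
      rw [pow_succ, ec]
      ring
  have lim : Bound d s (4 * c) := by
    intro ι _ _ a ha hb H hH
    have t : Filter.Tendsto (fun k : ℕ => (4 * c + q₀ * (1 / 2) ^ k) * Real.sqrt H) Filter.atTop
        (nhds ((4 * c + q₀ * 0) * Real.sqrt H)) :=
      (((tendsto_pow_atTop_nhds_zero_of_lt_one (by norm_num) (by norm_num)).const_mul
        q₀).const_add _).mul_const _
    rw [mul_zero, add_zero] at t
    exact ge_of_tendsto' t fun k => it k ι a ha hb H hH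
  refine lim.mono le_rfl ?_
  have d1 : (1 : ℝ) ≤ d := by exact_mod_cast hd
  have h4 : (4 : ℝ) ≤ (2 * (d : ℝ)) ^ 2 := by nlinarith
  calc 4 * c ≤ (2 * (d : ℝ)) ^ 2 * c := mul_le_mul_of_nonneg_right h4 c0
    _ = (2 * (d : ℝ)) ^ 7 * q' := by rw [ec]; ring

end Pool.Agent.MP_9e8696_an.H30
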