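import Mathlib
import Pool.Agent.MP_9e8696_an.H30.Basic

/-!
Planting on disjoint blocks.
-/

set_option linter.unusedSectionVars false

namespace Pool.Agent.MP_9e8696_an.H30

open Finset hiding inf
open H67 H8
open scoped BigOperators

namespace PlantA

variable {ι : Type} [Fintype ι] [DecidableEq ι]

/-- The point at which the blocks of `A` are planted. -/
def pnt (J : Finset ι) (B : ι → Finset ι) (τ : ι → ι → ℝ) (w : ι → ℝ) (A : Finset ι) (i : ι) : ℝ :=
  w i + ∑ j ∈ J, (if i ∈ B j then τ j i - w i else 0) * idc A j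

variable {J : Finset ι} {B : ι → Finset ι} {τ : ι → ι → ℝ} {w : ι → ℝ}

lemma pnt_le {r : ℝ} (hB : ∀ j ∈ J, ∀ k ∈ J, j ≠ k → Disjoint (B j) (B k))
    (hτ : ∀ j i, |τ j i| ≤ r) (hw : ∀ i, |w i| ≤ r) (A : Finset ι) (i : ι) :
    |pnt J B τ w A i| ≤ r := by
  unfold pnt
  by_cases hex : ∃ j ∈ J, i ∈ B j ∧ j ∈ A
  · obtain ⟨j, hj, hi, hA⟩ := hex
    rw [sum_eq_single_of_mem j hj fun k hk hkj => by
      rw [if_neg fun h => disjoint_left.1 (hB k hk j hj hkj) h hi, zero_mul]]
    simpa [hi, idc, hA] using hτ j i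
  · rw [sum_eq_zero, add_zero]
    · exact hw i
    · intro j hj
      by_cases hi : i ∈ B j
      · have : j ∉ A := fun h => hex ⟨j, hj, hi, h⟩
        simp [idc, this]
      · simp [hi]

lemma pnt_empty : pnt J B τ w ∅ = w := by
  funext i
  simp [pnt, idc]

lemma pnt_out {j : ι} (hj : j ∉ J) : pnt J B τ w {j} = w := by
  funext i
  rw [pnt, sum_eq_zero, add_zero]
  intro k hk
  have : k ≠ j := fun h => hj (h ▸ hk)
  simp [idc, this]

lemma pnt_in {j : ι} (hj : j ∈ J) : pnt J B τ w {j} = fun i => if i ∈ B j then τ j i else w i := by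
  funext i
  rw [pnt, sum_eq_single_of_mem j hj fun k _ hkj => by simp [idc, hkj]]
  split_ifs <;> simp [idc]

end PlantA

open PlantA in
theorem plant30 : Plant := by
  intro ι _ _ d s a _ _ ha hb J B ζ hj hB hζ σ w hσ hw
  let τ : ℝ → ι → ι → ℝ := fun t j i => if i = j then t * σ j else ζ j i
  let Φ : ℝ → Finset ι → ℝ := fun t A => F a (pnt J B (τ t) w A)
  have h1 : ∀ t : ℝ, |t| = 1 → |∑ j, (Φ t {j} - F a w)| ≤ 2 * (d : ℝ) ^ 2 := fun t ht => by
    have h := sens (Φ := Φ t) (DegS_F ha w J fun i j => if i ∈ B j then τ t j i - w i else 0) 1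
      one_pos fun A => hb _ (pnt_le hB (fun j i => by
        simp only [τ]
        split_ifs
        · rw [abs_mul, ht, one_mul]
          exact hσ j
        · exact hζ j i) hw A)
    simpa only [Φ, pnt_empty, one_mul] using h
  have h2 : ∀ j, (Φ 1 {j} - F a w) - (Φ (-1) {j} - F a w) =
      if j ∈ J then 2 * (σ j * F (rp (B j) (ζ j) (sh {j} a)) w) else 0 := fun j => by
    split_ifs with h
    · have e : ∀ t, pnt J B (τ t) w {j} =
          Function.update (fun i => if i ∈ B j then ζ j i else w i) j (t * σ j) := fun t => by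
        rw [pnt_in h]
        funext i
        by_cases hi : i = j
        · subst hi
          simp [τ, hj i h]
        · simp [τ, hi]
      simp only [Φ, e]
      rw [sub_sub_sub_cancel_right, F_update_sub, F_rp]
      ring
    · simp only [Φ, pnt_out h, sub_self]
  have h3 := (abs_sub _ _).trans (add_le_add (h1 1 abs_one) (h1 (-1) (by simp)))
  rw [← sum_sub_distrib] at h3
  simp only [h2] at h3
  rw [← sum_filter, filter_mem_eq_inter, univ_inter, ← mul_sum, abs_mul, abs_two] at h3
  linarith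

end Pool.Agent.MP_9e8696_an.H30
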