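import Pool.Agent.MP_9e8696_an.H30.Basic

/-! Choice of one outcome for each index. -/

namespace Pool.Agent.MP_9e8696_an.H30

open Finset hiding inf
open H67 H8

namespace SelL

variable {ι Ω : Type} [Fintype ι] [DecidableEq ι] [Fintype Ω]

lemma on (ν : ι → Ω → ℝ) (h1 : ∀ j, ∑ x, ν j x = 1) (T : Finset ι) (g : ι → Ω → ℝ) :
    ∑ ω : ι → Ω, (∏ j, ν j (ω j)) * ∏ j ∈ T, g j (ω j) = ∏ j ∈ T, ∑ x, ν j x * g j x := by
  have h := Ep_prod ν fun j x => if j ∈ T then g j x else 1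
  simp only [prod_ite_mem, univ_inter] at h
  rw [h, ← univ_inter T, ← prod_ite_mem, univ_inter]
  refine prod_congr rfl fun j _ => ?_
  by_cases hj : j ∈ T <;> simp [hj, h1]

omit [Fintype ι] in
lemma off (J : Finset ι) (u : ι → ℝ) :
    (∑ j ∈ J, u j) ^ 2 - ∑ j ∈ J, u j ^ 2 = ∑ j ∈ J, ∑ k ∈ J.erase j, u j * u k := by
  rw [sq, sum_mul_sum, ← sum_sub_distrib]
  refine sum_congr rfl fun j hj => ?_
  rw [← add_sum_erase J _ hj]
  ring

end SelL

open SelL

theorem sel : Sel := by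
  intro ι Ω _ _ _ J ν A c κ hκ h0 h1 _
  have w1 := on ν h1 ∅ A
  simp only [prod_empty, mul_one] at w1
  by_contra hn
  push Not at hn
  have hne : ∃ ω : ι → Ω, 0 < ∏ j, ν j (ω j) := by
    by_contra h
    push Not at h
    linarith [sum_nonpos (s := univ) fun ω _ => h ω]
  obtain ⟨ω₀, h₀⟩ := hne
  have k := sum_lt_sum (s := univ)
    (fun ω _ => mul_le_mul_of_nonneg_left (hn ω).le (prod_nonneg fun j _ => h0 j (ω j)))
    ⟨ω₀, mem_univ _, mul_lt_mul_of_pos_left (hn ω₀) h₀⟩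
  rw [← sum_mul, w1, one_mul] at k
  have e1 : ∑ ω : ι → Ω, (∏ j, ν j (ω j)) * ∑ j ∈ J, A j (ω j) = ∑ j ∈ J, ∑ x, ν j x * A j x := by
    simp only [mul_sum]
    rw [sum_comm]
    exact sum_congr rfl fun j _ => by simpa using on ν h1 {j} A
  have e2 : ∀ i, ∑ ω : ι → Ω, (∏ j, ν j (ω j)) *
      ((∑ j ∈ J, c j (ω j) i) ^ 2 - ∑ j ∈ J, c j (ω j) i ^ 2) ≤
        (∑ j ∈ J, ∑ x, ν j x * c j x i) ^ 2 := fun i => by
    refine le_trans (le_of_eq ?_) (sub_le_self _
      (sum_nonneg (s := J) fun j _ => sq_nonneg (∑ x, ν j x * c j x i)))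
    simp only [off]
    simp only [mul_sum J, mul_sum (J.erase _)]
    rw [sum_comm]
    refine sum_congr rfl fun j _ => ?_
    rw [sum_comm]
    refine sum_congr rfl fun l hl => ?_
    have h := on ν h1 {j, l} fun j x => c j x i
    simpa only [prod_pair (ne_of_mem_erase hl).symm] using h
  have e3 := mul_le_mul_of_nonneg_left (sum_le_sum (s := univ) fun i _ => e2 i) hκ
  rw [sum_comm] at e3
  simp only [← mul_sum] at e3
  simp only [mul_sub (∏ j, ν j _), sum_sub_distrib, e1, mul_left_comm _ κ, ← mul_sum] at k e3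
  linarith

end Pool.Agent.MP_9e8696_an.H30
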