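import Pool.Agent.MP_9e8696_an.H30.Basic

/-! A maximal selection with bounded column loads. -/

namespace Pool.Agent.MP_9e8696_an.H30

open Finset hiding inf

theorem selS : SelS := by
  intro ι _ _ J m x h g l E C h0 g0 l0 C0 hm hx hg hl hE hC
  obtain ⟨⟨J₁, I⟩, hp, mx⟩ := exists_max_image (univ.filter fun p : Finset ι × (ι → Finset ι) =>
    p.1 ⊆ J ∧ (∀ j ∈ p.1, l / 2 ≤ ∑ i ∈ p.2 j, x j i) ∧
      ∀ i, ∑ j ∈ p.1, (if i ∈ p.2 j then x j i else 0) ≤ 2 * g) (fun p => p.1.card)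
    ⟨(∅, fun _ => ∅), by simp [g0.le]⟩
  obtain ⟨h1, h2, h3⟩ := (mem_filter.1 hp).2
  dsimp only at h1 h2 h3
  refine ⟨J₁, h1, I, h2, h3, ?_⟩
  obtain ⟨F, hF⟩ : ∃ F : Finset ι, ∀ i, i ∈ F ↔ g < ∑ j ∈ J₁, (if i ∈ I j then x j i else 0) :=
    ⟨univ.filter fun i => g < _, fun i => mem_filter_univ i⟩
  have a : ∀ j ∈ J \ J₁, l / 2 ≤ ∑ i ∈ F, x j i := fun j hj => le_of_not_gt fun c => by
    obtain ⟨j1, j2⟩ := mem_sdiff.1 hj
    have e : ∀ k ∈ J₁, Function.update I j Fᶜ k = I k := fun k hk =>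
      Function.update_of_ne (ne_of_mem_of_not_mem hk j2) _ _
    refine (mx (insert j J₁, Function.update I j Fᶜ) (mem_filter.2 ⟨mem_univ _, insert_subset j1 h1,
      forall_mem_insert _ _ _ |>.2 ⟨?_, fun k hk => ?_⟩, fun i => ?_⟩)).not_gt
      (by simp [j2]) <;> dsimp only
    · rw [Function.update_self]
      linarith [sum_add_sum_compl F (x j), hl j j1]
    · rw [e k hk]
      exact h2 k hk
    · rw [sum_insert j2, sum_congr rfl (g := fun k => if i ∈ I k then x k i else 0) fun k hk => by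
        simp only [e k hk]]
      simp only [Function.update_self]
      split_ifs with c
      · linarith [hg j j1 i, le_of_not_gt (mt (hF i).2 (mem_compl.1 c))]
      · linarith [h3 i]
  have m0 : ∀ j ∈ J, 0 ≤ m j := fun j hj => h0.le.trans (hm j hj)
  have b : l / 2 * ∑ j ∈ J \ J₁, m j ≤ F.card * C := by
    rw [mul_comm, sum_mul, ← nsmul_eq_mul]
    refine (sum_le_sum fun j hj => (mul_le_mul_of_nonneg_left (a j hj)
      (m0 j (mem_sdiff.1 hj).1)).trans_eq (mul_sum _ _ _)).trans (sum_comm.trans_le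
      (sum_le_card_nsmul _ _ _ fun i _ => le_trans ?_ (hC i)))
    exact sum_le_sum_of_subset_of_nonneg sdiff_subset fun j hj _ => mul_nonneg (m0 j hj) (hx j i)
  have c : F.card * g ≤ J₁.card * E := by
    rw [← nsmul_eq_mul, ← nsmul_eq_mul]
    refine (card_nsmul_le_sum _ _ _ fun i hi => ((hF i).1 hi).le).trans (sum_comm.trans_le
      (sum_le_card_nsmul _ _ _ fun j hj => le_trans ?_ (hE j (h1 hj))))
    refine (sum_le_sum fun i _ => ?_).trans (sum_le_univ_sum_of_nonneg (hx j))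
    split_ifs
    exacts [le_rfl, hx j i]
  have d : J₁.card * h ≤ ∑ j ∈ J₁, m j := by
    rw [← nsmul_eq_mul]
    exact card_nsmul_le_sum _ _ _ fun j hj => hm j (h1 hj)
  rcases J.eq_empty_or_nonempty with rfl | ⟨j, hj⟩
  · simp [subset_empty.1 h1]
  have E0 := l0.le.trans ((hl j hj).trans (hE j hj))
  rw [← sum_sdiff h1, add_mul, one_mul, add_comm, add_le_add_iff_left, div_mul_eq_mul_div,
    le_div_iff₀ (by positivity)]
  nlinarith [mul_le_mul_of_nonneg_right b (mul_pos g0 h0).le,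
    mul_le_mul_of_nonneg_right c (mul_nonneg C0 h0.le),
    mul_le_mul_of_nonneg_right d (mul_nonneg C0 E0)]

end Pool.Agent.MP_9e8696_an.H30
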