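import Mathlib
import Pool.Agent.MP_9e8696_an.H30.Basic

/-!
Small tilts with small column loads carry little weight.
-/

namespace Pool.Agent.MP_9e8696_an.H30

open Finset hiding inf
open H67 H8
open scoped BigOperators

lemma fam_base {ι : Type*} [Fintype ι] [DecidableEq ι] {d : ℕ} (hd : 1 ≤ d) {s : ℝ} (hs : 0 ≤ s)
    {a : Finset ι → ℝ} (ha : DegLe a d) (hb : Box s a) (J : Finset ι) :
    Fam J (fun j => sh {j} a) (Real.sqrt (1 + s))
      (Real.sqrt (1 + s) * (1 - 1 / (4 * (d : ℝ)))) (8 * (d : ℝ) ^ 3) := by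
  intro σ w hσ hw
  set r := Real.sqrt (1 + s) with hr
  have hr1 : 1 ≤ r := one_le_rad hs
  have hr0 : 0 < r := by linarith
  have hB : Bdd (dmp r a) := by
    intro v hv
    rw [F_dmp]
    refine hb _ fun i => ?_
    rw [abs_mul, abs_of_pos hr0]
    exact mul_le_of_le_one_right hr0.le (hv i)
  have h := l1_bound hd (degLe_dmp ha r) hB (fun i => w i / r)
    (fun i => by
      rw [abs_div, abs_of_pos hr0, div_le_iff₀ hr0, mul_comm]
      exact hw i)
    (fun j => if j ∈ J then σ j / r else 0)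
    (fun j => by
      split_ifs
      · rw [abs_div, abs_of_pos hr0, div_le_one hr0]
        exact hσ j
      · simp)
  have h1 : ∀ j, F (sh {j} (dmp r a)) (fun i => w i / r) = r * F (sh {j} a) w := by
    intro j
    rw [sh_dmp, F_smul, F_dmp]
    congr 2
    funext i
    field_simp
  simp only [h1, ite_mul, zero_mul] at h
  rw [← sum_filter, filter_mem_eq_inter, univ_inter] at h
  have h2 : ∀ j, σ j / r * (r * F (sh {j} a) w) = σ j * F (sh {j} a) w := fun j => by field_simp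
  simpa only [h2] using h

theorem small1 (hS : SumG) (hD : DirStep) (hU : UkFacts) (hJ : Jensen3) : Small1 := by
  intro d s q l γ hd hs hq hl hγ hγ1 hBd ι _ _ a ha hb H hH hinf J I hrow hcol
  have hd' : (1 : ℝ) ≤ d := by exact_mod_cast hd
  have hd0 : (0 : ℝ) < d := by linarith
  set r := Real.sqrt (1 + s) with hr
  have hr1 : 1 ≤ r := one_le_rad hs
  set b : ι → ι → ℝ := fun j i => if i ∈ I j then dl (sh {j} a) i / 4 else 0 with hbdef
  have hbsq : ∀ j i, b j i ^ 2 = (if i ∈ I j then dl (sh {j} a) i ^ 2 else 0) / 16 := by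
    intro j i
    simp only [hbdef]
    split_ifs <;> ring
  have hc : ∀ i, ∑ j ∈ J, b j i ^ 2 ≤ γ ^ 2 := by
    intro i
    simp only [hbsq]
    rw [← sum_div]
    have := hcol i
    nlinarith [sq_nonneg γ]
  have hrw : ∀ j, ∑ i, b j i ^ 2 ≤ d := by
    intro j
    have h1 : ∑ i, b j i ^ 2 ≤ ∑ i, dl (sh {j} a) i ^ 2 / 16 := by
      refine sum_le_sum fun i _ => ?_
      rw [hbsq]
      split_ifs
      · exact le_rfl
      · rw [zero_div]; positivity
    rw [← sum_div] at h1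
    have := row_bound ha j
    linarith
  have hFam : ∀ k : ℕ, Fam J (fun j => uk k (b j) (sh {j} a)) r
      (r * (1 - 1 / (4 * (d : ℝ))) - k * (1 / (4 * (d : ℝ) ^ 2)))
      (8 * (d : ℝ) ^ 3 * (16 * (d : ℝ) ^ 4 * γ) ^ k) := by
    intro k
    induction k with
    | zero =>
      have h0 : ∀ j, uk 0 (b j) (sh {j} a) = sh {j} a := fun j => (hU ι (b j) (sh {j} a)).1
      simpa only [h0, Nat.cast_zero, zero_mul, sub_zero, pow_zero, mul_one]
        using fam_base hd hs ha hb J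
    | succ k ih =>
      have h1 := hD ι d J (fun j => uk k (b j) (sh {j} a)) b r
        (r * (1 - 1 / (4 * (d : ℝ))) - ((k + 1 : ℕ) : ℝ) * (1 / (4 * (d : ℝ) ^ 2)))
        (1 / (4 * (d : ℝ) ^ 2)) γ (8 * (d : ℝ) ^ 3 * (16 * (d : ℝ) ^ 4 * γ) ^ k)
        (by positivity) hγ (by positivity)
        (fun j _ => (hU ι (b j) (sh {j} a)).2.2.2.1 d (ha.sh {j}) k) hc
        (by
          have : r * (1 - 1 / (4 * (d : ℝ))) - ((k + 1 : ℕ) : ℝ) * (1 / (4 * (d : ℝ) ^ 2)) +
              1 / (4 * (d : ℝ) ^ 2) =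
              r * (1 - 1 / (4 * (d : ℝ))) - k * (1 / (4 * (d : ℝ) ^ 2)) := by
            push_cast; ring
          rw [this]; exact ih)
      intro σ w hσ hw
      have hk : (0 : ℝ) < (k : ℝ) + 1 := by positivity
      have h2 := h1 (fun j => σ j / ((k : ℝ) + 1)) w (fun j => by
        rw [abs_div, abs_of_pos hk]
        refine (div_le_self (abs_nonneg _) ?_).trans (hσ j)
        linarith [Nat.cast_nonneg (α := ℝ) k]) hw
      have h3 : ∀ j, σ j / ((k : ℝ) + 1) * F (dir (b j) (uk k (b j) (sh {j} a))) w =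
          σ j * F (uk (k + 1) (b j) (sh {j} a)) w := by
        intro j
        rw [(hU ι (b j) (sh {j} a)).2.1 k, F_smul]
        field_simp
      simp only [h3] at h2
      refine h2.trans (le_of_eq ?_)
      field_simp
      ring
  set ρ : ℝ := 1 - 1 / (2 * (d : ℝ)) with hρ
  have hρ1 : ρ ≤ 1 := by
    have : 0 < 1 / (2 * (d : ℝ)) := by positivity
    linarith
  have hhalf : 1 / (2 * (d : ℝ)) ≤ 1 / 2 := one_div_le_one_div_of_le (by norm_num) (by linarith)
  have hρ0 : 0 ≤ ρ := by linarith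
  have hρd : 1 / 4 ≤ ρ ^ (2 * d) := by
    have h1 : 1 + (d : ℝ) * (-(1 / (2 * (d : ℝ)))) ≤ (1 + -(1 / (2 * (d : ℝ)))) ^ d :=
      one_add_mul_le_pow (by linarith) d
    have h2 : (d : ℝ) * (-(1 / (2 * (d : ℝ)))) = -(1 / 2) := by field_simp
    rw [h2, ← sub_eq_add_neg, ← sub_eq_add_neg, ← hρ] at h1
    rw [mul_comm, pow_mul]
    nlinarith
  have hlev : ∀ k ∈ Icc 3 d, ∑ j ∈ J, nrm (uk k (b j) (sh {j} a)) ≤
      32 * (d : ℝ) ^ 4 * (16 * (d : ℝ) ^ 5 * γ) ^ 3 * q * Real.sqrt H := by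
    intro k hk
    obtain ⟨hk3, hkd⟩ := mem_Icc.1 hk
    have hkd' : (k : ℝ) ≤ d := by exact_mod_cast hkd
    have hτ : ((d : ℝ) ^ 2) ^ k * d * H ≤ ((d : ℝ) ^ (k + 1)) ^ 2 * H := by
      refine mul_le_mul_of_nonneg_right ?_ hH.le
      have : ((d : ℝ) ^ (k + 1)) ^ 2 = ((d : ℝ) ^ 2) ^ k * d * d := by ring
      rw [this]
      exact le_mul_of_one_le_right (by positivity) hd'
    have hG := hS d s q hd hs hq hBd ι J (fun j => dmp ρ (uk k (b j) (sh {j} a)))
      (8 * (d : ℝ) ^ 3 * (16 * (d : ℝ) ^ 4 * γ) ^ k) (((d : ℝ) ^ (k + 1)) ^ 2 * H)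
      (by positivity) (by positivity)
      (fun j _ => degLe_dmp ((hU ι (b j) (sh {j} a)).2.2.2.1 (d - 1) (degLe_sh_pred ha j) k) ρ)
      (by
        intro σ w hσ hw
        simp only [F_dmp]
        refine hFam k σ _ hσ fun i => ?_
        rw [abs_mul, abs_of_nonneg hρ0]
        refine (mul_le_mul_of_nonneg_left (hw i) hρ0).trans ?_
        have h1 : (k : ℝ) * (1 / (4 * (d : ℝ) ^ 2)) ≤ 1 / (4 * (d : ℝ)) := by
          rw [mul_one_div, div_le_div_iff₀ (by positivity) (by positivity)]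
          nlinarith
        have h2 : 1 / (4 * (d : ℝ)) ≤ r * (1 / (4 * (d : ℝ))) :=
          le_mul_of_one_le_left (by positivity) hr1
        have h3 : ρ = 1 - 1 / (4 * (d : ℝ)) - 1 / (4 * (d : ℝ)) := by
          rw [hρ]; field_simp; ring
        rw [h3, ← hr]
        nlinarith)
      (by
        intro j _
        refine (nrm_dmp_le ρ (by rw [abs_of_nonneg hρ0]; exact hρ1) _).trans ?_
        refine ((hU ι (b j) (sh {j} a)).2.2.2.2.1 d (ha.sh {j}) (hrw j) k).trans ?_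
        refine le_trans ?_ hτ
        rw [mul_assoc]
        refine mul_le_mul_of_nonneg_left ((hinf j).trans ?_) (by positivity)
        exact le_mul_of_one_le_left hH.le hd')
    have hcap : ∀ i, ∑ j ∈ J, inf (dmp ρ (uk k (b j) (sh {j} a))) i ≤
        ((d : ℝ) ^ (k + 1)) ^ 2 * H := by
      intro i
      refine le_trans ?_ hτ
      calc ∑ j ∈ J, inf (dmp ρ (uk k (b j) (sh {j} a))) i
          ≤ ∑ j ∈ J, ((d : ℝ) ^ 2) ^ k * inf (sh {j} a) i := by
            refine sum_le_sum fun j _ => ?_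
            refine (inf_dmp_le ρ (by rw [abs_of_nonneg hρ0]; exact hρ1) _ i).trans ?_
            unfold H67.inf
            rw [(hU ι (b j) (sh {j} a)).2.2.1 k i]
            exact (hU ι (b j) (sh {i} (sh {j} a))).2.2.2.2.1 d ((ha.sh {j}).sh {i}) (hrw j) k
        _ ≤ ∑ j, ((d : ℝ) ^ 2) ^ k * inf (sh {j} a) i :=
            sum_le_sum_of_subset_of_nonneg (subset_univ J) fun j _ _ =>
              mul_nonneg (by positivity) (inf_nonneg _ _)
        _ ≤ ((d : ℝ) ^ 2) ^ k * d * H := by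
            rw [← mul_sum, mul_assoc]
            refine mul_le_mul_of_nonneg_left ((col_inf ha i).trans ?_) (by positivity)
            exact mul_le_mul_of_nonneg_left (hinf i) hd0.le
    rw [sum_eq_zero (s := univ) (fun i _ => if_neg (not_lt.2 (hcap i))), add_zero,
      Real.sqrt_mul (by positivity), Real.sqrt_sq (by positivity)] at hG
    have h4 : ∑ j ∈ J, nrm (uk k (b j) (sh {j} a)) ≤
        4 * ∑ j ∈ J, nrm (dmp ρ (uk k (b j) (sh {j} a))) := by
      rw [mul_sum]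
      refine sum_le_sum fun j _ => ?_
      have h5 := nrm_dmp_ge ρ hρ0 hρ1 ((hU ι (b j) (sh {j} a)).2.2.2.1 d (ha.sh {j}) k)
      have h6 := nrm_nonneg (uk k (b j) (sh {j} a))
      nlinarith
    have h7 : (16 * (d : ℝ) ^ 5 * γ) ^ k ≤ (16 * (d : ℝ) ^ 5 * γ) ^ 3 :=
      pow_le_pow_of_le_one (by positivity) hγ1 hk3
    calc ∑ j ∈ J, nrm (uk k (b j) (sh {j} a))
        ≤ 4 * (8 * (d : ℝ) ^ 3 * (16 * (d : ℝ) ^ 4 * γ) ^ k * q *
            ((d : ℝ) ^ (k + 1) * Real.sqrt H)) := by linarith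
      _ = 32 * (d : ℝ) ^ 4 * (16 * (d : ℝ) ^ 5 * γ) ^ k * (q * Real.sqrt H) := by
          simp only [mul_pow]; ring
      _ ≤ 32 * (d : ℝ) ^ 4 * (16 * (d : ℝ) ^ 5 * γ) ^ 3 * (q * Real.sqrt H) := by gcongr
      _ = _ := by ring
  calc ∑ j ∈ J, inf a j ≤ ∑ j ∈ J, ∑ k ∈ Icc 3 d, nrm (uk k (b j) (sh {j} a)) :=
        sum_le_sum fun j hj => hJ ι d l (sh {j} a) (I j) hd (ha.sh {j}) hl (hrow j hj)
    _ = ∑ k ∈ Icc 3 d, ∑ j ∈ J, nrm (uk k (b j) (sh {j} a)) := sum_comm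
    _ ≤ (Icc 3 d).card • (32 * (d : ℝ) ^ 4 * (16 * (d : ℝ) ^ 5 * γ) ^ 3 * q * Real.sqrt H) :=
        sum_le_card_nsmul _ _ _ hlev
    _ ≤ d * (32 * (d : ℝ) ^ 4 * (16 * (d : ℝ) ^ 5 * γ) ^ 3 * q * Real.sqrt H) := by
        rw [nsmul_eq_mul]
        refine mul_le_mul_of_nonneg_right ?_ (by positivity)
        rw [Nat.card_Icc]
        exact_mod_cast (by omega : d + 1 - 3 ≤ d)
    _ = _ := by ring

end Pool.Agent.MP_9e8696_an.H30
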