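import Pool.Agent.MP_9e8696_an.H30.Basic

/-! First moments of the influences in one step. -/

namespace Pool.Agent.MP_9e8696_an.H30

open Finset hiding inf
open H67 H8
open scoped BigOperators

namespace Step1A

variable {ι : Type} [Fintype ι] [DecidableEq ι]

lemma two (W e : Finset ι → ℝ) (r : ℝ) (i : ι) :
    (∑ T, W T * res i r e T ^ 2 + ∑ T, W T * res i (-r) e T ^ 2) / 2 =
      ∑ T, (if i ∈ T then r ^ 2 * W (T.erase i) else W T) * e T ^ 2 := by
  have h1 := sum_sh {i} fun S R => r ^ 2 * W R * e S ^ 2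
  have h2 : ∑ T, (if i ∈ T then r ^ 2 * W (T.erase i) else W T) * e T ^ 2 =
      (∑ S : Finset ι, if ({i} : Finset ι) ⊆ S then r ^ 2 * W (S \ {i}) * e S ^ 2 else 0) +
        ∑ T, if i ∈ T then 0 else W T * e T ^ 2 := by
    rw [← sum_add_distrib]
    refine sum_congr rfl fun T _ => ?_
    by_cases h : i ∈ T <;> simp [h, sdiff_singleton_eq_erase]
  rw [h2, ← h1, ← sum_add_distrib, ← sum_add_distrib, sum_div]
  refine sum_congr rfl fun T _ => ?_
  by_cases h : i ∈ T <;> simp only [res, del, sh, disjoint_singleton_right, h, not_true,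
    not_false_iff, if_true, if_false] <;> ring

lemma inf_dmp (θ : ℝ) (c : Finset ι → ℝ) (j : ι) :
    inf (dmp θ c) j = ∑ T, (if j ∈ T then (θ ^ 2) ^ T.card else 0) * c T ^ 2 := by
  rw [inf_eq]
  refine sum_congr rfl fun T _ => ?_
  unfold dmp
  split_ifs <;> ring

lemma row (u ρ : ℝ) (j : ι) (T : Finset ι) :
    ∑ i, (if i ∈ T then ρ * (if j ∈ T.erase i then u ^ (T.erase i).card else 0)
      else if j ∈ T then u ^ T.card else 0) = if j ∈ T then (T.card - 1) * (ρ * u ^ (T.card - 1)) +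
        (Fintype.card ι - T.card) * u ^ T.card else 0 := by
  by_cases h : j ∈ T
  · rw [sum_ite, filter_mem_eq_inter, univ_inter, ← add_sum_erase _ _ h, if_neg (notMem_erase _ _),
      sum_congr rfl (g := fun _ => ρ * u ^ (T.card - 1)) fun i hi => by
        rw [if_pos (mem_erase.2 ⟨(ne_of_mem_erase hi).symm, h⟩),
          card_erase_of_mem (mem_of_mem_erase hi)],
      show univ.filter (fun i => i ∉ T) = Tᶜ by ext; simp]
    simp [h, card_compl, card_le_univ, Nat.cast_sub (card_pos.2 ⟨j, h⟩)]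
  · simp [h]

lemma scalar {k d : ℕ} {s t : ℝ} (hk : k + 1 ≤ d) (h0 : 0 ≤ s) (h1 : s ≤ 1) (ht : 0 < t)
    (hd : 100 * (d : ℝ) ^ 2 * t ≤ 1) :
    (1 - 3 * t) * (1 + s * t) ^ (k + 1) ≤ 1 - (k + 1) * t + k * (1 + s) * (1 + s * t) * t ∧
      1 - (k + 1) * t + k * (1 + s) * (1 + s * t) * t ≤ (1 + s * t) ^ (k + 1) := by
  have k0 : (0 : ℝ) ≤ k := k.cast_nonneg
  have k1 : (k : ℝ) + 1 ≤ d := by exact_mod_cast hk
  have x0 : 0 ≤ s * t := by positivity
  have x1 : s * t ≤ t := mul_le_of_le_one_left ht.le h1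
  have e1 : 100 * ((k + 1) ^ 2 * t) ≤ 1 := by
    have : ((k : ℝ) + 1) ^ 2 ≤ d ^ 2 := by gcongr
    nlinarith
  have e2 : (k + 1) * t ≤ (k + 1) ^ 2 * t := by nlinarith [mul_nonneg k0 ht.le]
  have e3 : (k + 1) * (s * t) ≤ (k + 1) * t := by gcongr
  have y0 : 0 ≤ (k + 1) * (s * t) := by positivity
  have b1 := one_add_mul_le_pow (a := s * t) (by linarith) (k + 1)
  have b2 : (1 + s * t) ^ (k + 1) ≤ Real.exp ((k + 1) * (s * t)) := by
    rw [← Nat.cast_succ, Real.exp_nat_mul]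
    exact pow_le_pow_left₀ (by linarith) (by linarith [Real.add_one_le_exp (s * t)]) _
  have b3 := (abs_le.1 (Real.abs_exp_sub_one_sub_id_le (x := (k + 1) * (s * t))
    (by rw [abs_of_nonneg y0]; linarith))).2
  have b4 : ((k + 1) * (s * t)) ^ 2 ≤ t := by
    refine (pow_le_pow_left₀ y0 e3 2).trans ?_
    nlinarith
  have c0 : 0 ≤ k * (s * t) * (1 + s) * t := by positivity
  have c1 : k * (s * t) * (1 + s) * t ≤ t := by
    refine mul_le_of_le_one_left ht.le ?_
    nlinarith [mul_nonneg k0 x0]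
  rw [Nat.cast_succ] at b1
  rw [show 1 - (k + 1) * t + k * (1 + s) * (1 + s * t) * t =
    1 - t + ((k + 1) * (s * t) - s * t) + k * (s * t) * (1 + s) * t by ring]
  exact ⟨by nlinarith, by linarith⟩

end Step1A

open Step1A in
theorem step1 : Step1 := by
  intro ι _ _ d s n a hd h0 h1 _ hn ha j
  have d1 : (1 : ℝ) ≤ d := by exact_mod_cast hd
  have n0 : 0 < n := by nlinarith
  have p0 : 0 < 1 + s * n⁻¹ := by positivity
  have hu : th s n ^ 2 = (1 + s * n⁻¹)⁻¹ := by
    rw [th, div_pow, one_pow, Real.sq_sqrt (by positivity), one_div, div_eq_mul_inv]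
  have key : avgS s n (fun c => inf c j) a = ∑ T, (if j ∈ T then
      (1 - T.card * n⁻¹ + (T.card - 1) * (1 + s) * (1 + s * n⁻¹) * n⁻¹) / (1 + s * n⁻¹) ^ T.card
        else 0) * a T ^ 2 := by
    simp only [avgS, inf_dmp, two, hu, rad_sq h0]
    rw [sum_comm, sum_div, mul_sum, ← sum_add_distrib]
    refine sum_congr rfl fun T _ => ?_
    rw [← sum_mul, row]
    split_ifs with h
    · obtain ⟨k, hk⟩ := Nat.exists_eq_succ_of_ne_zero (card_ne_zero_of_mem h)
      rw [hk, Nat.succ_sub_one, pow_succ _ k, pow_succ _ k, inv_pow, div_eq_mul_inv _ n,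
        div_eq_mul_inv _ n]
      generalize 1 + s * n⁻¹ = y at p0 ⊢
      field_simp
      ring
    · simp
  have hc : ∀ T : Finset ι, j ∈ T → a T ≠ 0 → (1 - 3 / n) ≤
      (1 - T.card * n⁻¹ + (T.card - 1) * (1 + s) * (1 + s * n⁻¹) * n⁻¹) / (1 + s * n⁻¹) ^ T.card ∧
      (1 - T.card * n⁻¹ + (T.card - 1) * (1 + s) * (1 + s * n⁻¹) * n⁻¹) / (1 + s * n⁻¹) ^ T.card ≤
        1 := fun T h h' => by
    obtain ⟨k, hk⟩ := Nat.exists_eq_succ_of_ne_zero (card_ne_zero_of_mem h)
    have := scalar (k := k) (not_lt.1 fun c => h' (ha T (hk ▸ c))) h0 h1 (inv_pos.2 n0)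
      ((div_le_one n0).2 hn)
    rwa [hk, le_div_iff₀ (by positivity), div_le_one (by positivity), Nat.cast_succ,
      add_sub_cancel_right]
  rw [key, inf_eq, mul_sum]
  refine ⟨sum_le_sum fun T _ => ?_, sum_le_sum fun T _ => ?_⟩ <;> split_ifs with h
  · by_cases h' : a T = 0
    · simp [h']
    · exact mul_le_mul_of_nonneg_right (hc T h h').1 (sq_nonneg _)
  · simp
  · by_cases h' : a T = 0
    · simp [h']
    · exact mul_le_of_le_one_left (sq_nonneg _) (hc T h h').2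
  · simp

end Pool.Agent.MP_9e8696_an.H30
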