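import Mathlib
import Pool.Agent.MP_9e8696_an.H30.Basic

/-!
Second moments of the influences in one step of the process.
-/

set_option linter.unusedSectionVars false

namespace Pool.Agent.MP_9e8696_an.H30

open Finset hiding inf
open H67 H8
open scoped BigOperators

namespace Step2A

variable {ι : Type*} [Fintype ι] [DecidableEq ι]

lemma th_facts {s n : ℝ} (h0 : 0 ≤ s) (h1 : s ≤ 1) (hn : 1 ≤ n) (d : ℕ) :
    0 ≤ th s n ∧ th s n ≤ 1 ∧ 1 - d / n ≤ th s n ^ (2 * d) := by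
  have hn0 : 0 < n := by linarith
  have ht : 0 ≤ s / n := by positivity
  have ht1 : s / n ≤ 1 / n := div_le_div_of_nonneg_right h1 hn0.le
  have ht2 : 1 / n ≤ 1 := (div_le_one hn0).2 hn
  refine ⟨by unfold th; positivity, (div_le_one (by positivity)).2 (one_le_rad ht), ?_⟩
  have e : 1 + -(1 / n) ≤ th s n ^ 2 := by
    rw [th, div_pow, rad_sq ht, one_pow, le_div_iff₀ (by positivity)]
    nlinarith [mul_nonneg ht (one_div_pos.2 hn0).le]
  rw [pow_mul]
  refine le_trans ?_ (pow_le_pow_left₀ (by linarith) e d)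
  refine le_trans (le_of_eq (by ring)) (one_add_mul_le_pow (by linarith) d)

lemma dmp_close {s n : ℝ} (h0 : 0 ≤ s) (h1 : s ≤ 1) (hn : 1 ≤ n) {d : ℕ} {c : Finset ι → ℝ}
    (hc : DegLe c d) (j : ι) :
    (inf (dmp (th s n) c) j - inf c j) ^ 2 ≤ (d / n * inf c j) ^ 2 := by
  obtain ⟨t0, t1, t2⟩ := th_facts h0 h1 hn d
  have e1 := inf_dmp_le (th s n) (by rwa [abs_of_nonneg t0]) c j
  have e2 := (mul_le_mul_of_nonneg_right t2 (inf_nonneg c j)).trans (inf_dmp_ge _ t0 t1 hc j)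
  have e3 : 0 ≤ d / n * inf c j := mul_nonneg (by positivity) (inf_nonneg c j)
  exact sq_le_sq' (by linarith) (by linarith)

lemma one_side {s n z : ℝ} (h0 : 0 ≤ s) (h1 : s ≤ 1) (hn : 1 ≤ n) (hz : z ^ 2 = 1 + s) {d : ℕ}
    {a : Finset ι → ℝ} (ha : DegLe a d) {i j : ι} (hij : i ≠ j) :
    (inf (dmp (th s n) (res i z a)) j - inf a j) ^ 2 ≤ inf a j ^ 2 *
      (2 * (z * dl (sh {j} a) i + s * io (sh {j} a) i) ^ 2 + 25 * (d / n) ^ 2) := by
  have e1 := dmp_close h0 h1 hn (degLe_res ha i z) j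
  have e2 : inf (res i z a) j =
      inf a j * (1 + (z * dl (sh {j} a) i + s * io (sh {j} a) i)) := by
    unfold H67.inf
    rw [sh_res i j hij, nrm_res_ratio, hz]
    ring
  have hz' : |z| ≤ 3 / 2 := abs_le_of_sq_le_sq' (by linarith) (by norm_num) |> abs_le.2
  have b1 : |z * dl (sh {j} a) i| ≤ 3 / 2 := by
    rw [abs_mul]
    exact (mul_le_of_le_one_right (abs_nonneg _) (abs_dl_le _ i)).trans hz'
  have b2 : 0 ≤ s * io (sh {j} a) i := mul_nonneg h0 (io_nonneg _ i)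
  have b3 : s * io (sh {j} a) i ≤ 1 := mul_le_one₀ h1 (io_nonneg _ i) (io_le_one _ i)
  rw [e2] at e1
  generalize inf (dmp (th s n) (res i z a)) j = m' at e1
  have b4 : (1 + (z * dl (sh {j} a) i + s * io (sh {j} a) i)) ^ 2 ≤ (7 / 2) ^ 2 :=
    sq_le_sq' (by linarith [(abs_le.1 b1).1]) (by linarith [(abs_le.1 b1).2])
  generalize z * dl (sh {j} a) i + s * io (sh {j} a) i = u at e1 b4
  generalize inf a j = m at e1
  generalize (d : ℝ) / n = κ at e1
  have b5 : (κ * (m * (1 + u))) ^ 2 ≤ (κ * m) ^ 2 * (7 / 2) ^ 2 :=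
    (le_of_eq (by ring)).trans (mul_le_mul_of_nonneg_left b4 (sq_nonneg (κ * m)))
  nlinarith [sq_nonneg (m' - m * (1 + u) - m * u), sq_nonneg (κ * m)]

lemma term_le {s n : ℝ} (h0 : 0 ≤ s) (h1 : s ≤ 1) (hn : 1 ≤ n) {d : ℕ}
    {a : Finset ι → ℝ} (ha : DegLe a d) (i j : ι) :
    ((inf (dmp (th s n) (res i (Real.sqrt (1 + s)) a)) j - inf a j) ^ 2 +
      (inf (dmp (th s n) (res i (-Real.sqrt (1 + s)) a)) j - inf a j) ^ 2) / 2 ≤
      inf a j ^ 2 * (4 * en s a j i + 25 * (d / n) ^ 2 + if i = j then 1 else 0) := by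
  by_cases hij : i = j
  · subst hij
    have e : ∀ z, inf (dmp (th s n) (res i z a)) i = 0 := fun z => by
      have := dmp_close h0 h1 hn (degLe_res ha i z) i
      rw [inf_res_self, mul_zero, sub_zero] at this
      exact pow_eq_zero_iff two_ne_zero |>.1 (le_antisymm (by simpa using this) (sq_nonneg _))
    have e2 : 0 ≤ inf a i ^ 2 * (4 * en s a i i + 25 * (d / n) ^ 2) := by
      have := en_nonneg s a i i
      positivity
    rw [e, e, if_pos rfl]
    nlinarith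
  · have hz := rad_sq h0
    have e1 := one_side h0 h1 hn hz ha hij
    have e2 := one_side h0 h1 hn ((neg_sq _).trans hz) ha hij
    have e3 : (Real.sqrt (1 + s) * dl (sh {j} a) i + s * io (sh {j} a) i) ^ 2 +
        (-Real.sqrt (1 + s) * dl (sh {j} a) i + s * io (sh {j} a) i) ^ 2 ≤ 4 * en s a j i := by
      have : (Real.sqrt (1 + s) * dl (sh {j} a) i) ^ 2 ≤ 2 * dl (sh {j} a) i ^ 2 := by
        rw [mul_pow, hz]
        exact mul_le_mul_of_nonneg_right (by linarith) (sq_nonneg _)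
      unfold en
      nlinarith [sq_nonneg (s * io (sh {j} a) i)]
    have e4 := mul_le_mul_of_nonneg_left e3 (sq_nonneg (inf a j))
    rw [if_neg hij]
    nlinarith

end Step2A

open Step2A in
theorem step2 : Step2 := by
  intro ι _ _ d s n a hd h0 h1 hc hn ha j
  have hd' : (1 : ℝ) ≤ d := by exact_mod_cast hd
  have hn1 : 1 ≤ n := by nlinarith
  have hn0 : 0 < n := by linarith
  have e1 := sum_le_sum fun i (_ : i ∈ univ) => term_le h0 h1 hn1 ha i j
  rw [← mul_sum, sum_add_distrib, sum_add_distrib, ← mul_sum, sum_const, card_univ, nsmul_eq_mul,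
    sum_ite_eq', if_pos (mem_univ j)] at e1
  have e2 : (inf (dmp (th s n) a) j - inf a j) ^ 2 ≤ inf a j ^ 2 * (25 * (d / n) ^ 2) :=
    (dmp_close h0 h1 hn1 ha j).trans (by nlinarith [sq_nonneg (d / n * inf a j)])
  have e3 : 0 ≤ 1 - (Fintype.card ι : ℝ) / n := sub_nonneg.2 ((div_le_one hn0).2 hc)
  have e4 : 25 * ((d : ℝ) / n) ^ 2 ≤ 3 / n := by
    rw [div_pow, mul_div_assoc', div_le_div_iff₀ (by positivity) hn0]
    nlinarith
  refine (add_le_add (div_le_div_of_nonneg_right e1 hn0.le)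
    (mul_le_mul_of_nonneg_left e2 e3)).trans ?_
  have e5 := mul_le_mul_of_nonneg_left e4 (sq_nonneg (inf a j))
  generalize 25 * ((d : ℝ) / n) ^ 2 = κ at e5
  refine le_trans (le_of_eq ?_) ((add_le_add_right e5
    (inf a j ^ 2 * (4 * ∑ i, en s a j i + 1) / n)).trans (le_of_eq ?_)) <;> ring

end Pool.Agent.MP_9e8696_an.H30
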