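import Mathlib
import Pool.Agent.MP_9e8696_an.H30.Basic

/-!
The bound for the total influence, applied to a polynomial that is linear in new variables.
-/

set_option linter.unusedSectionVars false

namespace Pool.Agent.MP_9e8696_an.H30

open Finset hiding inf
open H67 H8
open scoped BigOperators

namespace SG

variable {ι : Type*} [Fintype ι] [DecidableEq ι]

/-- Coefficients of the polynomial `∑ j ∈ J, e j * g j`. -/
def cmb (J : Finset ι) (g : ι → Finset ι → ℝ) (S : Finset (ι ⊕ ι)) : ℝ :=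
  ∑ j ∈ J, if S.toRight = {j} then g j S.toLeft else 0

lemma key (J : Finset ι) (g : ι → Finset ι → ℝ) (Φ : Finset (ι ⊕ ι) → ℝ → ℝ)
    (h0 : ∀ S, Φ S 0 = 0) :
    ∑ S, Φ S (cmb J g S) = ∑ j ∈ J, ∑ T : Finset ι, Φ (T.disjSum {j}) (g j T) := by
  have h1 : ∀ S, Φ S (cmb J g S) =
      ∑ j ∈ J, if S.toRight = {j} then Φ S (g j S.toLeft) else 0 := by
    intro S
    unfold cmb
    by_cases h : ∃ j ∈ J, S.toRight = {j}
    · obtain ⟨j, hj, e⟩ := h
      have hne : ∀ k, k ≠ j → ¬ S.toRight = {k} := fun k hk e' =>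
        hk (singleton_injective (e'.symm.trans e))
      rw [sum_eq_single_of_mem j hj fun k _ hk => if_neg (hne k hk),
        sum_eq_single_of_mem j hj fun k _ hk => if_neg (hne k hk), if_pos e, if_pos e]
    · rw [sum_eq_zero fun k hk => if_neg fun e => h ⟨k, hk, e⟩,
        sum_eq_zero fun k hk => if_neg fun e => h ⟨k, hk, e⟩, h0]
  simp only [h1]
  rw [sum_comm]
  refine sum_congr rfl fun j _ => ?_
  rw [← sum_filter]
  refine sum_bij' (fun S _ => S.toLeft) (fun T _ => T.disjSum {j}) ?_ ?_ ?_ ?_ ?_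
  · intro S _; exact mem_univ _
  · intro T _; simp
  · intro S hS
    rw [← (mem_filter.1 hS).2, toLeft_disjSum_toRight]
  · intro T _; simp
  · intro S hS
    rw [← (mem_filter.1 hS).2, toLeft_disjSum_toRight]

lemma F_cmb (J : Finset ι) (g : ι → Finset ι → ℝ) (w : ι ⊕ ι → ℝ) :
    F (cmb J g) w = ∑ j ∈ J, w (Sum.inr j) * F (g j) fun i => w (Sum.inl i) := by
  unfold F
  rw [key J g (fun S t => t * ∏ i ∈ S, w i) fun S => zero_mul _]
  refine sum_congr rfl fun j _ => ?_
  rw [mul_sum]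
  refine sum_congr rfl fun T _ => ?_
  rw [prod_disjSum, prod_singleton]
  ring

lemma inf_inl (J : Finset ι) (g : ι → Finset ι → ℝ) (i : ι) :
    inf (cmb J g) (Sum.inl i) = ∑ j ∈ J, inf (g j) i := by
  rw [inf_eq, key J g (fun S t => if Sum.inl i ∈ S then t ^ 2 else 0) fun S => by simp]
  simp only [inf_eq, inl_mem_disjSum]

lemma inf_inr (J : Finset ι) (g : ι → Finset ι → ℝ) (k : ι) :
    inf (cmb J g) (Sum.inr k) = if k ∈ J then nrm (g k) else 0 := by
  rw [inf_eq, key J g (fun S t => if Sum.inr k ∈ S then t ^ 2 else 0) fun S => by simp]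
  simp only [inr_mem_disjSum, mem_singleton, sum_ite_irrel, sum_const_zero, sum_ite_eq]
  rfl

lemma deg_cmb {J : Finset ι} {g : ι → Finset ι → ℝ} {d : ℕ} (hd : 1 ≤ d)
    (h : ∀ j ∈ J, DegLe (g j) (d - 1)) : DegLe (cmb J g) d := by
  intro S hS
  refine sum_eq_zero fun j hj => ?_
  split_ifs with e
  · have := card_toLeft_add_card_toRight (u := S)
    rw [e, card_singleton] at this
    exact h j hj _ (by omega)
  · rfl

end SG

open SG in
theorem sumG : SumG := by
  intro d s q hd hs hq hB ι _ _ J g K τ hK hτ hg hF hn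
  set Q : Finset ι := univ.filter fun i => τ < ∑ j ∈ J, inf (g j) i with hQ
  set G : Finset (ι ⊕ ι) → ℝ := fun S => K⁻¹ * cmb J (fun j => del Q (g j)) S with hG
  have hK2 : 0 < K⁻¹ ^ 2 := by positivity
  have h1 : DegLe G d := degLe_smul (deg_cmb hd fun j hj => (hg j hj).del Q) _
  have h2 : Box s G := by
    intro w hw
    rw [hG, F_smul, F_cmb, abs_mul, abs_of_pos (inv_pos.2 hK), inv_mul_le_iff₀ hK, mul_one]
    simp only [F_del]
    refine hF _ _ (fun j => hw _) fun i => ?_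
    split_ifs
    · simp
    · exact hw _
  have h3 : ∀ x, inf G x ≤ K⁻¹ ^ 2 * τ := by
    intro x
    rw [hG, inf_smul]
    refine mul_le_mul_of_nonneg_left ?_ hK2.le
    rcases x with i | k
    · rw [inf_inl]
      by_cases hi : i ∈ Q
      · rw [sum_eq_zero fun j _ => inf_del_mem (g j) hi]
        exact hτ.le
      · refine (sum_le_sum fun j _ => inf_del_le (g j) Q i).trans (not_lt.1 fun h => hi ?_)
        exact mem_filter.2 ⟨mem_univ _, h⟩
    · rw [inf_inr]
      split_ifs with hk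
      · exact (nrm_del_le Q _).trans (hn k hk)
      · exact hτ.le
  have h4 := hB _ G h1 h2 _ h3
  have h5 : K⁻¹ ^ 2 * ∑ j ∈ J, nrm (del Q (g j)) ≤ tot G := by
    unfold tot
    rw [Fintype.sum_sum_type]
    refine le_add_of_nonneg_of_le (sum_nonneg fun i _ => inf_nonneg _ _) (le_of_eq ?_)
    simp only [hG, inf_smul, inf_inr]
    rw [← mul_sum, sum_ite_mem, univ_inter]
  rw [Real.sqrt_mul hK2.le, Real.sqrt_sq (inv_pos.2 hK).le] at h4
  have h6 : ∑ j ∈ J, nrm (del Q (g j)) ≤ K * q * Real.sqrt τ := by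
    refine le_of_mul_le_mul_left ((h5.trans h4).trans (le_of_eq ?_)) hK2
    field_simp
  calc ∑ j ∈ J, nrm (g j) ≤ ∑ j ∈ J, (nrm (del Q (g j)) + ∑ i ∈ Q, inf (g j) i) :=
        sum_le_sum fun j _ => nrm_del_ge (g j) Q
    _ = ∑ j ∈ J, nrm (del Q (g j)) + ∑ i ∈ Q, ∑ j ∈ J, inf (g j) i := by
        rw [sum_add_distrib, sum_comm]
    _ ≤ _ := by
        rw [hQ, sum_filter]
        exact add_le_add h6 le_rfl

end Pool.Agent.MP_9e8696_an.H30
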