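import Mathlib
import Pool.Agent.MP_9e8696_an.H30.Basic

/-!
Recursion, norm bound and commutation for the terms of the Taylor expansion in one direction.
-/

set_option linter.unusedSectionVars false

namespace Pool.Agent.MP_9e8696_an.H30

open Finset hiding inf
open H67 H8
open scoped BigOperators

namespace Uk

variable {ι : Type*} [Fintype ι] [DecidableEq ι]

lemma lev_zero (k : ℕ) : lev k (0 : Finset ι → ℝ) = 0 := by
  funext S
  simp [lev]

lemma uk_zero (b : ι → ℝ) (e : Finset ι → ℝ) : uk 0 b e = e := by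
  funext T
  unfold uk F
  rw [sum_eq_single ∅]
  · simp [lev, sh]
  · intro S _ hS
    simp [lev, hS]
  · simp

lemma sh_uk (k : ℕ) (b : ι → ℝ) (e : Finset ι → ℝ) (i : ι) (T : Finset ι) :
    sh {i} (uk k b e) T = F (lev k (if i ∈ T then 0 else sh (insert i T) e)) b := by
  by_cases hi : i ∈ T
  · have : ¬ Disjoint T {i} := by simp [hi]
    simp [hi, sh, this, lev_zero, F_zero]
  · have : Disjoint T {i} := by simp [hi]
    have e1 : T ∪ {i} = insert i T := by
      ext j; simp only [mem_union, mem_singleton, mem_insert]; tauto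
    rw [if_neg hi]
    conv_lhs => unfold sh
    rw [if_pos this, e1]
    rfl

lemma euler (c : Finset ι → ℝ) (b : ι → ℝ) :
    ∑ i, b i * F (sh {i} c) b = ∑ S, (S.card : ℝ) * (c S * ∏ j ∈ S, b j) := by
  simp only [F_sh, mul_sum, singleton_subset_iff]
  rw [sum_comm]
  refine sum_congr rfl fun S _ => ?_
  have : ∀ i, (b i * if i ∈ S then c S * ∏ j ∈ S \ {i}, b j else 0) =
      if i ∈ S then c S * ∏ j ∈ S, b j else 0 := by
    intro i
    split_ifs with h
    · rw [sdiff_singleton_eq_erase, ← mul_prod_erase S b h]; ring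
    · simp
  simp only [this]
  rw [← sum_filter]
  simp

lemma dir_uk (k : ℕ) (b : ι → ℝ) (e : Finset ι → ℝ) :
    dir b (uk k b e) = fun T => ((k : ℝ) + 1) * uk (k + 1) b e T := by
  funext T
  unfold dir
  simp only [sh_uk, ← sh_singleton_sh, lev_sh]
  rw [euler]
  unfold uk F
  rw [mul_sum]
  refine sum_congr rfl fun S _ => ?_
  unfold lev
  split_ifs with h
  · rw [h]; push_cast; ring
  · simp

lemma sh_uk' (k : ℕ) (b : ι → ℝ) (e : Finset ι → ℝ) (i : ι) :
    sh {i} (uk k b e) = uk k b (sh {i} e) := by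
  funext T
  rw [sh_uk, ← sh_sh_singleton]
  rfl

lemma degLe_uk {e : Finset ι → ℝ} {d : ℕ} (h : DegLe e d) (k : ℕ) (b : ι → ℝ) :
    DegLe (uk k b e) d := by
  intro T hT
  unfold uk F
  refine sum_eq_zero fun R _ => ?_
  have : sh T e R = 0 := by
    unfold sh
    split_ifs
    · exact h _ (lt_of_lt_of_le hT (card_le_card subset_union_right))
    · rfl
  simp [lev, this]

lemma nrm_dir (b : ι → ℝ) (g : Finset ι → ℝ) : nrm (dir b g) ≤ (∑ i, b i ^ 2) * ∑ i, inf g i := by
  unfold H67.inf nrm dir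
  rw [sum_comm, mul_sum]
  exact sum_le_sum fun T _ => sum_mul_sq_le_sq_mul_sq _ _ _

lemma nrm_uk {e : Finset ι → ℝ} {d : ℕ} (h : DegLe e d) (b : ι → ℝ) (hb : ∑ i, b i ^ 2 ≤ d)
    (k : ℕ) : nrm (uk k b e) ≤ ((d : ℝ) ^ 2) ^ k * nrm e := by
  induction k with
  | zero => simp [uk_zero]
  | succ k ih =>
    have h1 := nrm_dir b (uk k b e)
    rw [dir_uk, nrm_smul] at h1
    have h2 := sum_inf_le _ d (degLe_uk h k b)
    have h3 : 0 ≤ ∑ i, inf (uk k b e) i := sum_nonneg fun i _ => inf_nonneg _ i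
    have h4 : (0 : ℝ) ≤ d := Nat.cast_nonneg d
    have h5 : (∑ i, b i ^ 2) * ∑ i, inf (uk k b e) i ≤ d * (d * nrm (uk k b e)) :=
      mul_le_mul hb h2 h3 h4
    have h6 : (1 : ℝ) ≤ ((k : ℝ) + 1) ^ 2 := one_le_pow₀ (by linarith [Nat.cast_nonneg (α := ℝ) k])
    have h7 := le_mul_of_one_le_left (nrm_nonneg (uk (k + 1) b e)) h6
    have h8 := mul_le_mul_of_nonneg_left ih (sq_nonneg (d : ℝ))
    calc nrm (uk (k + 1) b e) ≤ (d : ℝ) ^ 2 * nrm (uk k b e) := by nlinarith
      _ ≤ _ := h8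
      _ = _ := by ring

lemma tc_eq {e : Finset ι → ℝ} {d : ℕ} (h : DegLe e d) (b : ι → ℝ) :
    tc e b = fun T => ∑ k ∈ range (d + 1), uk k b e T := by
  funext T
  unfold tc uk F
  rw [sum_comm]
  refine sum_congr rfl fun S _ => ?_
  rw [← sum_mul]
  congr 1
  unfold lev
  rw [sum_ite_eq]
  split_ifs with hS
  · rfl
  · exact h.sh T S (by simpa [Nat.succ_le_iff] using hS)

end Uk

theorem ukFacts : UkFacts := fun _ _ _ b e =>
  ⟨Uk.uk_zero b e, fun k => Uk.dir_uk k b e, fun k i => Uk.sh_uk' k b e i,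
    fun _ h k => Uk.degLe_uk h k b, fun _ h hb k => Uk.nrm_uk h b hb k, fun _ h => Uk.tc_eq h b⟩

end Pool.Agent.MP_9e8696_an.H30
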