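import Mathlib
import Pool.Agent.MP_9e8696_an.H30.Step1
import Pool.Agent.MP_9e8696_an.H30.Step2
import Pool.Agent.MP_9e8696_an.H30.Phase
import Pool.Agent.MP_9e8696_an.H30.SumG
import Pool.Agent.MP_9e8696_an.H30.Plant
import Pool.Agent.MP_9e8696_an.H30.Marg
import Pool.Agent.MP_9e8696_an.H30.Gain
import Pool.Agent.MP_9e8696_an.H30.Sel
import Pool.Agent.MP_9e8696_an.H30.Big1
import Pool.Agent.MP_9e8696_an.H30.SelS
import Pool.Agent.MP_9e8696_an.H30.DirStep
import Pool.Agent.MP_9e8696_an.H30.Uk
import Pool.Agent.MP_9e8696_an.H30.Jensen3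
import Pool.Agent.MP_9e8696_an.H30.Small1
import Pool.Agent.MP_9e8696_an.H30.KillAll
import Pool.Agent.MP_9e8696_an.H30.Bilin
import Pool.Agent.MP_9e8696_an.H30.EndG
import Pool.Agent.MP_9e8696_an.H30.Phase2
import Pool.Agent.MP_9e8696_an.H30.Final
import Pool.Agent.MP_9e8696_an.H30.Cube

/-!
Assembly of the quasi-polynomial bound for the total influence.
-/

namespace Pool.Agent.MP_9e8696_an.H30

theorem final_all : Final :=
  final30
    (phase2 (phase step1 step2)
      (killAll (big1 sumG plant30 margA (gain margA margB) sel)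
        (small1 sumG dirStep ukFacts (jensen3 ukFacts)) selS) prior)
    (endG bilin) prior

end Pool.Agent.MP_9e8696_an.H30
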